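import Pool.Agent.XM.Stmts

/-!
# Column-convex polygons (MP_f6626d_co), explicit window: pairs of words between two columns
-/

set_option autoImplicit false

namespace Pool.Agent.XMX

open Finset Pool.Agent.Lib27 Pool.Agent.OC Pool.Agent.XM
open scoped NNReal ENNReal

/-- self-avoiding words from the column `0` to the column `b`, all vertices in columns `≤ b` -/
def Gx (b : ℕ) : Set Wd := {w | SAWs w ∧ (ep 0 w).1 = b ∧ ∀ p ∈ vt 0 w, p.1 ≤ (b : ℤ)}

/-- pairs of such words, with at most `c + 2` crossings of the lines `h ≥ 0` and at most `c` crossings of the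
lines `h < 0` -/
def Gxp (c b : ℕ) : Set (Wd × Wd) := {p | p.1 ∈ Gx b ∧ p.2 ∈ Gx b ∧ Tc c p}

/-- XGL. PROOF. Let `p = (V, W)`. `b ≥ 1`: cut `V` at its last crossing of the line `0` (`XM.last_cross` as in
`XM.NSM.split`; all columns are `≤ b`): `V = l ++ A`, `l` ends in the column `0`, `A ∈ Bri b` starts with the
last crossing. The same for `W = l' ++ A'`. `l ∈ Lp c`: on a line `h`, `0 ≤ h < b`, `A` and `W` have at least one crossing each
(`cr_Bri_pos`, `cr_pos_of_lt`) and `cr V h = cr l h + cr A h`, so `cr l h ≤ c + 2 - 2`; on a line `h ≥ b` there is no crossing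
(`cr_eq_zero_of_le`); on a line `h < 0` at most `c` by `Tc`. `(A, A') ∈ Brp (c + 2) b` (no crossings of lines `< 0`). `b = 0`:
`l = V`, `A = []` (`Bri 0 = {[]}`, `Y (c+2) z 0 = 1`). `OC.gs_split3` with `(l, l', (A, A')) ↦ (l ++ A, l' ++ A')`. -/
def XGL_Stmt : Prop := ∀ (c b : ℕ) (z : ℝ≥0∞),
  gs (Wz z) (Gxp c b) ≤ gs (wz z) (Lp c) ^ 2 * Y (c + 2) z b

end Pool.Agent.XMX
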