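import Pool.Agent.XMX.Stmts
import Pool.Agent.XM.Main

/-!
# Column-convex polygons (MP_f6626d_co), explicit window: sums beyond the critical point

The text of `XM/BeyB.lean` with explicit constants. The rates: `x = (Ba B1 c)⁻¹` of XLOOP, `a = x / 3`,
`D = Bl B0 c` of XNBB, `E = D a⁻¹`, `t = (1 + E⁻¹)⁻¹`: `(1 + a)^k (1 + D⁻¹)^(-(H-k)) ≤ (1 + x)^k t^H`.
-/

set_option autoImplicit false

namespace Pool.Agent.XMX

open Finset Pool.Agent.Lib27 Pool.Agent.XM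
open Pool.Agent.OC (gs gs_le gs_mono gs_mul_right gs_prod)
open scoped NNReal ENNReal

namespace XBEY

/-- geometric series with the ratio `(1 + E⁻¹)⁻¹` -/
theorem geo_le {E : ℝ≥0} (hE : 1 ≤ E) :
    ∑' n : ℕ, (((1 + E⁻¹)⁻¹ : ℝ≥0) : ℝ≥0∞) ^ n ≤ ((E + 1 : ℝ≥0) : ℝ≥0∞) := by
  have hE0 : E ≠ 0 := (zero_lt_one.trans_le hE).ne'
  have h1 : (1 + E⁻¹)⁻¹ + (E + 1)⁻¹ = 1 := by
    have h3 : (1 + E⁻¹)⁻¹ = E * (E + 1)⁻¹ := by
      have h4 : 1 + E⁻¹ = (E + 1) * E⁻¹ := by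
        rw [add_mul, mul_inv_cancel₀ hE0, one_mul]
      rw [h4, mul_inv, inv_inv, mul_comm]
    rw [h3]
    calc E * (E + 1)⁻¹ + (E + 1)⁻¹ = (E + 1) * (E + 1)⁻¹ := by rw [add_mul, one_mul]
      _ = 1 := mul_inv_cancel₀ (by positivity)
  rw [ENNReal.tsum_geometric]
  have h2 : (1 : ℝ≥0∞) - (((1 + E⁻¹)⁻¹ : ℝ≥0) : ℝ≥0∞) = (((E + 1)⁻¹ : ℝ≥0) : ℝ≥0∞) := by
    rw [← ENNReal.coe_one, ← ENNReal.coe_sub]
    congr 1
    nth_rewrite 1 [← h1]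
    exact add_tsub_cancel_left _ _
  rw [h2, ← ENNReal.coe_inv (by positivity), inv_inv]

/-- monotonicity of the rate -/
theorem rate_mono {a b : ℝ≥0} (h : b ≤ a) : (1 + a)⁻¹ ≤ (1 + b)⁻¹ :=
  inv_anti₀ (by positivity) (add_le_add le_rfl h)

/-- the rates -/
theorem rate {x a D E : ℝ≥0} (hx1 : x ≤ 1) (ha0 : 0 < a) (ha : x = 3 * a) (hD : 0 < D)
    (h1 : D ≤ E) (h2 : a⁻¹ ≤ E) (k H : ℕ) :
    (1 + a) ^ k * ((1 + D⁻¹)⁻¹) ^ (H - k) ≤ (1 + x) ^ k * ((1 + E⁻¹)⁻¹) ^ H := by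
  have hE : 0 < E := hD.trans_le h1
  set t := (1 + E⁻¹)⁻¹ with ht
  have ht1 : t ≤ 1 := by
    rw [ht]
    exact inv_le_one_of_one_le₀ (le_add_of_nonneg_right bot_le)
  have hr : (1 + D⁻¹)⁻¹ ≤ t := rate_mono (inv_anti₀ hD h1)
  have h4 : (1 + a)⁻¹ ≤ t := rate_mono (inv_le_of_inv_le₀ ha0 h2)
  have h5 : (1 + a) * (1 + a) ≤ 1 + x := by
    have h6 : a * a ≤ a := by
      have : a ≤ 1 := by
        calc a ≤ 3 * a := le_mul_of_one_le_left bot_le (by norm_num)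
          _ = x := ha.symm
          _ ≤ 1 := hx1
      exact mul_le_of_le_one_left bot_le this
    calc (1 + a) * (1 + a) = 1 + 2 * a + a * a := by ring
      _ ≤ 1 + 2 * a + a := add_le_add le_rfl h6
      _ = 1 + x := by rw [ha]; ring
  have hat : 1 + a ≤ (1 + x) * t := by
    calc 1 + a = (1 + a) * (1 + a) * (1 + a)⁻¹ := by
          rw [mul_assoc, mul_inv_cancel₀ (by positivity), mul_one]
      _ ≤ (1 + x) * t := mul_le_mul' h5 h4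
  calc (1 + a) ^ k * ((1 + D⁻¹)⁻¹) ^ (H - k) ≤ ((1 + x) * t) ^ k * t ^ (H - k) :=
        mul_le_mul' (pow_le_pow_left₀ bot_le hat k) (pow_le_pow_left₀ bot_le hr _)
    _ = (1 + x) ^ k * t ^ (k + (H - k)) := by rw [mul_pow, mul_assoc, ← pow_add]
    _ ≤ (1 + x) ^ k * t ^ H := mul_le_mul' le_rfl (pow_le_pow_of_le_one bot_le ht1 (by omega))

/-- the constants -/
theorem const_le {B0 B1 : ℝ≥0} (hB0 : 2 ≤ B0) (hB1 : 2 ≤ B1) (c : ℕ) :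
    Bl B0 c * (Bl B0 c * (3 * Ba B1 c) + 1) +
      2 * (Bl B0 c * (Bl B0 c * (3 * Ba B1 c) + 1) * (Bl B1 c * Bl B1 c)) + 16 ≤
      Bl (4 * (B0 ^ 2 * B1 ^ 3)) c := by
  have hb0 : 1 ≤ B0 := le_trans (by norm_num) hB0
  have hb1 : 1 ≤ B1 := le_trans (by norm_num) hB1
  have hN : 4 ≤ (c + 2) ^ 2 := Nat.pow_le_pow_left (Nat.le_add_left 2 c) 2
  have hNc : c + 2 ≤ (c + 2) ^ 2 := Nat.le_self_pow (by norm_num) _
  have hD1 : 1 ≤ Bl B0 c := one_le_pow₀ hb0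
  have hM1 : 1 ≤ Bl B1 c := one_le_pow₀ hb1
  have hBa : Ba B1 c ≤ Bl B1 c := pow_le_pow_right₀ hb1 hNc
  have hT : Bl (4 * (B0 ^ 2 * B1 ^ 3)) c = 4 ^ ((c + 2) ^ 2) * (Bl B0 c ^ 2 * Bl B1 c ^ 3) := by
    unfold Bl
    rw [mul_pow, mul_pow, ← pow_mul, ← pow_mul, ← pow_mul, ← pow_mul, mul_comm 2, mul_comm 3]
  rw [hT]
  set D := Bl B0 c
  set M := Bl B1 c
  have h4 : (256 : ℝ≥0) ≤ 4 ^ ((c + 2) ^ 2) := by
    calc (256 : ℝ≥0) = 4 ^ 4 := by norm_num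
      _ ≤ _ := pow_le_pow_right₀ (by norm_num) hN
  have hP : 1 ≤ D ^ 2 * M ^ 3 := one_le_mul (one_le_pow₀ hD1) (one_le_pow₀ hM1)
  have hE : D * (3 * Ba B1 c) + 1 ≤ 4 * (D * M) := by
    calc D * (3 * Ba B1 c) + 1 ≤ D * (3 * M) + D * M :=
          add_le_add (mul_le_mul' le_rfl (mul_le_mul' le_rfl hBa)) (one_le_mul hD1 hM1)
      _ = 4 * (D * M) := by ring
  have h5 : D * (D * (3 * Ba B1 c) + 1) ≤ 4 * (D ^ 2 * M ^ 3) := by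
    calc D * (D * (3 * Ba B1 c) + 1) ≤ D * (4 * (D * M)) := mul_le_mul' le_rfl hE
      _ = 4 * (D ^ 2 * M) * 1 := by ring
      _ ≤ 4 * (D ^ 2 * M) * (M ^ 2) := mul_le_mul' le_rfl (one_le_pow₀ hM1)
      _ = _ := by ring
  have h6 : 2 * (D * (D * (3 * Ba B1 c) + 1) * (M * M)) ≤ 8 * (D ^ 2 * M ^ 3) := by
    calc 2 * (D * (D * (3 * Ba B1 c) + 1) * (M * M)) ≤ 2 * (D * (4 * (D * M)) * (M * M)) :=
          mul_le_mul' le_rfl (mul_le_mul' (mul_le_mul' le_rfl hE) le_rfl)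
      _ = _ := by ring
  have h7 : (16 : ℝ≥0) ≤ 16 * (D ^ 2 * M ^ 3) := le_mul_of_one_le_right (by norm_num) hP
  calc _ ≤ 4 * (D ^ 2 * M ^ 3) + 8 * (D ^ 2 * M ^ 3) + 16 * (D ^ 2 * M ^ 3) :=
        add_le_add (add_le_add h5 h6) h7
    _ = 28 * (D ^ 2 * M ^ 3) := by ring
    _ ≤ 4 ^ ((c + 2) ^ 2) * (D ^ 2 * M ^ 3) :=
        mul_le_mul' (le_trans (by norm_num) h4) le_rfl

theorem coe_mono_z {e e' : ℝ≥0} (h : e ≤ e') (z : ℝ≥0∞) :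
    ((1 + e : ℝ≥0) : ℝ≥0∞) * z ≤ ((1 + e' : ℝ≥0) : ℝ≥0∞) * z :=
  mul_le_mul' (ENNReal.coe_le_coe.2 (add_le_add le_rfl h)) le_rfl

end XBEY

open XBEY

/-- XBEY : sums beyond the critical point, explicit constants -/
theorem t_XBEY (h1 : XNBB_Stmt) (h2 : XLOOP_Stmt) : XBEY_Stmt := by
  obtain ⟨B0, hB0, hn⟩ := h1
  obtain ⟨B1, hB1, hl⟩ := h2
  have h3 : CAPC_Stmt := capc_thm arc1_thm
  have h4 : POLYC_Stmt := polyc_thm polyr_thm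
  have hb0 : 1 ≤ B0 := le_trans (by norm_num) hB0
  have hb1 : 1 ≤ B1 := le_trans (by norm_num) hB1
  refine ⟨4 * (B0 ^ 2 * B1 ^ 3), ?_, fun c => ?_⟩
  · calc (2 : ℝ≥0) ≤ 4 * (1 * 1) := by norm_num
      _ ≤ 4 * (B0 ^ 2 * B1 ^ 3) :=
        mul_le_mul' le_rfl (mul_le_mul' (one_le_pow₀ hb0) (one_le_pow₀ hb1))
  have hK := const_le hB0 hB1 c
  set T := Bl (4 * (B0 ^ 2 * B1 ^ 3)) c with hT
  obtain ⟨-, hz2, -, -⟩ := zst_thm c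
  specialize hn c
  specialize hl c
  have hD1 : 1 ≤ Bl B0 c := one_le_pow₀ hb0
  have hM1 : 1 ≤ Bl B1 c := one_le_pow₀ hb1
  have hA1 : 1 ≤ Ba B1 c := one_le_pow₀ hb1
  set D := Bl B0 c with hD
  set M := Bl B1 c with hM
  set P := Ba B1 c with hP
  have hP0 : 0 < P := zero_lt_one.trans_le hA1
  have hD0 : 0 < D := zero_lt_one.trans_le hD1
  set a : ℝ≥0 := (3 * P)⁻¹ with ha
  have ha0 : 0 < a := by positivity
  have hxa : P⁻¹ = 3 * a := by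
    rw [ha, mul_inv, ← mul_assoc, mul_inv_cancel₀ (by norm_num), one_mul]
  have hx1 : P⁻¹ ≤ 1 := inv_le_one_of_one_le₀ hA1
  have ha1 : a ≤ 1 := by
    rw [ha]
    exact inv_le_one_of_one_le₀ (one_le_mul (by norm_num) hA1)
  set E : ℝ≥0 := D * (3 * P) with hE
  have hai : a⁻¹ = 3 * P := by rw [ha, inv_inv]
  have hP3 : 1 ≤ 3 * P := one_le_mul (by norm_num) hA1
  have hDE : D ≤ E := le_mul_of_one_le_right bot_le hP3
  have haE : a⁻¹ ≤ E := by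
    rw [hai]
    exact le_mul_of_one_le_left bot_le hD1
  have hPE : P ≤ E := by
    calc P ≤ 3 * P := le_mul_of_one_le_left bot_le (by norm_num)
      _ ≤ E := le_mul_of_one_le_left bot_le hD1
  have hE1 : 1 ≤ E := hD1.trans hDE
  have hE0 : 0 < E := zero_lt_one.trans_le hE1
  have hET : E ≤ T := by
    refine le_trans ?_ hK
    calc E ≤ D * (E + 1) := by
          calc E ≤ E + 1 := le_add_of_nonneg_right bot_le
            _ ≤ D * (E + 1) := le_mul_of_one_le_left bot_le hD1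
      _ ≤ D * (E + 1) + 2 * (D * (E + 1) * (M * M)) + 16 :=
        (le_add_of_nonneg_right bot_le).trans (le_add_of_nonneg_right bot_le)
  have hT1 : 1 ≤ T := hE1.trans hET
  have hTi : T⁻¹ ≤ E⁻¹ := inv_anti₀ hE0 hET
  have hz1 : ((1 + T⁻¹ : ℝ≥0) : ℝ≥0∞) * zst c ≤ ((1 + P⁻¹ : ℝ≥0) : ℝ≥0∞) * zst c :=
    coe_mono_z (hTi.trans (inv_anti₀ hP0 hPE)) _
  have hz3 : ((1 + T⁻¹ : ℝ≥0) : ℝ≥0∞) * zst c ≤ ((1 + a / D : ℝ≥0) : ℝ≥0∞) * zst c := by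
    refine coe_mono_z (hTi.trans (le_of_eq ?_)) _
    rw [hE, mul_inv, ← ha, div_eq_mul_inv, mul_comm]
  have hzone : ((1 + T⁻¹ : ℝ≥0) : ℝ≥0∞) * zst c ≤ 1 := by
    calc ((1 + T⁻¹ : ℝ≥0) : ℝ≥0∞) * zst c ≤ ((2 : ℝ≥0) : ℝ≥0∞) * 2⁻¹ := by
          refine mul_le_mul' (ENNReal.coe_le_coe.2 ?_) hz2
          calc 1 + T⁻¹ ≤ 1 + 1 := add_le_add le_rfl (inv_le_one_of_one_le₀ hT1)
            _ = 2 := one_add_one_eq_two
      _ = 1 := ENNReal.mul_inv_cancel (by simp) (by simp)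
  set z : ℝ≥0∞ := ((1 + T⁻¹ : ℝ≥0) : ℝ≥0∞) * zst c with hz
  set s : ℝ≥0 := 1 + P⁻¹ with hs
  set t : ℝ≥0 := (1 + E⁻¹)⁻¹ with ht
  have hgeo : ∑' n : ℕ, (t : ℝ≥0∞) ^ n ≤ ((E + 1 : ℝ≥0) : ℝ≥0∞) := geo_le hE1
  have hhn : ∀ (b : ℤ) (e d H : ℕ), gs (Wz z) (Nb b (c + 2) e (H - d) H) ≤
      D * ((s : ℝ≥0∞) ^ (e + d) * (t : ℝ≥0∞) ^ H) := by
    intro b e d H
    refine (hn a ha0 ha1 z hz3 b e d H).trans ?_
    rw [mul_assoc]
    refine mul_le_mul' le_rfl ?_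
    have h9 : (((1 + a) ^ (e + d) * ((1 + D⁻¹)⁻¹) ^ (H - (e + d)) : ℝ≥0) : ℝ≥0∞) ≤
        ((s ^ (e + d) * t ^ H : ℝ≥0) : ℝ≥0∞) :=
      ENNReal.coe_le_coe.2 (rate hx1 ha0 hxa hD0 hDE haE (e + d) H)
    rwa [ENNReal.coe_mul, ENNReal.coe_mul, ENNReal.coe_pow, ENNReal.coe_pow, ENNReal.coe_pow,
      ENNReal.coe_pow] at h9
  have h00 : ∀ H : ℕ, gs (Wz z) (Nb 0 (c + 2) 0 H H) ≤ D * (t : ℝ≥0∞) ^ H := by
    intro H
    have h9 := hhn 0 0 0 H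
    rw [Nat.sub_zero, add_zero, pow_zero, one_mul] at h9
    exact h9
  have hsum : ∑' H : ℕ, gs (Wz z) (Nb 0 (c + 2) 0 H H) ≤ ((D * (E + 1) : ℝ≥0) : ℝ≥0∞) := by
    refine (ENNReal.tsum_le_tsum h00).trans ?_
    rw [ENNReal.tsum_mul_left, ENNReal.coe_mul]
    exact mul_le_mul' le_rfl hgeo
  have hK1 : D * (E + 1) ≤ T :=
    ((le_add_of_nonneg_right bot_le).trans (le_add_of_nonneg_right bot_le)).trans hK
  have hK2 : 2 * (D * (E + 1) * (M * M)) ≤ T :=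
    ((le_add_of_nonneg_left bot_le).trans (le_add_of_nonneg_right bot_le)).trans hK
  have hK3 : 16 ≤ T := (le_add_of_nonneg_left bot_le).trans hK
  refine ⟨?_, ?_, ?_⟩
  · refine (ENNReal.tsum_le_tsum fun l => ?_).trans (hsum.trans (ENNReal.coe_le_coe.2 hK1))
    exact gs_mono _ fun p hp => hp.1
  · exact (h3 c z).trans (hsum.trans (ENNReal.coe_le_coe.2 hK1))
  · intro n hn1
    rcases hn1.eq_or_lt with rfl | hn2
    · have h8 : ((NoE (c + 2) 1).card : ℝ≥0∞) * z ^ (2 * 1) ≤ 16 * 1 := by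
        refine mul_le_mul' ?_ (pow_le_one' hzone _)
        exact_mod_cast XM.BEYB.card_le (c + 2)
      refine h8.trans ?_
      rw [Nat.cast_one, mul_one, mul_one]
      exact_mod_cast hK3
    · refine (h4 c z n hn2).trans ?_
      have hLz : gs (fun l => wz z l * (s : ℝ≥0∞) ^ ext l) (Lp c) ≤ M := hl z hz1
      have h8 : ∀ H : ℕ, gs (fun q : Wd × Wd => wz z q.1 * wz z q.2 *
          gs (Wz z) (Nb (ep 0 q.1).2 (c + 2) (ext q.1) (H - ext q.2) H)) (Lp c ×ˢ Lp c) ≤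
          (M * M) * (D * (t : ℝ≥0∞) ^ H) := by
        intro H
        calc gs (fun q : Wd × Wd => wz z q.1 * wz z q.2 *
              gs (Wz z) (Nb (ep 0 q.1).2 (c + 2) (ext q.1) (H - ext q.2) H)) (Lp c ×ˢ Lp c)
            ≤ gs (fun q : Wd × Wd => ((wz z q.1 * (s : ℝ≥0∞) ^ ext q.1) *
                (wz z q.2 * (s : ℝ≥0∞) ^ ext q.2)) * (D * (t : ℝ≥0∞) ^ H)) (Lp c ×ˢ Lp c) := by
              refine gs_le _ _ subset_rfl fun q _ => ?_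
              refine (mul_le_mul' le_rfl (hhn _ _ _ _)).trans (le_of_eq ?_)
              rw [pow_add]
              ring
          _ = gs (fun q : Wd × Wd => (wz z q.1 * (s : ℝ≥0∞) ^ ext q.1) *
                (wz z q.2 * (s : ℝ≥0∞) ^ ext q.2)) (Lp c ×ˢ Lp c) * (D * (t : ℝ≥0∞) ^ H) :=
              gs_mul_right _ _ _
          _ = gs (fun l => wz z l * (s : ℝ≥0∞) ^ ext l) (Lp c) *
                gs (fun l => wz z l * (s : ℝ≥0∞) ^ ext l) (Lp c) * (D * (t : ℝ≥0∞) ^ H) := by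
              rw [← gs_prod]
          _ ≤ _ := mul_le_mul' (mul_le_mul' hLz hLz) le_rfl
      calc ((2 * n : ℕ) : ℝ≥0∞) * ∑' H : ℕ, gs (fun q : Wd × Wd => wz z q.1 * wz z q.2 *
            gs (Wz z) (Nb (ep 0 q.1).2 (c + 2) (ext q.1) (H - ext q.2) H)) (Lp c ×ˢ Lp c)
          ≤ ((2 * n : ℕ) : ℝ≥0∞) * ∑' H : ℕ, (M * M : ℝ≥0∞) * (D * (t : ℝ≥0∞) ^ H) :=
            mul_le_mul' le_rfl (ENNReal.tsum_le_tsum h8)
        _ ≤ ((2 * n : ℕ) : ℝ≥0∞) * ((M * M : ℝ≥0∞) * (D * ((E + 1 : ℝ≥0) : ℝ≥0∞))) := by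
            rw [ENNReal.tsum_mul_left, ENNReal.tsum_mul_left]
            exact mul_le_mul' le_rfl (mul_le_mul' le_rfl (mul_le_mul' le_rfl hgeo))
        _ = ((2 * (D * (E + 1) * (M * M)) : ℝ≥0) : ℝ≥0∞) * n := by
            push_cast
            ring
        _ ≤ T * n := mul_le_mul' (ENNReal.coe_le_coe.2 hK2) le_rfl

end Pool.Agent.XMX
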