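import Pool.Agent.XMX.Stmts
import Pool.Agent.XM.Nsm

/-!
# CTX : cutting the loop of a bridge at a line
-/

set_option autoImplicit false

namespace Pool.Agent.XMX

open Finset Pool.Agent.Lib27 Pool.Agent.OC Pool.Agent.XM
open scoped NNReal ENNReal

namespace CTX

/-- the extension of the loop of any decomposition -/
theorem ex_eq (h : SPX_Stmt) {m k : ℕ} {A u l v : Wd} (h0 : 0 < k) (h1 : k < m) (hA : A ∈ Bri m)
    (hs : Sp m k A u l v) : ex m k A = ext l := by
  obtain ⟨a, b, c, -, h2, h3⟩ := h m k A h0 h1 hA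
  rw [h2, (h3 u l v hs).2.1]

theorem ext_pos {l' : Wd} : 1 ≤ ext (0 :: l' : Wd) := by
  have h1 : dv 0 ∈ vt 0 (0 :: l' : Wd) := by
    rw [vt_cons, zero_add]
    exact List.mem_cons_of_mem _ (mem_vt_self _ _)
  have h2 := natAbs_le_ext h1
  exact h2

theorem mem_tail_left {u v : Wd} (hu : u ≠ []) {p : ℤ × ℤ} (hp : p ∈ (vt 0 u).tail) :
    p ∈ (vt 0 (u ++ v)).tail := (mem_vt_tail_app hu).2 (Or.inl hp)

/-- the part before the loop at a later line -/
theorem pre {m h h' : ℕ} {u l v u2 l2 v2 : Wd} (hh : h < h') (h'm : h' < m) (h0 : 0 < h)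
    (hA : u ++ (l ++ v) ∈ Bri m) (hu : u ∈ Bri h) (hl : (ep 0 l).1 = 0) (hx : h + ext l ≤ h')
    (hs : Sp (m - h) (h' - h) v u2 l2 v2) : Sp m h' (u ++ (l ++ v)) (u ++ (l ++ u2)) l2 v2 := by
  obtain ⟨rfl, hu2, hl2, hv2, hc⟩ := hs
  have hune : u ≠ [] := Bri_ne_nil hu h0
  have e1 : u ++ (l ++ (u2 ++ (l2 ++ v2))) = (u ++ (l ++ u2)) ++ (l2 ++ v2) := by
    simp only [List.append_assoc]
  have hne : u ++ (l ++ u2) ≠ [] := by simp [hune]
  rw [e1] at hA
  refine ⟨e1, ⟨SAWs_left hA.1, ?_, ?_⟩, hl2, ?_, hc⟩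
  · rw [fst_ep_app, fst_ep_app, hu.2.1, hl, hu2.2.1]
    push_cast [Nat.cast_sub hh.le]
    ring
  · intro p hp
    refine ⟨(hA.2.2 p (mem_tail_left hne hp)).1, ?_⟩
    have hp' := List.mem_of_mem_tail hp
    rw [mem_vt_app, mem_vt_app] at hp'
    have hx' : (h : ℤ) + ext l ≤ h' := by exact_mod_cast hx
    rcases hp' with hp' | hp' | hp'
    · have := (Bri_col hu hp').2
      omega
    · have := natAbs_le_ext hp'
      rw [Prod.fst_sub, hu.2.1] at this
      omega
    · have := (Bri_col hu2 hp').2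
      rw [Prod.fst_sub, Prod.fst_sub, hu.2.1, hl] at this
      push_cast [Nat.cast_sub hh.le] at this
      omega
  · have : m - h - (h' - h) = m - h' := by omega
    rwa [this] at hv2

/-- the part after the loop at an earlier line -/
theorem suf {m h h' : ℕ} {u l v u1 l1 v1 : Wd} (hh : h' < h) (hm : h < m)
    (hA : u ++ (l ++ v) ∈ Bri m) (hl : (ep 0 l).1 = 0) (hv : v ∈ Bri (m - h))
    (hx : h' + ext l < h) (hs : Sp h h' u u1 l1 v1) :
    Sp m h' (u ++ (l ++ v)) u1 l1 (v1 ++ (l ++ v)) := by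
  obtain ⟨rfl, hu1, hl1, hv1, hc⟩ := hs
  have hv1ne : v1 ≠ [] := Bri_ne_nil hv1 (by omega)
  have e1 : (u1 ++ (l1 ++ v1)) ++ (l ++ v) = (u1 ++ l1) ++ (v1 ++ (l ++ v)) := by
    simp only [List.append_assoc]
  have e2 : (u1 ++ (l1 ++ v1)) ++ (l ++ v) = u1 ++ (l1 ++ (v1 ++ (l ++ v))) := by
    simp only [List.append_assoc]
  rw [e1] at hA
  refine ⟨e2, hu1, hl1, ⟨SAWs_right hA.1, ?_, ?_⟩, hc⟩
  · rw [fst_ep_app, fst_ep_app, hv1.2.1, hl, hv.2.1]
    push_cast [Nat.cast_sub hh.le, Nat.cast_sub hm.le, Nat.cast_sub (hh.trans hm).le]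
    ring
  · intro p hp
    have hx' : (h' : ℤ) + ext l < h := by exact_mod_cast hx
    have hp2 := mem_vt_right (u1 ++ l1) (List.mem_of_mem_tail hp)
    have h3 := (Bri_col hA hp2).2
    rw [Prod.fst_add, fst_ep_app, hu1.2.1, hl1] at h3
    refine ⟨?_, ?_⟩
    · rw [mem_vt_tail_app hv1ne] at hp
      rcases hp with hp | hp
      · exact (hv1.2.2 p hp).1
      · have hp' := List.mem_of_mem_tail hp
        rw [mem_vt_app] at hp'
        rcases hp' with hp' | hp'
        · have := natAbs_le_ext hp'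
          rw [Prod.fst_sub, hv1.2.1] at this
          push_cast [Nat.cast_sub hh.le] at this
          omega
        · have := (Bri_col hv hp').1
          rw [Prod.fst_sub, Prod.fst_sub, hv1.2.1, hl] at this
          push_cast [Nat.cast_sub hh.le] at this
          omega
    · push_cast [Nat.cast_sub (hh.trans hm).le]
      omega

end CTX

theorem t_CTX (h : SPX_Stmt) : CTX_Stmt := by
  intro m k A u l v h0 h1 hA hs
  obtain ⟨rfl, hu, hl, hv, hc⟩ := hs
  have hm : k + (m - k) = m := by omega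
  have huv : u ++ v ∈ Bri m := by
    have := Bri_append hu hv
    rwa [hm] at this
  have hcr : ∀ j : ℤ, cr (u ++ (l ++ v)) j = cr (u ++ v) j + cr l (j - k) := by
    intro j
    rw [XM.NSM.cr3 v hu hl, cr_append u v, hu.2.1]
    ring
  have hs0 : Sp m k (u ++ v) u [] v := ⟨by simp, hu, rfl, hv, Or.inl rfl⟩
  refine ⟨huv, SAWs_left (SAWs_right hA.1), ?_, hs0, hcr, ?_⟩
  · rw [cr_app_ge v hu le_rfl, sub_self]
    exact cr_Bri_zero hv (by omega)
  intro k' h2 h3 h4
  constructor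
  · have h5 : cr l ((k' : ℤ) - k) = 0 := by
      refine cr_out ?_
      rcases h4 with h4 | h4
      · left; omega
      · right; omega
    rw [hcr, h5, add_zero]
  rcases h4 with h4 | h4
  · rcases eq_or_lt_of_le (show k ≤ k' by omega) with rfl | hkk
    · -- the same line: the loop is empty
      rcases hc with rfl | ⟨l', rfl⟩
      · rfl
      · have := CTX.ext_pos (l' := l')
        omega
    · obtain ⟨u2, l2, v2, h5, -, -⟩ := h (m - k) (k' - k) v (by omega) (by omega) hv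
      have h6 := CTX.pre hkk h3 h0 hA hu hl h4 h5
      have h7 := CTX.pre (l := []) hkk h3 h0 (by simpa using huv) hu rfl
        (by rw [show ext [] = 0 from rfl]; omega) h5
      rw [List.nil_append, List.nil_append] at h7
      rw [CTX.ex_eq h h2 h3 huv h7, CTX.ex_eq h h2 h3 hA h6]
  · obtain ⟨u1, l1, v1, h5, -, -⟩ := h k k' u h2 (by omega) hu
    have h6 := CTX.suf (by omega) h1 hA hl hv h4 h5
    have h7 := CTX.suf (l := []) (by omega) h1 (by simpa using huv) rfl hv
      (by rw [show ext [] = 0 from rfl]; omega) h5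
    rw [List.nil_append] at h7
    rw [CTX.ex_eq h h2 h3 huv h7, CTX.ex_eq h h2 h3 hA h6]

end Pool.Agent.XMX
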