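import Pool.Agent.XMX.Stmts
import Pool.Agent.XM.Evn
import Pool.Agent.XM.Main

/-!
# XEVN : pairs of bridges with only even cuts, explicit constants
-/

set_option autoImplicit false

namespace Pool.Agent.XMX

open Finset Pool.Agent.Lib27 Pool.Agent.OC Pool.Agent.XM
open scoped NNReal ENNReal

namespace XEVN

/-- the number `q = 1 + (2 D)⁻¹` -/
noncomputable def qq (D : ℝ≥0) : ℝ≥0 := 1 + (2 * D)⁻¹

theorem rq (D : ℝ≥0) (hD : 1 ≤ D) : (1 + D⁻¹)⁻¹ * qq D = 1 - (2 * (D + 1))⁻¹ := by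
  have h0 : (0 : ℝ) < D := lt_of_lt_of_le one_pos (by exact_mod_cast hD)
  have h1 : (2 * (D + 1))⁻¹ ≤ (1 : ℝ≥0) := by
    refine inv_le_one_of_one_le₀ ?_
    calc (1 : ℝ≥0) ≤ 2 * (0 + 1) := by norm_num
      _ ≤ 2 * (D + 1) := by gcongr; exact zero_le
  rw [← NNReal.coe_inj, NNReal.coe_sub h1]
  simp only [qq]
  push_cast
  field_simp
  ring

theorem rq_lt (D : ℝ≥0) (hD : 1 ≤ D) : (1 + D⁻¹)⁻¹ * qq D < 1 := by
  rw [rq D hD]
  refine tsub_lt_self one_pos (by positivity)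

theorem geo (D : ℝ≥0) (hD : 1 ≤ D) :
    (1 - (((1 + D⁻¹)⁻¹ * qq D : ℝ≥0) : ℝ≥0∞))⁻¹ = (2 * (D + 1) : ℝ≥0) := by
  have h0 : (2 * (D + 1) : ℝ≥0) ≠ 0 := by positivity
  have h1 : (2 * (D + 1))⁻¹ ≤ (1 : ℝ≥0) := by
    refine inv_le_one_of_one_le₀ ?_
    calc (1 : ℝ≥0) ≤ 2 * (0 + 1) := by norm_num
      _ ≤ 2 * (D + 1) := by gcongr; exact zero_le
  rw [rq D hD, ← ENNReal.coe_one, ← ENNReal.coe_sub, tsub_tsub_cancel_of_le h1,
    ← ENNReal.coe_inv (inv_ne_zero h0), inv_inv]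

theorem core (h1 : XM.EVR_Stmt) (h3 : XM.MEAN_Stmt) (h4 : XM.ZST_Stmt) (c : ℕ) (D : ℝ≥0) (hD : 1 ≤ D)
    (hgap : ∀ l : ℕ, XM.ww (c + 2) ((1 + D⁻¹ : ℝ≥0) * XM.zst c) l ≤
      (D : ℝ≥0∞) * (((1 + D⁻¹)⁻¹ : ℝ≥0) : ℝ≥0∞) ^ l) (n : ℕ)
    (hn : ((511 / 512 : ℝ≥0) : ℝ≥0∞) ^ (n + 1) * (4 * D ^ 2 : ℝ≥0) ≤ 1) (z : ℝ≥0∞)
    (hz : z ≤ (((1 + D⁻¹) ^ ((((n : ℝ) + 2)⁻¹ : ℝ)) : ℝ≥0) : ℝ≥0∞) * XM.zst c) (l : ℕ) :
    gs (Wz z) (Evp (c + 2) l) ≤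
      ((((qq D) ^ ((((n : ℝ) + 2)⁻¹ : ℝ)))⁻¹ : ℝ≥0) : ℝ≥0∞) ^ l := by
  obtain ⟨M, hmean, -⟩ := h3 c
  obtain ⟨hz1, hz2, -, -⟩ := h4 c
  set e0 : ℝ≥0 := D⁻¹ with he0
  set r : ℝ≥0 := (1 + D⁻¹)⁻¹ with hr
  set x : ℝ≥0∞ := XM.zst c with hx
  have hx0 : x ≠ 0 := by
    intro h
    rw [h] at hz1
    simp at hz1
  have hxt : x ≠ ∞ := ne_top_of_le_ne_top (by simp) hz2
  set y : ℝ≥0∞ := (1 + e0 : ℝ≥0) * x with hy
  set q : ℝ≥0 := qq D with hq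
  have hq1 : 1 < q := by
    rw [hq, qq]
    exact lt_add_of_pos_right _ (inv_pos.2 (mul_pos two_pos (lt_of_lt_of_le one_pos hD)))
  have hrq : r * q < 1 := rq_lt D hD
  -- the two sums
  set F : ℝ≥0∞ := ∑' j : ℕ, gs (Wz x) (Irv (c + 2) (j + 1)) with hF
  set G : ℝ≥0∞ := ∑' j : ℕ, gs (Wz y) (Irv (c + 2) (j + 1)) * (q : ℝ≥0∞) ^ (j + 1) with hG
  have hF1 : F ≤ ((511 / 512 : ℝ≥0) : ℝ≥0∞) := by
    have h5 := EVN.gap1 c x hmean
    have h6 : ((1 / 512 : ℝ≥0) : ℝ≥0∞) ≤ x ^ 3 := by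
      have h7 : ((1 / 8 : ℝ≥0) : ℝ≥0∞) ≤ x := by
        refine le_trans (le_of_eq ?_) hz1
        rw [ENNReal.coe_div (by norm_num)]
        norm_num
      calc ((1 / 512 : ℝ≥0) : ℝ≥0∞) = ((1 / 8 : ℝ≥0) : ℝ≥0∞) ^ 3 := by
            rw [← ENNReal.coe_pow]; norm_num
        _ ≤ x ^ 3 := pow_le_pow_left' h7 3
    have h8 : F + ((1 / 512 : ℝ≥0) : ℝ≥0∞) ≤ ((511 / 512 : ℝ≥0) : ℝ≥0∞) +
        ((1 / 512 : ℝ≥0) : ℝ≥0∞) := by
      refine le_trans (add_le_add_right h6 F) (le_trans h5 (le_of_eq ?_))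
      rw [← ENNReal.coe_add, ← ENNReal.coe_one]
      congr 1
      norm_num
    exact (ENNReal.add_le_add_iff_right ENNReal.coe_ne_top).1 h8
  have hGt : G ≤ (4 * D ^ 2 : ℝ≥0) := by
    have h5 : G ≤ ∑' j : ℕ, (D : ℝ≥0∞) * ((r * q : ℝ≥0) : ℝ≥0∞) ^ j := by
      rw [hG]
      refine ENNReal.tsum_le_tsum fun j => ?_
      have h6 := le_trans (EVN.irv_le c y (j + 1)) (hgap (j + 1))
      calc gs (Wz y) (Irv (c + 2) (j + 1)) * (q : ℝ≥0∞) ^ (j + 1)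
          ≤ (D * (r : ℝ≥0∞) ^ (j + 1)) * (q : ℝ≥0∞) ^ (j + 1) := by gcongr
        _ = D * ((r * q : ℝ≥0) : ℝ≥0∞) ^ (j + 1) := by
            rw [ENNReal.coe_mul, mul_pow, mul_assoc]
        _ ≤ D * ((r * q : ℝ≥0) : ℝ≥0∞) ^ j := by
            gcongr 1
            exact pow_le_pow_right_of_le_one' (by exact_mod_cast hrq.le) (Nat.le_succ j)
    refine le_trans h5 ?_
    rw [ENNReal.tsum_mul_left, ENNReal.tsum_geometric, geo D hD, ← ENNReal.coe_mul]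
    rw [ENNReal.coe_le_coe]
    calc D * (2 * (D + 1)) ≤ D * (2 * (D + D)) := by gcongr
      _ = 4 * D ^ 2 := by ring
  -- the exponent
  have hFn : F ^ (n + 1) * G ≤ 1 := le_trans (mul_le_mul' (pow_le_pow_left' hF1 _) hGt) hn
  set t : ℝ := ((n : ℝ) + 2)⁻¹ with ht
  have hn0 : (0 : ℝ) < (n : ℝ) + 2 := by positivity
  have ht0 : 0 < t := inv_pos.2 hn0
  have ht1 : t < 1 := by
    rw [ht]
    refine inv_lt_one_of_one_lt₀ ?_
    have : (0 : ℝ) ≤ n := Nat.cast_nonneg n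
    linarith
  have hFG : F ^ (1 - t) * G ^ t ≤ 1 := by
    have h5 : 1 - t = ((n + 1 : ℕ) : ℝ) * t := by
      rw [ht]
      field_simp
      push_cast
      ring
    rw [h5, ENNReal.rpow_mul, ENNReal.rpow_natCast, ← ENNReal.mul_rpow_of_nonneg _ _ ht0.le]
    exact ENNReal.rpow_le_one hFn ht0.le
  -- the new weight
  have hxy : x ^ (1 - t) * y ^ t = (((1 + e0) ^ t : ℝ≥0) : ℝ≥0∞) * x := by
    rw [hy, ENNReal.mul_rpow_of_nonneg _ _ ht0.le, ENNReal.coe_rpow_of_nonneg _ ht0.le,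
      mul_left_comm, ← ENNReal.rpow_add_of_nonneg _ _ (by linarith) ht0.le, sub_add_cancel,
      ENNReal.rpow_one]
  set s : ℝ≥0 := q ^ t with hs
  have hs1 : 1 < s := NNReal.one_lt_rpow hq1 ht0
  have hs0 : s ≠ 0 := (lt_trans zero_lt_one hs1).ne'
  have hz' : z ≤ x ^ (1 - t) * y ^ t := by
    rw [hxy]
    exact hz
  have hsum : ∑' j : ℕ, gs (Wz z) (Irv (c + 2) (j + 1)) * (s : ℝ≥0∞) ^ (j + 1) ≤ 1 := by
    refine le_trans (ENNReal.tsum_le_tsum fun j => ?_)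
      (le_trans (EVN.interp c x y (q : ℝ≥0∞) ht0 ht1) hFG)
    rw [hs, ENNReal.coe_rpow_of_nonneg _ ht0.le]
    gcongr
    exact gs_le _ _ subset_rfl fun p _ => pow_le_pow_left' hz' _
  have hind : ∀ l : ℕ, gs (Wz z) (Evp (c + 2) l) * (s : ℝ≥0∞) ^ l ≤ 1 := by
    intro l
    induction l using Nat.strong_induction_on with
    | _ l ih =>
      rcases Nat.eq_zero_or_pos l with rfl | hl
      · simpa using (h1 c z).1
      · calc gs (Wz z) (Evp (c + 2) l) * (s : ℝ≥0∞) ^ l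
            ≤ (∑ j ∈ Icc 1 l, gs (Wz z) (Irv (c + 2) j) * gs (Wz z) (Evp (c + 2) (l - j))) *
                (s : ℝ≥0∞) ^ l := by
              gcongr
              exact (h1 c z).2 l hl
          _ = ∑ j ∈ Icc 1 l, (gs (Wz z) (Irv (c + 2) j) * (s : ℝ≥0∞) ^ j) *
                (gs (Wz z) (Evp (c + 2) (l - j)) * (s : ℝ≥0∞) ^ (l - j)) := by
              rw [Finset.sum_mul]
              refine Finset.sum_congr rfl fun j hj => ?_
              have hj' := (Finset.mem_Icc.1 hj).2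
              have : (s : ℝ≥0∞) ^ l = (s : ℝ≥0∞) ^ j * (s : ℝ≥0∞) ^ (l - j) := by
                rw [← pow_add, Nat.add_sub_cancel' hj']
              rw [this]
              ring
          _ ≤ ∑ j ∈ Icc 1 l, (gs (Wz z) (Irv (c + 2) j) * (s : ℝ≥0∞) ^ j) * 1 := by
              refine Finset.sum_le_sum fun j hj => ?_
              have hj' := Finset.mem_Icc.1 hj
              gcongr
              exact ih (l - j) (by omega)
          _ = ∑ j ∈ range l, gs (Wz z) (Irv (c + 2) (j + 1)) * (s : ℝ≥0∞) ^ (j + 1) := by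
              simp only [mul_one]
              rw [Finset.range_eq_Ico, Finset.sum_Ico_add' (fun j => gs (Wz z) (Irv (c + 2) j) *
                (s : ℝ≥0∞) ^ j) 0 l 1]
              congr 1
          _ ≤ ∑' j : ℕ, gs (Wz z) (Irv (c + 2) (j + 1)) * (s : ℝ≥0∞) ^ (j + 1) :=
              ENNReal.sum_le_tsum _
          _ ≤ 1 := hsum
  have h5 := hind l
  have h6 : (s : ℝ≥0∞) ^ l ≠ 0 := pow_ne_zero _ (by exact_mod_cast hs0)
  have h7 : (s : ℝ≥0∞) ^ l ≠ ∞ := ENNReal.pow_ne_top ENNReal.coe_ne_top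
  rw [← ENNReal.le_div_iff_mul_le (Or.inl h6) (Or.inl h7)] at h5
  refine le_trans h5 (le_of_eq ?_)
  rw [ENNReal.coe_inv hs0, ← ENNReal.inv_pow, one_div]

/-- `(1 + b)^k ≤ 1 + a` for `b ≤ a/(2k)`, `a ≤ 1` -/
theorem bern (a b : ℝ≥0) (k : ℕ) (ha : a ≤ 1) (hb : 2 * k * b ≤ a) : (1 + b) ^ k ≤ 1 + a := by
  have ha' : (a : ℝ) ≤ 1 := by exact_mod_cast ha
  have hb' : 2 * (k : ℝ) * b ≤ a := by exact_mod_cast hb
  rw [← NNReal.coe_le_coe]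
  push_cast
  have hb0 : (0 : ℝ) ≤ b := b.2
  have ha0 : (0 : ℝ) ≤ a := a.2
  rcases Nat.eq_zero_or_pos k with rfl | hk
  · simpa using ha0
  have hk1 : (1 : ℝ) ≤ k := by exact_mod_cast hk
  have hb1 : (b : ℝ) ≤ 1 / 2 := by nlinarith
  have h1 : 1 - (k : ℝ) * b ≤ (1 - (b : ℝ)) ^ k := by
    have := one_add_mul_le_pow (a := -(b : ℝ)) (by linarith) k
    calc 1 - (k : ℝ) * b = 1 + k * (-(b : ℝ)) := by ring
      _ ≤ (1 + -(b : ℝ)) ^ k := this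
      _ = (1 - (b : ℝ)) ^ k := by ring
  have h2 : (1 + (b : ℝ)) ^ k * (1 - (b : ℝ)) ^ k ≤ 1 := by
    rw [← mul_pow]
    refine pow_le_one₀ ?_ ?_
    · have : (0 : ℝ) ≤ 1 - b := by linarith
      positivity
    · nlinarith
  have h3 : (1 + (b : ℝ)) ^ k * (1 - a / 2) ≤ 1 := by
    refine le_trans (mul_le_mul_of_nonneg_left ?_ (by positivity)) h2
    refine le_trans ?_ h1
    linarith
  have h4 : 1 ≤ (1 + (a : ℝ)) * (1 - a / 2) := by nlinarith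
  have h5 : 0 < 1 - (a : ℝ) / 2 := by linarith
  exact le_of_mul_le_mul_right (le_trans h3 h4) h5

/-- the power `(511/512)^(512 M) ≤ 2^(-M)` -/
theorem half : ((511 / 512 : ℝ≥0)) ^ 512 * 2 ≤ 1 := by
  have h : (511 / 512 : ℝ) ^ 512 * 2 ≤ 1 := by
    have h1 : (511 / 512 : ℝ) ≤ Real.exp (-(1 / 512)) := by
      have := Real.add_one_le_exp (-(1 / 512 : ℝ))
      linarith
    have h2 : (511 / 512 : ℝ) ^ 512 ≤ Real.exp (-1) := by
      calc (511 / 512 : ℝ) ^ 512 ≤ (Real.exp (-(1 / 512))) ^ 512 :=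
            pow_le_pow_left₀ (by norm_num) h1 _
        _ = Real.exp (-1) := by
            rw [← Real.exp_nat_mul]
            congr 1
            norm_num
    have h3 : Real.exp (-1) * 2 ≤ 1 := by
      have h4 := Real.add_one_le_exp (1 : ℝ)
      have h5 : Real.exp (-1) * Real.exp 1 = 1 := by rw [← Real.exp_add]; simp
      have h6 := Real.exp_pos (-1)
      nlinarith
    nlinarith
  exact_mod_cast h

theorem rpow_ge (u v : ℝ≥0) (n : ℕ) (h : v ^ (n + 2) ≤ u) :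
    v ≤ u ^ ((((n : ℝ) + 2)⁻¹ : ℝ)) := by
  have h1 : (0 : ℝ) < (n : ℝ) + 2 := by positivity
  rw [NNReal.le_rpow_inv_iff h1]
  refine le_trans (le_of_eq ?_) h
  have : ((n : ℝ) + 2) = ((n + 2 : ℕ) : ℝ) := by push_cast; ring
  rw [this, NNReal.rpow_natCast]

end XEVN

theorem t_XEVN (h : XGAP_Stmt) : XEVN_Stmt := by
  obtain ⟨B0, hB0, hgap⟩ := h
  obtain ⟨b, hb⟩ : ∃ b : ℕ, B0 ≤ 2 ^ b := by
    obtain ⟨n, hn⟩ := exists_nat_ge B0
    exact ⟨n, le_trans hn (by exact_mod_cast (Nat.lt_two_pow_self (n := n)).le)⟩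
  -- the constant
  set B2 : ℝ≥0 := 4104 * (2 * b + 1) with hB2
  have hB2' : 2 ≤ B2 := by
    rw [hB2]
    calc (2 : ℝ≥0) ≤ 4104 * (2 * 0 + 1) := by norm_num
      _ ≤ 4104 * (2 * b + 1) := by gcongr; exact zero_le
  refine ⟨B0 * B2, ?_, ?_⟩
  · calc (2 : ℝ≥0) ≤ 2 * 1 := by norm_num
      _ ≤ B0 * B2 := by gcongr; exact le_trans (by norm_num) hB2'
  intro c z hz l
  set N : ℕ := (c + 2) ^ 2 with hN
  have hN4 : 4 ≤ N := by
    have h1 : 2 ^ 2 ≤ (c + 2) ^ 2 := Nat.pow_le_pow_left (by omega) 2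
    omega
  set D : ℝ≥0 := Bl B0 c with hD
  have hD1 : 1 ≤ D := one_le_pow₀ (le_trans (by norm_num) hB0)
  have hD0 : 0 < D := lt_of_lt_of_le one_pos hD1
  set M : ℕ := (2 * b + 1) * N with hM
  have hM1 : 1 ≤ M := by rw [hM]; nlinarith
  obtain ⟨n, hn⟩ : ∃ n : ℕ, n + 1 = 512 * M := ⟨512 * M - 1, by omega⟩
  -- D is at most a power of two
  have hDM : 4 * D ^ 2 ≤ 2 ^ M := by
    have h1 : D ≤ 2 ^ (b * N) := by
      rw [hD, Bl, ← hN, pow_mul]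
      exact pow_le_pow_left' hb N
    calc 4 * D ^ 2 ≤ 2 ^ 2 * (2 ^ (b * N)) ^ 2 := by
          have : (4 : ℝ≥0) = 2 ^ 2 := by norm_num
          rw [this]
          gcongr
      _ = 2 ^ (2 + b * N * 2) := by rw [pow_add 2 2 (b * N * 2), pow_mul 2 (b * N) 2]
      _ ≤ 2 ^ M := by
          refine pow_le_pow_right₀ (by norm_num) ?_
          rw [hM]
          nlinarith
  have hnn : ((511 / 512 : ℝ≥0) : ℝ≥0∞) ^ (n + 1) * (4 * D ^ 2 : ℝ≥0) ≤ 1 := by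
    rw [hn, ← ENNReal.coe_pow, ← ENNReal.coe_mul, ← ENNReal.coe_one, ENNReal.coe_le_coe]
    calc (511 / 512 : ℝ≥0) ^ (512 * M) * (4 * D ^ 2)
        ≤ (511 / 512 : ℝ≥0) ^ (512 * M) * 2 ^ M := by gcongr
      _ = ((511 / 512 : ℝ≥0) ^ 512 * 2) ^ M := by rw [pow_mul, mul_pow]
      _ ≤ 1 := pow_le_one₀ zero_le XEVN.half
  -- the large constant
  have hbig : 2 * ((n + 2 : ℕ) : ℝ≥0) * (2 * D) ≤ Bl (B0 * B2) c := by
    have h1 : Bl (B0 * B2) c = D * B2 ^ N := by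
      rw [Bl, mul_pow, hD, Bl]
    have h2 : ((n + 2 : ℕ) : ℝ≥0) ≤ 513 * (2 * b + 1) * N := by
      have h3 : n + 2 ≤ 513 * ((2 * b + 1) * N) := by rw [← hM]; omega
      calc ((n + 2 : ℕ) : ℝ≥0) ≤ ((513 * ((2 * b + 1) * N) : ℕ) : ℝ≥0) := by exact_mod_cast h3
        _ = 513 * (2 * b + 1) * N := by push_cast; ring
    have h4 : 4 * (513 * (2 * b + 1) * N) ≤ B2 ^ N := by
      have h5 : ((N : ℕ) : ℝ≥0) ≤ 2 ^ N := by exact_mod_cast (Nat.lt_two_pow_self (n := N)).le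
      have h6 : (4 * 513 * (2 * b + 1) : ℝ≥0) ≤ (4 * 513 * (2 * b + 1)) ^ N := by
        refine le_self_pow₀ ?_ (by omega)
        calc (1 : ℝ≥0) ≤ 4 * 513 * (2 * 0 + 1) := by norm_num
          _ ≤ 4 * 513 * (2 * b + 1) := by gcongr; exact zero_le
      calc 4 * (513 * (2 * b + 1) * N) = (4 * 513 * (2 * b + 1)) * (N : ℝ≥0) := by ring
        _ ≤ (4 * 513 * (2 * b + 1)) ^ N * 2 ^ N := by gcongr
        _ = B2 ^ N := by rw [← mul_pow, hB2]; ring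
    rw [h1]
    calc 2 * ((n + 2 : ℕ) : ℝ≥0) * (2 * D) ≤ 2 * (513 * (2 * b + 1) * N) * (2 * D) := by gcongr
      _ = D * (4 * (513 * (2 * b + 1) * N)) := by ring
      _ ≤ D * B2 ^ N := by gcongr
  have hbig0 : 0 < Bl (B0 * B2) c := by
    refine lt_of_lt_of_le ?_ hbig
    positivity
  have hkey : (1 + (Bl (B0 * B2) c)⁻¹) ^ (n + 2) ≤ XEVN.qq D := by
    rw [XEVN.qq]
    refine XEVN.bern _ _ _ ?_ ?_
    · refine inv_le_one_of_one_le₀ ?_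
      calc (1 : ℝ≥0) ≤ 2 * 1 := by norm_num
        _ ≤ 2 * D := by gcongr
    · rw [← div_eq_mul_inv, div_le_iff₀ hbig0, inv_mul_eq_div, le_div_iff₀ (by positivity)]
      exact hbig
  have hv : 1 + (Bl (B0 * B2) c)⁻¹ ≤ (XEVN.qq D) ^ ((((n : ℝ) + 2)⁻¹ : ℝ)) :=
    XEVN.rpow_ge _ _ n hkey
  have hv2 : 1 + (Bl (B0 * B2) c)⁻¹ ≤ (1 + D⁻¹) ^ ((((n : ℝ) + 2)⁻¹ : ℝ)) := by
    refine XEVN.rpow_ge _ _ n (le_trans hkey ?_)
    rw [XEVN.qq]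
    gcongr
    calc D = 1 * D := by ring
      _ ≤ 2 * D := by gcongr; norm_num
  refine le_trans (XEVN.core XM.evr_thm XM.MEAN_all XM.ZST_all c D hD1 (fun l => hgap c _ le_rfl l) n hnn z
    (le_trans hz (mul_le_mul' (ENNReal.coe_le_coe.2 hv2) le_rfl)) l) ?_
  · refine pow_le_pow_left' ?_ l
    rw [ENNReal.coe_le_coe]
    gcongr

end Pool.Agent.XMX
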