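import Pool.Agent.XMX.Stmts
import Pool.Agent.XM.Nsm

/-!
# Column-convex polygons (MP_f6626d_co): cutting the loops at one good line (module XMX_GAA)
-/

set_option autoImplicit false

namespace Pool.Agent.XMX

open Finset Pool.Agent.Lib27 Pool.Agent.OC Pool.Agent.XM
open scoped NNReal ENNReal

namespace GAAM

open Classical in
/-- insert `l` into the bridge `w` at the line `h` -/
noncomputable def ip (m h : ℕ) (w l : Wd) : Wd :=
  if H : ∃ t : Wd × Wd, Sp m h w t.1 [] t.2 then H.choose.1 ++ (l ++ H.choose.2) else []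

theorem ip_eq (h1 : SPX_Stmt) {m h : ℕ} (hh : 0 < h) (hm : h < m) {w u v : Wd} (hw : w ∈ Bri m)
    (hs : Sp m h w u [] v) (l : Wd) : ip m h w l = u ++ (l ++ v) := by
  have H : ∃ t : Wd × Wd, Sp m h w t.1 [] t.2 := ⟨(u, v), hs⟩
  obtain ⟨u0, l0, v0, -, -, hu⟩ := h1 m h w hh hm hw
  have e1 := hu _ _ _ hs
  have e2 := hu _ _ _ H.choose_spec
  unfold ip
  rw [dif_pos H, e1.1, e1.2.2, e2.1, e2.2.2]

theorem ext_nil : ext ([] : Wd) = 0 := by
  unfold XM.ext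
  simp [vt]

theorem ex_zero (h1 : SPX_Stmt) {m h : ℕ} (hh : 0 < h) (hm : h < m) {w u v : Wd} (hw : w ∈ Bri m)
    (hs : Sp m h w u [] v) : ex m h w = 0 := by
  obtain ⟨u0, l0, v0, -, he, hu⟩ := h1 m h w hh hm hw
  rw [he, ← (hu _ _ _ hs).2.1, ext_nil]

theorem far {K i j e : ℕ} (hK : 1 ≤ K) (hij : i ≠ j) (he : e < K) :
    3 * K * j + e ≤ 3 * K * i ∨ 3 * K * i + e < 3 * K * j := by
  rcases lt_or_gt_of_ne hij with h | h
  · right
    have h1 : 3 * K * (i + 1) ≤ 3 * K * j := Nat.mul_le_mul_left _ h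
    rw [Nat.mul_succ] at h1
    omega
  · left
    have h1 : 3 * K * (j + 1) ≤ 3 * K * i := Nat.mul_le_mul_left _ h
    rw [Nat.mul_succ] at h1
    omega

open Classical in
theorem mem_cset {K J i : ℕ} {p : Wd × Wd} :
    i ∈ cset K J p ↔ i ∈ Finset.Icc 1 J ∧ CC p ((3 * K * i : ℕ) : ℤ) := by
  unfold cset
  rw [Finset.mem_filter]

end GAAM

open GAAM in
theorem t_GAA (h1 : SPX_Stmt) (h2 : CTX_Stmt) : GAA_Stmt := by
  intro c z m K J hK hJ g T j hg hj hjT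
  have hjJ := Finset.mem_Icc.mp (hg hj)
  have hh : 0 < 3 * K * j := by
    have : 0 < 3 * K := by omega
    exact Nat.mul_pos this (by omega)
  have hhm : 3 * K * j < m := lt_of_le_of_lt (Nat.mul_le_mul_left _ hjJ.2) hJ
  have key := gs_split3 (fun (q : Wd × Wd) (l l' : Wd) =>
      (ip m (3 * K * j) q.1 l, ip m (3 * K * j) q.2 l')) (f := Wz z) (fa := Wz z) (fb := wz z)
    (fc := wz z)
    (T := {p | p ∈ Brp (c + 2) m ∧ gset K J m p = g ∧ (∀ i ∈ T, i ∉ cset K J p) ∧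
        j ∉ cset K J p})
    (A := {p | p ∈ Brp (c + 2) m ∧ gset K J m p = g ∧ (∀ i ∈ T, i ∉ cset K J p) ∧
          j ∈ cset K J p}) (B := Lp c) (C := Lp c) ?_
  · refine key.trans (le_of_eq ?_)
    ring
  rintro ⟨A, B⟩ ⟨⟨hA, hB, hc⟩, hgs, hTn, -⟩
  simp only at hA hB hc
  have hgj : j ∈ gset K J m (A, B) := by rw [hgs]; exact hj
  have hex := (Finset.mem_filter.mp hgj).2
  simp only at hex
  obtain ⟨u, l, v, hS, he, -⟩ := h1 m (3 * K * j) A hh hhm hA
  obtain ⟨u', l', v', hS', he', -⟩ := h1 m (3 * K * j) B hh hhm hB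
  rw [he, he'] at hex
  obtain ⟨hq, hsl, hc1, hS0, hcr, hoth⟩ := h2 m (3 * K * j) A u l v hh hhm hA hS
  obtain ⟨hq', hsl', hc1', hS0', hcr', hoth'⟩ := h2 m (3 * K * j) B u' l' v' hh hhm hB hS'
  have hm : 3 * K * j + (m - 3 * K * j) = m := by omega
  obtain ⟨hAe, hu, hl0, hv, -⟩ := hS
  obtain ⟨hBe, hu', hl0', hv', -⟩ := hS'
  have hfar : ∀ i ∈ Finset.Icc 1 J, i ≠ j →
      (cr (u ++ v) ((3 * K * i : ℕ) : ℤ) = cr A ((3 * K * i : ℕ) : ℤ) ∧
        ex m (3 * K * i) (u ++ v) = ex m (3 * K * i) A) ∧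
      (cr (u' ++ v') ((3 * K * i : ℕ) : ℤ) = cr B ((3 * K * i : ℕ) : ℤ) ∧
        ex m (3 * K * i) (u' ++ v') = ex m (3 * K * i) B) := by
    intro i hi hij
    have hiJ := Finset.mem_Icc.mp hi
    have hi0 : 0 < 3 * K * i := by
      have : 0 < 3 * K := by omega
      exact Nat.mul_pos this (by omega)
    have him : 3 * K * i < m := lt_of_le_of_lt (Nat.mul_le_mul_left _ hiJ.2) hJ
    exact ⟨hoth _ hi0 him (far hK hij hex.1), hoth' _ hi0 him (far hK hij hex.2)⟩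
  refine ⟨(u ++ v, u' ++ v'), l, l', ⟨⟨hq, hq', fun k => ?_⟩, ?_, ?_, ?_⟩, ⟨hsl, hl0, ?_⟩,
    ⟨hsl', hl0', ?_⟩, ?_, ?_⟩
  · have h3 := hc k
    rw [hcr k, hcr' k] at h3
    show cr (u ++ v) k + cr (u' ++ v') k ≤ c + 2
    omega
  · rw [← hgs]
    unfold gset
    apply Finset.filter_congr
    intro i hi
    by_cases hij : i = j
    · subst hij
      show (ex m (3 * K * i) (u ++ v) < K ∧ ex m (3 * K * i) (u' ++ v') < K) ↔
        (ex m (3 * K * i) A < K ∧ ex m (3 * K * i) B < K)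
      rw [ex_zero h1 hh hhm hq hS0, ex_zero h1 hh hhm hq' hS0', he, he']
      exact ⟨fun _ => hex, fun _ => ⟨by omega, by omega⟩⟩
    · have h3 := hfar i hi hij
      show (ex m (3 * K * i) (u ++ v) < K ∧ ex m (3 * K * i) (u' ++ v') < K) ↔
        (ex m (3 * K * i) A < K ∧ ex m (3 * K * i) B < K)
      rw [h3.1.2, h3.2.2]
  · intro i hi hcon
    have hij : i ≠ j := by
      rintro rfl
      exact hjT hi
    apply hTn i hi
    rw [mem_cset] at hcon ⊢
    refine ⟨hcon.1, ?_⟩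
    have h3 := hfar i hcon.1 hij
    obtain ⟨h4, h5⟩ := hcon.2
    simp only at h4 h5
    exact ⟨by rw [← h3.1.1]; exact h4, by rw [← h3.2.1]; exact h5⟩
  · rw [mem_cset]
    exact ⟨hg hj, hc1, hc1'⟩
  · refine NSM.loop hu hl0 hv (B := B) ?_ ?_ ?_
    · rw [hm, ← hAe]
      exact hA
    · rw [hm]
      exact hB
    · intro k
      rw [← hAe]
      exact hc k
  · refine NSM.loop hu' hl0' hv' (B := A) ?_ ?_ ?_
    · rw [hm, ← hBe]
      exact hB
    · rw [hm]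
      exact hA
    · intro k
      rw [← hBe, add_comm]
      exact hc k
  · show (A, B) = (ip m (3 * K * j) (u ++ v) l, ip m (3 * K * j) (u' ++ v') l')
    rw [ip_eq h1 hh hhm hq hS0, ip_eq h1 hh hhm hq' hS0', ← hAe, ← hBe]
  · refine le_of_eq ?_
    rw [Wz_eq, Wz_eq]
    show wz z A * wz z B = wz z (u ++ v) * wz z (u' ++ v') * wz z l * wz z l'
    rw [hAe, hBe]
    simp only [wz_append]
    ring

end Pool.Agent.XMX
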