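import Pool.Agent.XMX.Stmts
import Pool.Agent.OC.Gs

/-!
# GAB: the lines of the grid without cut
-/

set_option autoImplicit false

namespace Pool.Agent.XMX

open Finset Pool.Agent.Lib27 Pool.Agent.OC Pool.Agent.XM
open scoped NNReal ENNReal

namespace MGAB

/-- the class of the pairs with good lines `g` and without cut at the lines of `T` -/
def WT (c m K J : ℕ) (g T : Finset ℕ) : Set (Wd × Wd) :=
  {p | p ∈ Brp (c + 2) m ∧ gset K J m p = g ∧ ∀ i ∈ T, i ∉ cset K J p}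

/-- one step of the induction -/
theorem step (h : GAA_Stmt) (c : ℕ) (z : ℝ≥0∞) (m K J : ℕ) (hK : 1 ≤ K) (hJ : 3 * K * J < m)
    (g T : Finset ℕ) (j : ℕ) (hg : g ⊆ Icc 1 J) (hj : j ∈ g) (hT : j ∉ T) :
    (1 + ((gs (wz z) (Lp c))⁻¹) ^ 2) * gs (Wz z) (WT c m K J g (insert j T)) ≤
      gs (Wz z) (WT c m K J g T) := by
  have h1 := h c z m K J hK hJ g T j hg hj hT
  obtain ⟨L, hL⟩ : ∃ L, L = gs (wz z) (Lp c) := ⟨_, rfl⟩
  rw [← hL] at h1 ⊢
  obtain ⟨A, hA⟩ : ∃ A : Set (Wd × Wd), A = {p | p ∈ Brp (c + 2) m ∧ gset K J m p = g ∧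
    (∀ i ∈ T, i ∉ cset K J p) ∧ j ∉ cset K J p} := ⟨_, rfl⟩
  obtain ⟨X, hX⟩ : ∃ X : Set (Wd × Wd), X = {p | p ∈ Brp (c + 2) m ∧ gset K J m p = g ∧
    (∀ i ∈ T, i ∉ cset K J p) ∧ j ∈ cset K J p} := ⟨_, rfl⟩
  have hAW : WT c m K J g (insert j T) = A := by
    rw [hA]
    ext p
    constructor
    · rintro ⟨a, b, d⟩
      exact ⟨a, b, fun i hi => d i (Finset.mem_insert_of_mem hi), d j (Finset.mem_insert_self j T)⟩
    · rintro ⟨a, b, d, e⟩
      refine ⟨a, b, fun i hi => ?_⟩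
      rcases Finset.mem_insert.1 hi with rfl | hi
      · exact e
      · exact d i hi
  rw [← hA, ← hX] at h1
  rw [hAW]
  have h2 : L⁻¹ * L ≤ 1 := ENNReal.inv_mul_le_one L
  have h3 : (L⁻¹) ^ 2 * gs (Wz z) A ≤ gs (Wz z) X := by
    calc (L⁻¹) ^ 2 * gs (Wz z) A ≤ (L⁻¹) ^ 2 * (L ^ 2 * gs (Wz z) X) := mul_le_mul_right h1 _
      _ = (L⁻¹ * L) ^ 2 * gs (Wz z) X := by ring
      _ ≤ 1 ^ 2 * gs (Wz z) X := mul_le_mul_left (pow_le_pow_left' h2 2) _
      _ = gs (Wz z) X := by rw [one_pow, one_mul]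
  have h4 : gs (Wz z) A + gs (Wz z) X ≤ gs (Wz z) (WT c m K J g T) := by
    have h5 := sum_gs_le (Wz z) (Finset.univ : Finset Bool) (fun b => if b then A else X)
      (WT c m K J g T) ?_ ?_
    · simpa using h5
    · intro b _ p hp
      cases b
      · simp only [Bool.false_eq_true, if_false] at hp
        rw [hX] at hp
        exact ⟨hp.1, hp.2.1, hp.2.2.1⟩
      · simp only [if_true] at hp
        rw [hA] at hp
        exact ⟨hp.1, hp.2.1, hp.2.2.1⟩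
    · intro b _ b' _ p hp hp'
      cases b <;> cases b'
      · rfl
      · simp only [Bool.false_eq_true, if_false] at hp
        simp only [if_true] at hp'
        rw [hX] at hp
        rw [hA] at hp'
        exact absurd hp.2.2.2 hp'.2.2.2
      · simp only [if_true] at hp
        simp only [Bool.false_eq_true, if_false] at hp'
        rw [hA] at hp
        rw [hX] at hp'
        exact absurd hp'.2.2.2 hp.2.2.2
      · rfl
  calc (1 + (L⁻¹) ^ 2) * gs (Wz z) A = gs (Wz z) A + (L⁻¹) ^ 2 * gs (Wz z) A := by ring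
    _ ≤ gs (Wz z) A + gs (Wz z) X := add_le_add le_rfl h3
    _ ≤ _ := h4

/-- the induction -/
theorem ind (h : GAA_Stmt) (c : ℕ) (z : ℝ≥0∞) (m K J : ℕ) (hK : 1 ≤ K) (hJ : 3 * K * J < m)
    (g : Finset ℕ) (hg : g ⊆ Icc 1 J) (T : Finset ℕ) (hT : T ⊆ g) :
    (1 + ((gs (wz z) (Lp c))⁻¹) ^ 2) ^ T.card * gs (Wz z) (WT c m K J g T) ≤
      gs (Wz z) (WT c m K J g ∅) := by
  induction T using Finset.induction_on with
  | empty => rw [Finset.card_empty, pow_zero, one_mul]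
  | insert j T hj ih =>
    have h1 := step h c z m K J hK hJ g T j hg (hT (Finset.mem_insert_self j T)) hj
    have h2 := ih fun i hi => hT (Finset.mem_insert_of_mem hi)
    rw [Finset.card_insert_of_notMem hj, pow_succ, mul_assoc]
    exact le_trans (mul_le_mul_right h1 _) h2

end MGAB

open MGAB in
theorem t_GAB (h : GAA_Stmt) : GAB_Stmt := by
  intro c z m K J hK hJ _
  obtain ⟨κ, hκ⟩ : ∃ κ, κ = 1 + ((gs (wz z) (Lp c))⁻¹) ^ 2 := ⟨_, rfl⟩
  rw [← hκ]
  have hκ1 : 1 ≤ κ := by rw [hκ]; exact le_self_add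
  obtain ⟨G, hG⟩ : ∃ G : Finset (Finset ℕ), G = (Icc 1 J).powerset.filter
    (fun g => J ≤ 2 * g.card) := ⟨_, rfl⟩
  have h1 : gs (Wz z) {p | p ∈ Brp (c + 2) m ∧ J ≤ 2 * (gset K J m p).card ∧ cset K J p = ∅} ≤
      ∑ g ∈ G, gs (Wz z) (WT c m K J g g) := by
    refine gs_le_sum _ _ _ _ ?_
    rintro p ⟨a, b, d⟩
    refine ⟨gset K J m p, ?_, a, rfl, fun i _ => ?_⟩
    · rw [hG, Finset.mem_filter, Finset.mem_powerset]
      exact ⟨Finset.filter_subset _ _, b⟩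
    · rw [d]
      exact Finset.notMem_empty i
  have h2 : ∑ g ∈ G, gs (Wz z) (WT c m K J g ∅) ≤ Y (c + 2) z m := by
    refine sum_gs_le _ _ _ _ ?_ ?_
    · intro g _ p hp
      exact hp.1
    · intro g _ g' _ p hp hp'
      exact hp.2.1.symm.trans hp'.2.1
  calc κ ^ (J / 2) *
        gs (Wz z) {p | p ∈ Brp (c + 2) m ∧ J ≤ 2 * (gset K J m p).card ∧ cset K J p = ∅}
      ≤ κ ^ (J / 2) * ∑ g ∈ G, gs (Wz z) (WT c m K J g g) := mul_le_mul_right h1 _
    _ = ∑ g ∈ G, κ ^ (J / 2) * gs (Wz z) (WT c m K J g g) := Finset.mul_sum _ _ _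
    _ ≤ ∑ g ∈ G, gs (Wz z) (WT c m K J g ∅) := by
        refine Finset.sum_le_sum fun g hg => ?_
        rw [hG, Finset.mem_filter, Finset.mem_powerset] at hg
        have h3 := ind h c z m K J hK hJ g hg.1 g (Finset.Subset.refl g)
        rw [← hκ] at h3
        refine le_trans (mul_le_mul_left (pow_le_pow_right₀ hκ1 ?_) _) h3
        omega
    _ ≤ _ := h2

end Pool.Agent.XMX
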