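import Pool.Agent.XMX.Stmts
import Pool.Agent.XM.Zst
import Pool.Agent.XM.Lib

/-!
# Column-convex polygons (MP_f6626d_co), explicit window: the mass gap
-/

set_option autoImplicit false

namespace Pool.Agent.XMX

open Finset Pool.Agent.Lib27 Pool.Agent.OC Pool.Agent.XM
open scoped NNReal ENNReal

namespace GAPX

theorem pow_le_one_add {y : ℝ≥0} (hy : y ≤ 1) {n : ℕ} (hn : 1 ≤ n) :
    (1 + y / (2 * n)) ^ n ≤ 1 + y := by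
  rw [← NNReal.coe_le_coe]
  push_cast
  have hy0 : (0 : ℝ) ≤ y := y.2
  have hy1 : (y : ℝ) ≤ 1 := by exact_mod_cast hy
  have hn' : (1 : ℝ) ≤ n := by exact_mod_cast hn
  have h1 : (1 + (y : ℝ) / (2 * n)) ^ n ≤ Real.exp (y / 2) := by
    calc (1 + (y : ℝ) / (2 * n)) ^ n ≤ (Real.exp (y / (2 * n))) ^ n := by
          refine pow_le_pow_left₀ (by positivity) ?_ n
          rw [add_comm]
          exact Real.add_one_le_exp _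
      _ = Real.exp (y / 2) := by
          rw [← Real.exp_nat_mul]
          congr 1
          field_simp
  have h3 := Real.add_one_le_exp (-((y : ℝ) / 2))
  have h5 := Real.exp_pos ((y : ℝ) / 2)
  have h4 : (1 - (y : ℝ) / 2) * Real.exp (y / 2) ≤ 1 := by
    calc (1 - (y : ℝ) / 2) * Real.exp (y / 2) ≤ Real.exp (-(y / 2)) * Real.exp (y / 2) := by
          refine mul_le_mul_of_nonneg_right ?_ h5.le
          linarith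
      _ = 1 := by
          rw [← Real.exp_add]
          simp
  have h6 : (1 : ℝ) ≤ (1 + y) * (1 - y / 2) := by nlinarith
  have h2 : Real.exp ((y : ℝ) / 2) ≤ 1 + y := by
    calc Real.exp ((y : ℝ) / 2) = 1 * Real.exp ((y : ℝ) / 2) := (one_mul _).symm
      _ ≤ ((1 + y) * (1 - y / 2)) * Real.exp ((y : ℝ) / 2) := by
          refine mul_le_mul_of_nonneg_right h6 h5.le
      _ = (1 + y) * ((1 - y / 2) * Real.exp ((y : ℝ) / 2)) := by ring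
      _ ≤ (1 + y) * 1 := mul_le_mul_of_nonneg_left h4 (by linarith)
      _ = 1 + y := mul_one _
  exact h1.trans h2

/-- pairs with many bad lines of the first word -/
def SL (c m K J : ℕ) : Set (Wd × Wd) :=
  {p | p ∈ Brp (c + 2) m ∧ J ≤ 4 * (bset K J m p.1 0).card}

/-- pairs with many bad lines of the second word -/
def SR (c m K J : ℕ) : Set (Wd × Wd) :=
  {p | p ∈ Brp (c + 2) m ∧ J ≤ 4 * (bset K J m p.2 0).card}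

theorem swap_le (c : ℕ) (z : ℝ≥0∞) (m K J : ℕ) :
    gs (Wz z) (SR c m K J) ≤ gs (Wz z) (SL c m K J) := by
  refine gs_le_of_inj _ _ Prod.swap ?_ Prod.swap_injective.injOn ?_
  · rintro ⟨A, B⟩ ⟨⟨h1, h2, h3⟩, h4⟩
    refine ⟨⟨h2, h1, fun h => ?_⟩, h4⟩
    have := h3 h
    simp only [Prod.swap] at *
    omega
  · rintro ⟨A, B⟩ _
    rw [Wz_eq, Wz_eq]
    simp only [Prod.swap]
    rw [mul_comm]

/-- the cover of the irreducible pairs -/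
theorem cover (c m K J : ℕ) (hK : 1 ≤ K) (hJ : 3 * K * J < m) :
    Irr (c + 2) m ⊆ {p | p ∈ Brp (c + 2) m ∧ J ≤ 2 * (gset K J m p).card ∧ cset K J p = ∅} ∪
      (SL c m K J ∪ SR c m K J) := by
  rintro p ⟨hp, hc⟩
  by_cases h1 : J ≤ 4 * (bset K J m p.1 0).card
  · exact Or.inr (Or.inl ⟨hp, h1⟩)
  by_cases h2 : J ≤ 4 * (bset K J m p.2 0).card
  · exact Or.inr (Or.inr ⟨hp, h2⟩)
  refine Or.inl ⟨hp, ?_, ?_⟩
  · have hsub : Icc 1 J ⊆ gset K J m p ∪ (bset K J m p.1 0 ∪ bset K J m p.2 0) := by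
      intro j hj
      rw [Finset.mem_Icc] at hj
      simp only [gset, bset, Finset.mem_union, Finset.mem_filter, Finset.mem_Icc,
        Finset.mem_Ioc]
      by_cases h3 : ex m (3 * K * j) p.1 < K
      · by_cases h4 : ex m (3 * K * j) p.2 < K
        · exact Or.inl ⟨hj, h3, h4⟩
        · exact Or.inr (Or.inr ⟨⟨by omega, hj.2⟩, not_lt.1 h4⟩)
      · exact Or.inr (Or.inl ⟨⟨by omega, hj.2⟩, not_lt.1 h3⟩)
    have h3 := Finset.card_le_card hsub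
    have h4 := Finset.card_union_le (gset K J m p) (bset K J m p.1 0 ∪ bset K J m p.2 0)
    have h5 := Finset.card_union_le (bset K J m p.1 0) (bset K J m p.2 0)
    rw [Nat.card_Icc] at h3
    omega
  · rw [Finset.eq_empty_iff_forall_notMem]
    intro j hj
    simp only [cset, Finset.mem_filter, Finset.mem_Icc] at hj
    obtain ⟨⟨h3, h4⟩, h5⟩ := hj
    have h6 : 0 < 3 * K * j := by positivity
    have h7 : 3 * K * j < m := lt_of_le_of_lt (Nat.mul_le_mul_left _ h4) hJ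
    exact hc _ (by exact_mod_cast h6) (by exact_mod_cast h7) h5

/-- (a) the loops of large extension -/
theorem small (c : ℕ) (z : ℝ≥0∞) (K : ℕ) (x D σ : ℝ≥0) (hσ : 1 ≤ σ) (h32 : σ ^ 32 ≤ 1 + x)
    (hD : D ≤ σ ^ (16 * K))
    (hL : gs (fun l => wz z l * ((1 + x : ℝ≥0) : ℝ≥0∞) ^ ext l) (Lp c) ≤ D) :
    gs (fun l => wz z l * ((σ : ℝ≥0∞) ^ 4) ^ (4 * ext l)) {l | l ∈ Lp c ∧ K ≤ ext l} ≤ 1 := by
  have hs1 : (1 : ℝ≥0∞) ≤ σ := by exact_mod_cast hσ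
  have hs0 : (σ : ℝ≥0∞) ^ (16 * K) ≠ 0 := by
    refine pow_ne_zero _ ?_
    exact (lt_of_lt_of_le one_pos hs1).ne'
  have hst : (σ : ℝ≥0∞) ^ (16 * K) ≠ ∞ := ENNReal.pow_ne_top ENNReal.coe_ne_top
  have h32' : (σ : ℝ≥0∞) ^ 32 ≤ ((1 + x : ℝ≥0) : ℝ≥0∞) := by exact_mod_cast h32
  have hD' : (D : ℝ≥0∞) ≤ (σ : ℝ≥0∞) ^ (16 * K) := by exact_mod_cast hD
  have h1 : gs (fun l => (σ : ℝ≥0∞) ^ (16 * K) * (wz z l * ((σ : ℝ≥0∞) ^ 4) ^ (4 * ext l)))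
      {l | l ∈ Lp c ∧ K ≤ ext l} ≤
      gs (fun l => wz z l * ((1 + x : ℝ≥0) : ℝ≥0∞) ^ ext l) (Lp c) := by
    refine gs_le _ _ (fun l hl => hl.1) ?_
    intro l hl
    have hKl : K ≤ ext l := hl.2
    calc (σ : ℝ≥0∞) ^ (16 * K) * (wz z l * ((σ : ℝ≥0∞) ^ 4) ^ (4 * ext l))
        = wz z l * ((σ : ℝ≥0∞) ^ (16 * K) * ((σ : ℝ≥0∞) ^ 4) ^ (4 * ext l)) := by ring
      _ ≤ wz z l * (((σ : ℝ≥0∞) ^ 32) ^ ext l) := by
          refine mul_le_mul' le_rfl ?_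
          rw [← pow_mul, ← pow_add, ← pow_mul]
          refine pow_le_pow_right₀ hs1 ?_
          omega
      _ ≤ wz z l * ((1 + x : ℝ≥0) : ℝ≥0∞) ^ ext l :=
          mul_le_mul' le_rfl (pow_le_pow_left' h32' _)
  rw [gs_mul_left] at h1
  have h2 := h1.trans (hL.trans hD')
  have h3 : (σ : ℝ≥0∞) ^ (16 * K) *
      gs (fun l => wz z l * ((σ : ℝ≥0∞) ^ 4) ^ (4 * ext l)) {l | l ∈ Lp c ∧ K ≤ ext l} ≤
      (σ : ℝ≥0∞) ^ (16 * K) * 1 := by rw [mul_one]; exact h2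
  exact (ENNReal.mul_le_mul_iff_right hs0 hst).1 h3

/-- (b) many bad lines -/
theorem many (hG : GBA_Stmt) (c : ℕ) (z : ℝ≥0∞) (m K J : ℕ) (hK : 1 ≤ K) (hJ : 3 * K * J < m)
    (σ : ℝ≥0) (hσ : 1 ≤ σ) (h8 : 8 ≤ σ ^ (3 * K))
    (hE : gs (fun l => wz z l * ((σ : ℝ≥0∞) ^ 4) ^ (4 * ext l)) {l | l ∈ Lp c ∧ K ≤ ext l} ≤ 1) :
    4 ^ J * gs (Wz z) (SL c m K J) ≤ Y (c + 2) z m := by
  have hs1 : (1 : ℝ≥0∞) ≤ σ := by exact_mod_cast hσ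
  have h8' : (8 : ℝ≥0∞) ≤ (σ : ℝ≥0∞) ^ (3 * K) := by exact_mod_cast h8
  have h1 := hG c z ((σ : ℝ≥0∞) ^ 4) m K J hK hJ (one_le_pow₀ hs1)
    (ENNReal.pow_ne_top ENNReal.coe_ne_top) 0 (Nat.zero_le _)
  have h2 : (1 + gs (fun l => wz z l * ((σ : ℝ≥0∞) ^ 4) ^ (4 * ext l))
      {l | l ∈ Lp c ∧ K ≤ ext l}) ^ (J - 0) ≤ 2 ^ J := by
    rw [Nat.sub_zero]
    refine pow_le_pow_left' ?_ J
    calc 1 + gs (fun l => wz z l * ((σ : ℝ≥0∞) ^ 4) ^ (4 * ext l)) {l | l ∈ Lp c ∧ K ≤ ext l}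
        ≤ 1 + 1 := add_le_add le_rfl hE
      _ = 2 := one_add_one_eq_two
  have h3 : gs (fun p => 8 ^ J * Wz z p) (SL c m K J) ≤
      gs (fun p => Wz z p * ((σ : ℝ≥0∞) ^ 4) ^ (3 * K * (bset K J m p.1 0).card))
        (Brp (c + 2) m) := by
    refine gs_le _ _ (fun p hp => hp.1) ?_
    intro p hp
    have h4 : J ≤ 4 * (bset K J m p.1 0).card := hp.2
    rw [mul_comm]
    refine mul_le_mul' le_rfl ?_
    calc (8 : ℝ≥0∞) ^ J ≤ ((σ : ℝ≥0∞) ^ (3 * K)) ^ J := pow_le_pow_left' h8' J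
      _ ≤ ((σ : ℝ≥0∞) ^ (3 * K)) ^ (4 * (bset K J m p.1 0).card) :=
          pow_le_pow_right₀ (one_le_pow₀ hs1) h4
      _ = ((σ : ℝ≥0∞) ^ 4) ^ (3 * K * (bset K J m p.1 0).card) := by
          rw [← pow_mul, ← pow_mul]
          congr 1
          ring
  rw [gs_mul_left] at h3
  have h5 : (2 : ℝ≥0∞) ^ J * (4 ^ J * gs (Wz z) (SL c m K J)) ≤ 2 ^ J * Y (c + 2) z m := by
    calc (2 : ℝ≥0∞) ^ J * (4 ^ J * gs (Wz z) (SL c m K J))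
        = 8 ^ J * gs (Wz z) (SL c m K J) := by
          rw [← mul_assoc, ← mul_pow]
          norm_num
      _ ≤ _ := h3
      _ ≤ _ := h1
      _ ≤ _ := mul_le_mul' h2 le_rfl
  exact (ENNReal.mul_le_mul_iff_right (pow_ne_zero _ two_ne_zero)
    (ENNReal.pow_ne_top (by simp))).1 h5

/-- (c) -/
theorem irr (hA : GAB_Stmt) (hG : GBA_Stmt) (c : ℕ) (z : ℝ≥0∞) (m K J : ℕ) (hK : 1 ≤ K)
    (hJ : 3 * K * J < m) (x D σ y : ℝ≥0) (hσ : 1 ≤ σ) (h32 : σ ^ 32 ≤ 1 + x)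
    (hD1 : 1 ≤ D) (hD : D ≤ σ ^ (16 * K)) (h8 : 8 ≤ σ ^ (3 * K)) (hy : y = (D⁻¹) ^ 2)
    (hL : gs (fun l => wz z l * ((1 + x : ℝ≥0) : ℝ≥0∞) ^ ext l) (Lp c) ≤ D) :
    ((1 + y : ℝ≥0) : ℝ≥0∞) ^ (J / 2) * ww (c + 2) z m ≤ 3 * Y (c + 2) z m := by
  have hE := small c z K x D σ hσ h32 hD hL
  have hM := many hG c z m K J hK hJ σ hσ h8 hE
  have hM' : 4 ^ J * gs (Wz z) (SR c m K J) ≤ Y (c + 2) z m :=
    (mul_le_mul' le_rfl (swap_le c z m K J)).trans hM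
  have hΛ : gs (wz z) (Lp c) ≤ D := by
    refine le_trans (gs_le _ _ subset_rfl ?_) hL
    intro l _
    refine le_mul_of_one_le_right bot_le (one_le_pow₀ ?_)
    have : (1 : ℝ≥0) ≤ 1 + x := le_self_add
    exact_mod_cast this
  have hΛt : gs (wz z) (Lp c) ≠ ⊤ := (hΛ.trans_lt ENNReal.coe_lt_top).ne
  have hN := hA c z m K J hK hJ hΛt
  have hD0 : D ≠ 0 := (lt_of_lt_of_le one_pos hD1).ne'
  have hκ : ((1 + y : ℝ≥0) : ℝ≥0∞) ≤ 1 + ((gs (wz z) (Lp c))⁻¹) ^ 2 := by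
    rw [hy]
    push_cast
    rw [ENNReal.coe_inv hD0]
    exact add_le_add le_rfl (pow_le_pow_left' (ENNReal.inv_le_inv.2 hΛ) 2)
  have hy1 : y ≤ 1 := by
    rw [hy]
    exact pow_le_one₀ bot_le (inv_le_one_of_one_le₀ hD1)
  have hκ4 : ((1 + y : ℝ≥0) : ℝ≥0∞) ^ (J / 2) ≤ 4 ^ J := by
    have h1 : ((1 + y : ℝ≥0) : ℝ≥0∞) ≤ 4 := by
      have h2 : (1 + y : ℝ≥0) ≤ 4 := by
        calc (1 + y : ℝ≥0) ≤ 1 + 1 := add_le_add le_rfl hy1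
          _ ≤ 4 := by norm_num
      exact_mod_cast h2
    calc ((1 + y : ℝ≥0) : ℝ≥0∞) ^ (J / 2) ≤ 4 ^ (J / 2) := pow_le_pow_left' h1 _
      _ ≤ 4 ^ J := pow_le_pow_right₀ (by norm_num) (Nat.div_le_self _ _)
  have hN' : ((1 + y : ℝ≥0) : ℝ≥0∞) ^ (J / 2) *
      gs (Wz z) {p | p ∈ Brp (c + 2) m ∧ J ≤ 2 * (gset K J m p).card ∧ cset K J p = ∅} ≤
        Y (c + 2) z m :=
    (mul_le_mul' (pow_le_pow_left' hκ _) le_rfl).trans hN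
  have hc : ww (c + 2) z m ≤
      gs (Wz z) {p | p ∈ Brp (c + 2) m ∧ J ≤ 2 * (gset K J m p).card ∧ cset K J p = ∅} +
        (gs (Wz z) (SL c m K J) + gs (Wz z) (SR c m K J)) := by
    refine (gs_mono _ (cover c m K J hK hJ)).trans ((gs_union _ _ _).trans ?_)
    exact add_le_add le_rfl (gs_union _ _ _)
  calc ((1 + y : ℝ≥0) : ℝ≥0∞) ^ (J / 2) * ww (c + 2) z m
      ≤ ((1 + y : ℝ≥0) : ℝ≥0∞) ^ (J / 2) *
        (gs (Wz z) {p | p ∈ Brp (c + 2) m ∧ J ≤ 2 * (gset K J m p).card ∧ cset K J p = ∅} +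
        (gs (Wz z) (SL c m K J) + gs (Wz z) (SR c m K J))) := mul_le_mul' le_rfl hc
    _ = ((1 + y : ℝ≥0) : ℝ≥0∞) ^ (J / 2) *
        gs (Wz z) {p | p ∈ Brp (c + 2) m ∧ J ≤ 2 * (gset K J m p).card ∧ cset K J p = ∅} +
        (((1 + y : ℝ≥0) : ℝ≥0∞) ^ (J / 2) * gs (Wz z) (SL c m K J) +
          ((1 + y : ℝ≥0) : ℝ≥0∞) ^ (J / 2) * gs (Wz z) (SR c m K J)) := by
        rw [mul_add, mul_add]
    _ ≤ Y (c + 2) z m + (4 ^ J * gs (Wz z) (SL c m K J) + 4 ^ J * gs (Wz z) (SR c m K J)) :=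
        add_le_add hN' (add_le_add (mul_le_mul' hκ4 le_rfl) (mul_le_mul' hκ4 le_rfl))
    _ ≤ Y (c + 2) z m + (Y (c + 2) z m + Y (c + 2) z m) :=
        add_le_add le_rfl (add_le_add hM hM')
    _ = 3 * Y (c + 2) z m := by ring

/-- (d) -/
theorem fin (hA : GAB_Stmt) (hG : GBA_Stmt) (c : ℕ) (z : ℝ≥0∞) (m K : ℕ) (hK : 1 ≤ K)
    (x D σ y a : ℝ≥0) (hσ : 1 ≤ σ) (h32 : σ ^ 32 ≤ 1 + x)
    (hD1 : 1 ≤ D) (hD : D ≤ σ ^ (16 * K)) (h8 : 8 ≤ σ ^ (3 * K)) (hy : y = (D⁻¹) ^ 2)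
    (ha1 : a ≤ 1) (ha : (1 + a) ^ (12 * K) ≤ 1 + y)
    (hL : gs (fun l => wz z l * ((1 + x : ℝ≥0) : ℝ≥0∞) ^ ext l) (Lp c) ≤ D)
    (hY : Y (c + 2) z m ≤ ((1 + a : ℝ≥0) : ℝ≥0∞) ^ (m + 1)) :
    ww (c + 2) z m ≤ 12 * (((1 + a)⁻¹ : ℝ≥0) : ℝ≥0∞) ^ m := by
  have ha1' : ((1 + a : ℝ≥0) : ℝ≥0∞) ≤ 2 := by
    have h2 : (1 + a : ℝ≥0) ≤ 2 := by
      calc (1 + a : ℝ≥0) ≤ 1 + 1 := add_le_add le_rfl ha1
        _ = 2 := by norm_num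
    exact_mod_cast h2
  have hge : (1 : ℝ≥0∞) ≤ ((1 + a : ℝ≥0) : ℝ≥0∞) := by
    have : (1 : ℝ≥0) ≤ 1 + a := le_self_add
    exact_mod_cast this
  have hne : (1 + a : ℝ≥0) ≠ 0 := (lt_of_lt_of_le one_pos le_self_add).ne'
  have hne' : ((1 + a : ℝ≥0) : ℝ≥0∞) ^ m ≠ 0 :=
    pow_ne_zero _ (lt_of_lt_of_le one_pos hge).ne'
  have hnt : ((1 + a : ℝ≥0) : ℝ≥0∞) ^ m ≠ ∞ := ENNReal.pow_ne_top ENNReal.coe_ne_top
  have hmul : ((1 + a : ℝ≥0) : ℝ≥0∞) ^ m * (((1 + a)⁻¹ : ℝ≥0) : ℝ≥0∞) ^ m = 1 := by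
    rw [← mul_pow, ← ENNReal.coe_mul, mul_inv_cancel₀ hne, ENNReal.coe_one, one_pow]
  have key : ((1 + a : ℝ≥0) : ℝ≥0∞) ^ m * ww (c + 2) z m ≤ 12 := by
    rcases Nat.eq_zero_or_pos m with rfl | hm
    · rw [pow_zero, one_mul]
      calc ww (c + 2) z 0 ≤ Y (c + 2) z 0 := gs_mono _ fun p hp => hp.1
        _ = 1 := Y_zero _ _
        _ ≤ 12 := by norm_num
    · have hJ : 3 * K * ((m - 1) / (3 * K)) < m := by
        have := Nat.mul_div_le (m - 1) (3 * K)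
        omega
      have h1 := irr hA hG c z m K ((m - 1) / (3 * K)) hK hJ x D σ y hσ h32 hD1 hD h8 hy hL
      obtain ⟨J, hJe⟩ : ∃ J, J = (m - 1) / (3 * K) := ⟨_, rfl⟩
      have hmJ : m ≤ 3 * K * (J + 1) := by
        have h3 := Nat.div_add_mod (m - 1) (3 * K)
        have h4 := Nat.mod_lt (m - 1) (show 0 < 3 * K by omega)
        rw [← hJe] at h3
        have h5 : 3 * K * (J + 1) = 3 * K * J + 3 * K := by ring
        omega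
      rw [← hJe] at h1
      obtain ⟨I, hI⟩ : ∃ I, I = J / 2 := ⟨_, rfl⟩
      rw [← hI] at h1
      have hm6 : m ≤ 6 * K * (I + 1) := by
        refine hmJ.trans ?_
        have h3 : J + 1 ≤ 2 * (I + 1) := by omega
        calc 3 * K * (J + 1) ≤ 3 * K * (2 * (I + 1)) := Nat.mul_le_mul_left _ h3
          _ = 6 * K * (I + 1) := by ring
      have hκ : ((1 + a : ℝ≥0) : ℝ≥0∞) ^ (12 * K) ≤ ((1 + y : ℝ≥0) : ℝ≥0∞) := by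
        exact_mod_cast ha
      have hy2 : ((1 + y : ℝ≥0) : ℝ≥0∞) ≤ 2 := by
        have hy1 : y ≤ 1 := by
          rw [hy]
          exact pow_le_one₀ bot_le (inv_le_one_of_one_le₀ hD1)
        have h2 : (1 + y : ℝ≥0) ≤ 2 := by
          calc (1 + y : ℝ≥0) ≤ 1 + 1 := add_le_add le_rfl hy1
            _ = 2 := by norm_num
        exact_mod_cast h2
      have h2 : ((1 + a : ℝ≥0) : ℝ≥0∞) ^ (2 * m) ≤ 2 * ((1 + y : ℝ≥0) : ℝ≥0∞) ^ I := by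
        calc ((1 + a : ℝ≥0) : ℝ≥0∞) ^ (2 * m)
            ≤ ((1 + a : ℝ≥0) : ℝ≥0∞) ^ (12 * K * (I + 1)) := by
              refine pow_le_pow_right₀ hge ?_
              calc 2 * m ≤ 2 * (6 * K * (I + 1)) := Nat.mul_le_mul_left _ hm6
                _ = 12 * K * (I + 1) := by ring
          _ = (((1 + a : ℝ≥0) : ℝ≥0∞) ^ (12 * K)) ^ (I + 1) := pow_mul _ _ _
          _ ≤ ((1 + y : ℝ≥0) : ℝ≥0∞) ^ (I + 1) := pow_le_pow_left' hκ _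
          _ = ((1 + y : ℝ≥0) : ℝ≥0∞) * ((1 + y : ℝ≥0) : ℝ≥0∞) ^ I := pow_succ' _ _
          _ ≤ _ := mul_le_mul' hy2 le_rfl
      have h3 : ((1 + a : ℝ≥0) : ℝ≥0∞) ^ m * (((1 + a : ℝ≥0) : ℝ≥0∞) ^ m * ww (c + 2) z m) ≤
          ((1 + a : ℝ≥0) : ℝ≥0∞) ^ m * 12 := by
        calc ((1 + a : ℝ≥0) : ℝ≥0∞) ^ m * (((1 + a : ℝ≥0) : ℝ≥0∞) ^ m * ww (c + 2) z m)
            = ((1 + a : ℝ≥0) : ℝ≥0∞) ^ (2 * m) * ww (c + 2) z m := by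
              rw [← mul_assoc, ← pow_add, two_mul]
          _ ≤ 2 * ((1 + y : ℝ≥0) : ℝ≥0∞) ^ I * ww (c + 2) z m := mul_le_mul' h2 le_rfl
          _ = 2 * (((1 + y : ℝ≥0) : ℝ≥0∞) ^ I * ww (c + 2) z m) := mul_assoc _ _ _
          _ ≤ 2 * (3 * Y (c + 2) z m) := mul_le_mul' le_rfl h1
          _ ≤ 2 * (3 * ((1 + a : ℝ≥0) : ℝ≥0∞) ^ (m + 1)) :=
              mul_le_mul' le_rfl (mul_le_mul' le_rfl hY)
          _ = ((1 + a : ℝ≥0) : ℝ≥0∞) ^ m * (6 * ((1 + a : ℝ≥0) : ℝ≥0∞)) := by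
              rw [pow_succ]
              ring
          _ ≤ ((1 + a : ℝ≥0) : ℝ≥0∞) ^ m * (6 * 2) :=
              mul_le_mul' le_rfl (mul_le_mul' le_rfl ha1')
          _ = ((1 + a : ℝ≥0) : ℝ≥0∞) ^ m * 12 := by norm_num
      exact (ENNReal.mul_le_mul_iff_right hne' hnt).1 h3
  calc ww (c + 2) z m
      = ww (c + 2) z m * (((1 + a : ℝ≥0) : ℝ≥0∞) ^ m * (((1 + a)⁻¹ : ℝ≥0) : ℝ≥0∞) ^ m) := by
        rw [hmul, mul_one]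
    _ = ((1 + a : ℝ≥0) : ℝ≥0∞) ^ m * ww (c + 2) z m * (((1 + a)⁻¹ : ℝ≥0) : ℝ≥0∞) ^ m := by ring
    _ ≤ 12 * (((1 + a)⁻¹ : ℝ≥0) : ℝ≥0∞) ^ m := mul_le_mul' key le_rfl

theorem bern (u : ℝ≥0) (N : ℕ) : 1 + N * u ≤ (1 + u) ^ N := by
  induction N with
  | zero => simp
  | succ N ih =>
    calc (1 : ℝ≥0) + ((N + 1 : ℕ) : ℝ≥0) * u ≤ (1 + N * u) * (1 + u) := by
          have e : (1 + (N : ℝ≥0) * u) * (1 + u) = 1 + ((N + 1 : ℕ) : ℝ≥0) * u + N * u * u := by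
            push_cast
            ring
          rw [e]
          exact le_self_add
      _ ≤ (1 + u) ^ N * (1 + u) := mul_le_mul' ih le_rfl
      _ = (1 + u) ^ (N + 1) := (pow_succ _ _).symm

/-- the constants -/
theorem consts (B0 B2 : ℝ≥0) (h0 : 2 ≤ B0) (h2 : 2 ≤ B2) : ∃ B : ℝ≥0, 2 ≤ B ∧ ∀ c : ℕ,
    ∃ (K : ℕ) (σ a : ℝ≥0), 1 ≤ K ∧ 1 ≤ σ ∧ σ ^ 32 ≤ 1 + (Ba B0 c)⁻¹ ∧
      Bl B0 c ≤ σ ^ (16 * K) ∧ 8 ≤ σ ^ (3 * K) ∧ a ≤ 1 ∧ 0 < a ∧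
      (1 + a) ^ (12 * K) ≤ 1 + ((Bl B0 c)⁻¹) ^ 2 ∧ (Bl B c)⁻¹ ≤ (Ba B0 c)⁻¹ ∧
      (Bl B c)⁻¹ ≤ a / (B2 * (c + 2)) ∧ 12 ≤ Bl B c := by
  obtain ⟨b0, hb0⟩ := pow_unbounded_of_one_lt B0 (show (1 : ℝ≥0) < 2 by norm_num)
  obtain ⟨b, hb⟩ : ∃ b, b = b0 + 1 := ⟨_, rfl⟩
  have hb1 : 1 ≤ b := by omega
  have hbB : B0 ≤ 2 ^ b := by
    refine hb0.le.trans ?_
    exact pow_le_pow_right₀ (by norm_num) (by omega)
  have hB01 : (1 : ℝ≥0) ≤ B0 := le_trans (by norm_num) h0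
  have hB21 : (1 : ℝ≥0) ≤ B2 := le_trans (by norm_num) h2
  have hbR : (1 : ℝ≥0) ≤ b := by exact_mod_cast hb1
  have hBbig : (6240 : ℝ≥0) ≤ 6240 * b * B2 * B0 ^ 3 := by
    calc (6240 : ℝ≥0) = 6240 * 1 * 1 * 1 := by norm_num
      _ ≤ 6240 * b * B2 * B0 ^ 3 :=
        mul_le_mul' (mul_le_mul' (mul_le_mul' le_rfl hbR) hB21) (one_le_pow₀ hB01)
  obtain ⟨B, hB⟩ : ∃ B : ℝ≥0, B = 6240 * b * B2 * B0 ^ 3 := ⟨_, rfl⟩
  rw [← hB] at hBbig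
  refine ⟨B, le_trans (by norm_num) hBbig, fun c => ?_⟩
  have hB1 : (1 : ℝ≥0) ≤ B := le_trans (by norm_num) hBbig
  obtain ⟨n, hn⟩ : ∃ n, n = (c + 2) ^ 2 := ⟨_, rfl⟩
  have hn2 : c + 2 ≤ n := by rw [hn, pow_two]; exact Nat.le_mul_of_pos_right _ (by omega)
  have hn1 : 1 ≤ n := by omega
  have hn0 : n ≠ 0 := by omega
  have hBl : ∀ X : ℝ≥0, Bl X c = X ^ n := fun X => by unfold Bl; rw [hn]
  have hxpos : 0 < Ba B0 c := by unfold Ba; exact pow_pos (lt_of_lt_of_le one_pos hB01) _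
  have hx1 : (Ba B0 c)⁻¹ ≤ 1 := by
    refine inv_le_one_of_one_le₀ ?_
    unfold Ba
    exact one_le_pow₀ hB01
  have hBan : Ba B0 c ≤ B0 ^ n := by
    unfold Ba
    exact pow_le_pow_right₀ hB01 hn2
  obtain ⟨N, hN⟩ : ∃ N, N = ⌈64 * Ba B0 c⌉₊ := ⟨_, rfl⟩
  have hNl : 64 * Ba B0 c ≤ N := by rw [hN]; exact Nat.le_ceil _
  have hNu : (N : ℝ≥0) ≤ 65 * B0 ^ n := by
    have h1 : (N : ℝ≥0) < 64 * Ba B0 c + 1 := by rw [hN]; exact Nat.ceil_lt_add_one bot_le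
    calc (N : ℝ≥0) ≤ 64 * Ba B0 c + 1 := h1.le
      _ ≤ 64 * B0 ^ n + B0 ^ n := add_le_add (mul_le_mul' le_rfl hBan) (one_le_pow₀ hB01)
      _ = 65 * B0 ^ n := by ring
  have hNpos : 0 < N := by
    rw [hN]
    exact Nat.ceil_pos.2 (mul_pos (by norm_num) hxpos)
  obtain ⟨σ, hσ⟩ : ∃ σ : ℝ≥0, σ = 1 + (Ba B0 c)⁻¹ / (2 * ((32 : ℕ) : ℝ≥0)) := ⟨_, rfl⟩
  have hσ1 : 1 ≤ σ := by rw [hσ]; exact le_self_add
  have hσN : 2 ≤ σ ^ N := by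
    have h1 : (1 : ℝ≥0) + N * ((Ba B0 c)⁻¹ / (2 * ((32 : ℕ) : ℝ≥0))) ≤ σ ^ N := by
      rw [hσ]
      exact bern _ N
    have h3 : (1 : ℝ≥0) ≤ N * ((Ba B0 c)⁻¹ / (2 * ((32 : ℕ) : ℝ≥0))) := by
      calc (1 : ℝ≥0) = (64 * Ba B0 c) * ((Ba B0 c)⁻¹ / (2 * ((32 : ℕ) : ℝ≥0))) := by
            push_cast
            field_simp
            norm_num
        _ ≤ _ := mul_le_mul' hNl le_rfl
    calc (2 : ℝ≥0) = 1 + 1 := by norm_num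
      _ ≤ 1 + N * ((Ba B0 c)⁻¹ / (2 * ((32 : ℕ) : ℝ≥0))) := add_le_add le_rfl h3
      _ ≤ _ := h1
  obtain ⟨K, hK⟩ : ∃ K, K = N * (b * n) := ⟨_, rfl⟩
  have hbn : 1 ≤ b * n := Nat.mul_pos hb1 hn1
  have hK1 : 1 ≤ K := by rw [hK]; exact Nat.mul_pos hNpos hbn
  have hσK : 2 ^ (b * n) ≤ σ ^ K := by
    rw [hK, pow_mul σ N (b * n)]
    exact pow_le_pow_left' hσN _
  have hD : Bl B0 c ≤ σ ^ (16 * K) := by
    rw [hBl]
    calc B0 ^ n ≤ (2 ^ b) ^ n := pow_le_pow_left' hbB n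
      _ = 2 ^ (b * n) := (pow_mul _ _ _).symm
      _ ≤ σ ^ K := hσK
      _ ≤ σ ^ (16 * K) := pow_le_pow_right₀ hσ1 (by omega)
  have h8 : 8 ≤ σ ^ (3 * K) := by
    have h4 : (2 : ℝ≥0) ≤ σ ^ K := by
      calc (2 : ℝ≥0) = 2 ^ 1 := (pow_one _).symm
        _ ≤ 2 ^ (b * n) := pow_le_pow_right₀ (by norm_num) hbn
        _ ≤ _ := hσK
    calc (8 : ℝ≥0) = 2 ^ 3 := by norm_num
      _ ≤ (σ ^ K) ^ 3 := pow_le_pow_left' h4 3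
      _ = σ ^ (3 * K) := by rw [← pow_mul, mul_comm]
  have hD1 : 1 ≤ Bl B0 c := by rw [hBl]; exact one_le_pow₀ hB01
  have hD0 : Bl B0 c ≠ 0 := (lt_of_lt_of_le one_pos hD1).ne'
  have hy1 : ((Bl B0 c)⁻¹) ^ 2 ≤ 1 := pow_le_one₀ bot_le (inv_le_one_of_one_le₀ hD1)
  have h12K : (1 : ℝ≥0) ≤ ((12 * K : ℕ) : ℝ≥0) := by
    have : 1 ≤ 12 * K := by omega
    exact_mod_cast this
  have hden : (1 : ℝ≥0) ≤ 2 * ((12 * K : ℕ) : ℝ≥0) := by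
    calc (1 : ℝ≥0) = 1 * 1 := (one_mul _).symm
      _ ≤ 2 * ((12 * K : ℕ) : ℝ≥0) := mul_le_mul' (by norm_num) h12K
  refine ⟨K, σ, ((Bl B0 c)⁻¹) ^ 2 / (2 * ((12 * K : ℕ) : ℝ≥0)), hK1, hσ1, ?_, hD, h8, ?_, ?_, ?_,
    ?_, ?_, ?_⟩
  · rw [hσ]
    exact pow_le_one_add hx1 (by norm_num)
  · exact (div_le_self bot_le hden).trans hy1
  · exact div_pos (pow_pos (inv_pos.2 (lt_of_lt_of_le one_pos hD1)) 2)
      (lt_of_lt_of_le one_pos hden)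
  · exact pow_le_one_add hy1 (by omega)
  · refine inv_anti₀ hxpos ?_
    rw [hBl]
    refine hBan.trans (pow_le_pow_left' ?_ n)
    rw [hB]
    calc B0 = 1 * 1 * 1 * B0 ^ 1 := by simp
      _ ≤ 6240 * b * B2 * B0 ^ 3 :=
        mul_le_mul' (mul_le_mul' (mul_le_mul' (by norm_num) hbR) hB21)
          (pow_le_pow_right₀ hB01 (by norm_num))
  · have hpos : 0 < (Bl B0 c) ^ 2 * (2 * ((12 * K : ℕ) : ℝ≥0)) * (B2 * (c + 2)) := by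
      have e1 : 0 < Bl B0 c := lt_of_lt_of_le one_pos hD1
      have e2 : 0 < (2 * ((12 * K : ℕ) : ℝ≥0)) := lt_of_lt_of_le one_pos hden
      have e3 : 0 < B2 := lt_of_lt_of_le one_pos hB21
      positivity
    have hle : (Bl B0 c) ^ 2 * (2 * ((12 * K : ℕ) : ℝ≥0)) * (B2 * (c + 2)) ≤ Bl B c := by
      rw [hBl, hBl, hB]
      have g1 : ∀ u : ℝ≥0, 1 ≤ u → u ≤ u ^ n := fun u hu => le_self_pow₀ hu hn0
      have g2 : ((c : ℝ≥0) + 2) ≤ 2 ^ n := by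
        have h5 : c + 2 ≤ 2 ^ n := hn2.trans Nat.lt_two_pow_self.le
        exact_mod_cast h5
      have g3 : (n : ℝ≥0) ≤ 2 ^ n := by
        have h5 : n ≤ 2 ^ n := Nat.lt_two_pow_self.le
        exact_mod_cast h5
      have g4 : (K : ℝ≥0) ≤ 65 * B0 ^ n * (b * 2 ^ n) := by
        rw [hK]
        push_cast
        exact mul_le_mul' hNu (mul_le_mul' le_rfl g3)
      calc (B0 ^ n) ^ 2 * (2 * ((12 * K : ℕ) : ℝ≥0)) * (B2 * (c + 2))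
          = 24 * (B0 ^ n) ^ 2 * K * (B2 * (c + 2)) := by
            push_cast
            ring
        _ ≤ 24 * (B0 ^ n) ^ 2 * (65 * B0 ^ n * (b * 2 ^ n)) * (B2 * 2 ^ n) :=
            mul_le_mul' (mul_le_mul' le_rfl g4) (mul_le_mul' le_rfl g2)
        _ = 1560 * b * B2 * (4 ^ n * (B0 ^ 3) ^ n) := by
            have e4 : (4 : ℝ≥0) ^ n = 2 ^ n * 2 ^ n := by
              rw [← mul_pow]
              norm_num
            have e6 : (B0 ^ 3) ^ n = (B0 ^ n) ^ 3 := by rw [← pow_mul, ← pow_mul, mul_comm]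
            rw [e4, e6]
            ring
        _ ≤ 1560 ^ n * b ^ n * B2 ^ n * (4 ^ n * (B0 ^ 3) ^ n) :=
            mul_le_mul' (mul_le_mul' (mul_le_mul' (g1 _ (by norm_num)) (g1 _ hbR)) (g1 _ hB21))
              le_rfl
        _ = (6240 * b * B2 * B0 ^ 3) ^ n := by
            have e5 : (6240 : ℝ≥0) = 1560 * 4 := by norm_num
            rw [e5]
            simp only [mul_pow]
            ring
    calc (Bl B c)⁻¹ ≤ ((Bl B0 c) ^ 2 * (2 * ((12 * K : ℕ) : ℝ≥0)) * (B2 * (c + 2)))⁻¹ :=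
          inv_anti₀ hpos hle
      _ = ((Bl B0 c)⁻¹) ^ 2 / (2 * ((12 * K : ℕ) : ℝ≥0)) / (B2 * (c + 2)) := by
          rw [div_div, div_eq_mul_inv, mul_assoc, mul_inv, inv_pow]
  · rw [hBl]
    calc (12 : ℝ≥0) ≤ 6240 := by norm_num
      _ ≤ B := hBbig
      _ ≤ B ^ n := le_self_pow₀ hB1 hn0

end GAPX

open GAPX in
theorem t_XGAP (h1 : XLOOP_Stmt) (h2 : XYEPS_Stmt) (h3 : GAB_Stmt) (h4 : GBA_Stmt) :
    XGAP_Stmt := by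
  obtain ⟨B0, hB0, hL⟩ := h1
  obtain ⟨B2, hB2, hY⟩ := h2
  obtain ⟨B, hB, hC⟩ := consts B0 B2 hB0 hB2
  refine ⟨B, hB, fun c z hz m => ?_⟩
  obtain ⟨K, σ, a, hK, hσ, h32, hD, h8, ha1, ha0, ha, hx, hxa, h12⟩ := hC c
  have hB01 : (1 : ℝ≥0) ≤ B0 := le_trans (by norm_num) hB0
  have hB21 : (1 : ℝ≥0) ≤ B2 := le_trans (by norm_num) hB2
  have hD1 : 1 ≤ Bl B0 c := by
    unfold Bl
    exact one_le_pow₀ hB01
  have hz1 : z ≤ (1 + (Ba B0 c)⁻¹ : ℝ≥0) * zst c := by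
    refine hz.trans (mul_le_mul' ?_ le_rfl)
    have : (1 + (Bl B c)⁻¹ : ℝ≥0) ≤ 1 + (Ba B0 c)⁻¹ := add_le_add le_rfl hx
    exact_mod_cast this
  have hz2 : z ≤ (1 + a / (B2 * (c + 2)) : ℝ≥0) * zst c := by
    refine hz.trans (mul_le_mul' ?_ le_rfl)
    have : (1 + (Bl B c)⁻¹ : ℝ≥0) ≤ 1 + a / (B2 * (c + 2)) := add_le_add le_rfl hxa
    exact_mod_cast this
  have hf := fin h3 h4 c z m K hK (Ba B0 c)⁻¹ (Bl B0 c) σ _ a hσ h32 hD1 hD h8 rfl ha1 ha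
    (hL c z hz1) (hY c a ha0 ha1 z hz2 m)
  refine hf.trans (mul_le_mul' (by exact_mod_cast h12) (pow_le_pow_left' ?_ m))
  have hle : (Bl B c)⁻¹ ≤ a := by
    refine hxa.trans (div_le_self bot_le ?_)
    have : (1 : ℝ≥0) ≤ (c : ℝ≥0) + 2 := by
      calc (1 : ℝ≥0) ≤ 2 := by norm_num
        _ ≤ _ := le_add_self
    calc (1 : ℝ≥0) = 1 * 1 := (one_mul _).symm
      _ ≤ _ := mul_le_mul' hB21 this
  have : (1 + a)⁻¹ ≤ (1 + (Bl B c)⁻¹)⁻¹ :=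
    inv_anti₀ (lt_of_lt_of_le one_pos le_self_add) (add_le_add le_rfl hle)
  exact_mod_cast this

end Pool.Agent.XMX
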