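import Pool.Agent.XMX.Stmts
import Pool.Agent.XM.Nsm

/-!
# Column-convex polygons (MP_f6626d_co), explicit window: bad lines cost loops (module XMX_GBA)
-/

set_option autoImplicit false

namespace Pool.Agent.XMX

open Finset Pool.Agent.Lib27 Pool.Agent.OC Pool.Agent.XM
open scoped NNReal ENNReal

namespace GBAp

open Classical in
/-- insertion of the word `l` at the line `h` (at the first crossing) -/
noncomputable def ip (m h : ℕ) (w l : Wd) : Wd :=
  if H : ∃ t : Wd × Wd, Sp m h w t.1 [] t.2 then H.choose.1 ++ (l ++ H.choose.2) else w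

theorem ip_eq (h1 : SPX_Stmt) {m h : ℕ} (hh : 0 < h) (hm : h < m) {u v : Wd} (hb : u ++ v ∈ Bri m)
    (hs : Sp m h (u ++ v) u [] v) (l : Wd) : ip m h (u ++ v) l = u ++ (l ++ v) := by
  have H : ∃ t : Wd × Wd, Sp m h (u ++ v) t.1 [] t.2 := ⟨(u, v), hs⟩
  have e : ip m h (u ++ v) l = H.choose.1 ++ (l ++ H.choose.2) := dif_pos H
  obtain ⟨u0, l0, v0, -, -, hun⟩ := h1 m h (u ++ v) hh hm hb
  have a1 := hun _ _ _ H.choose_spec
  have a2 := hun _ _ _ hs
  rw [e, a1.1, a1.2.2, a2.1, a2.2.2]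

theorem bset_succ_of_lt {K J m : ℕ} {A : Wd} {i : ℕ} (hex : ex m (3 * K * (i + 1)) A < K) :
    bset K J m A i = bset K J m A (i + 1) := by
  unfold bset
  ext j
  simp only [Finset.mem_filter, Finset.mem_Ioc]
  constructor
  · rintro ⟨⟨h1, h2⟩, h3⟩
    refine ⟨⟨?_, h2⟩, h3⟩
    rcases Nat.lt_or_ge (i + 1) j with h | h
    · exact h
    · have : j = i + 1 := by omega
      subst this
      omega
  · rintro ⟨⟨h1, h2⟩, h3⟩
    exact ⟨⟨by omega, h2⟩, h3⟩

/-- the exponent -/
theorem expo {K J m : ℕ} {A A' : Wd} {i d : ℕ} (hK : 1 ≤ K) (hd : K ≤ d)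
    (hJ : 3 * K * J < m)
    (hex : ∀ h' : ℕ, 0 < h' → h' < m → 3 * K * (i + 1) + d ≤ h' → ex m h' A' = ex m h' A) :
    3 * K * (bset K J m A i).card ≤ 3 * K * (bset K J m A' (i + 1)).card + 4 * d := by
  have hsub : bset K J m A i ⊆ bset K J m A' (i + 1) ∪ Icc (i + 1) (i + 1 + d / (3 * K)) := by
    intro j hj
    simp only [bset, Finset.mem_filter, Finset.mem_Ioc, Finset.mem_union, Finset.mem_Icc] at hj ⊢
    obtain ⟨⟨h1, h2⟩, h3⟩ := hj
    by_cases hc : 3 * K * (i + 1) + d ≤ 3 * K * j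
    · left
      have hlt : 3 * K * (i + 1) < 3 * K * j := by omega
      have hij : i + 1 < j := lt_of_mul_lt_mul_left hlt (Nat.zero_le _)
      refine ⟨⟨hij, h2⟩, ?_⟩
      have hpos : 0 < 3 * K * j := by
        have : 0 < j := by omega
        positivity
      have hlm : 3 * K * j < m := lt_of_le_of_lt (Nat.mul_le_mul_left _ h2) hJ
      rw [hex _ hpos hlm hc]
      exact h3
    · right
      refine ⟨h1, ?_⟩
      have h4 : j - (i + 1) ≤ d / (3 * K) := by
        rw [Nat.le_div_iff_mul_le (by omega)]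
        have h5 : (j - (i + 1)) * (3 * K) = 3 * K * j - 3 * K * (i + 1) := by
          rw [mul_comm, Nat.mul_sub]
        omega
      omega
  have hcard := (Finset.card_le_card hsub).trans (Finset.card_union_le _ _)
  rw [Nat.card_Icc] at hcard
  have h6 : i + 1 + d / (3 * K) + 1 - (i + 1) = d / (3 * K) + 1 := by
    generalize d / (3 * K) = x
    omega
  rw [h6] at hcard
  have h7 : 3 * K * (d / (3 * K)) ≤ d := Nat.mul_div_le _ _
  calc 3 * K * (bset K J m A i).card
      ≤ 3 * K * ((bset K J m A' (i + 1)).card + (d / (3 * K) + 1)) := Nat.mul_le_mul_left _ hcard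
    _ = 3 * K * (bset K J m A' (i + 1)).card + (3 * K * (d / (3 * K)) + 3 * K) := by ring
    _ ≤ 3 * K * (bset K J m A' (i + 1)).card + 4 * d := by omega

theorem step (h1 : SPX_Stmt) (h2 : CTX_Stmt) (c : ℕ) (z τ : ℝ≥0∞) (m K J : ℕ) (hK : 1 ≤ K)
    (hJ : 3 * K * J < m) (hτ : 1 ≤ τ) (i : ℕ) (hi : i < J) :
    gs (fun p => Wz z p * τ ^ (3 * K * (bset K J m p.1 i).card)) (Brp (c + 2) m) ≤
      (1 + gs (fun l => wz z l * τ ^ (4 * ext l)) {l | l ∈ Lp c ∧ K ≤ ext l}) *
        gs (fun p => Wz z p * τ ^ (3 * K * (bset K J m p.1 (i + 1)).card)) (Brp (c + 2) m) := by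
  have hh : 0 < 3 * K * (i + 1) := by positivity
  have hm : 3 * K * (i + 1) < m := lt_of_le_of_lt (Nat.mul_le_mul_left _ hi) hJ
  have hcov : Brp (c + 2) m ⊆ {p | p ∈ Brp (c + 2) m ∧ ex m (3 * K * (i + 1)) p.1 < K} ∪
      {p | p ∈ Brp (c + 2) m ∧ K ≤ ex m (3 * K * (i + 1)) p.1} := by
    intro p hp
    rcases Nat.lt_or_ge (ex m (3 * K * (i + 1)) p.1) K with h | h
    · exact Or.inl ⟨hp, h⟩
    · exact Or.inr ⟨hp, h⟩
  refine (gs_mono _ hcov).trans ((gs_union _ _ _).trans ?_)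
  rw [add_mul, one_mul]
  refine add_le_add ?_ ?_
  · refine gs_le _ _ (fun p hp => hp.1) ?_
    intro p hp
    rw [bset_succ_of_lt hp.2]
  · refine le_trans ?_ (le_of_eq (mul_comm _ _))
    refine gs_split2 (fun (q : Wd × Wd) (l : Wd) => (ip m (3 * K * (i + 1)) q.1 l, q.2)) ?_
    rintro ⟨A, B⟩ ⟨hp, hex⟩
    obtain ⟨hA, hB, hc⟩ := hp
    simp only at hA hB hc hex
    obtain ⟨u, l, v, hs, he, -⟩ := h1 m _ A hh hm hA
    obtain ⟨b1, b2, -, b4, b5, b6⟩ := h2 m _ A u l v hh hm hA hs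
    have hAe : A = u ++ (l ++ v) := hs.1
    have hadd : 3 * K * (i + 1) + (m - 3 * K * (i + 1)) = m := by omega
    have hLp : l ∈ Lp c := by
      refine ⟨b2, hs.2.2.1, fun k => ?_⟩
      refine NSM.loop (m := 3 * K * (i + 1)) (m' := m - 3 * K * (i + 1)) (u := u) (v := v)
        (B := B) hs.2.1 hs.2.2.1 hs.2.2.2.1 ?_ ?_ ?_ k
      · rw [hadd, ← hAe]; exact hA
      · rw [hadd]; exact hB
      · intro k'
        rw [← hAe]
        exact hc k'
    refine ⟨(u ++ v, B), l, ⟨b1, hB, fun k => ?_⟩, ⟨hLp, by rw [← he]; exact hex⟩, ?_, ?_⟩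
    · have e1 := b5 k
      have e2 := hc k
      simp only
      omega
    · simp only
      rw [ip_eq h1 hh hm b1 b4, ← hAe]
    · simp only
      have hexp := expo (K := K) (J := J) (m := m) (A := A) (A' := u ++ v) (i := i) (d := ext l)
        hK (by rw [← he]; exact hex) hJ (fun h' p1 p2 p3 => (b6 h' p1 p2 (Or.inl p3)).2)
      have hpow : τ ^ (3 * K * (bset K J m A i).card) ≤
          τ ^ (3 * K * (bset K J m (u ++ v) (i + 1)).card) * τ ^ (4 * ext l) := by
        rw [← pow_add]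
        exact pow_le_pow_right' hτ hexp
      calc Wz z (A, B) * τ ^ (3 * K * (bset K J m A i).card)
          ≤ Wz z (A, B) * (τ ^ (3 * K * (bset K J m (u ++ v) (i + 1)).card) * τ ^ (4 * ext l)) :=
            mul_le_mul_right hpow _
        _ = Wz z (u ++ v, B) * τ ^ (3 * K * (bset K J m (u ++ v) (i + 1)).card) *
            (wz z l * τ ^ (4 * ext l)) := by
            rw [Wz_eq, Wz_eq]
            simp only
            rw [hAe, wz_append, wz_append, wz_append]
            ring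

end GBAp

theorem t_GBA (h1 : SPX_Stmt) (h2 : CTX_Stmt) : GBA_Stmt := by
  intro c z τ m K J hK hJ hτ _ i hi
  obtain ⟨n, hn⟩ : ∃ n, J = i + n := ⟨J - i, by omega⟩
  induction n generalizing i with
  | zero =>
    have hi' : J = i := by omega
    have hb : ∀ A : Wd, bset K J m A i = ∅ := by
      intro A
      unfold bset
      rw [hi', Finset.Ioc_self, Finset.filter_empty]
    simp only [hb, Finset.card_empty, mul_zero, pow_zero, mul_one]
    rw [hi', Nat.sub_self, pow_zero, one_mul]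
    exact le_of_eq rfl
  | succ n ih =>
    have hlt : i < J := by omega
    refine (GBAp.step h1 h2 c z τ m K J hK hJ hτ i hlt).trans ?_
    have h3 := ih (i + 1) hlt (by omega)
    have h4 : J - i = (J - (i + 1)) + 1 := by omega
    rw [h4, pow_succ', mul_assoc]
    exact mul_le_mul_right h3 _

end Pool.Agent.XMX
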