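import Pool.Agent.XMX.Stmts2
import Pool.Agent.XM.Nsm
import Pool.Agent.XM.Fps

/-!
# Column-convex polygons (MP_f6626d_co), explicit window: XGL, pairs of words between two columns
(helper55)
-/

set_option autoImplicit false

namespace Pool.Agent.XMX

open Finset Pool.Agent.Lib27 Pool.Agent.OC Pool.Agent.XM
open scoped NNReal ENNReal

namespace XGLP

/-- a word between two columns is cut at its last crossing of the line `0` -/
theorem split {b : ℕ} {V : Wd} (hV : V ∈ Gx b) :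
    ∃ l A : Wd, V = l ++ A ∧ SAWs l ∧ (ep 0 l).1 = 0 ∧ A ∈ Bri b := by
  obtain ⟨hS, hend, hcol⟩ := hV
  rcases Nat.eq_zero_or_pos b with rfl | hb
  · exact ⟨V, [], by simp, hS, by rw [hend]; rfl, Bri_zero.2 rfl⟩
  obtain ⟨l, y, rfl, h4, h5⟩ := last_cross (w := V) (h := 0)
    ⟨0, mem_vt_self _ _, le_rfl⟩ (by rw [hend]; omega)
  refine ⟨l, 0 :: y, rfl, SAWs_left hS, h4, ⟨SAWs_right hS, ?_, fun p hp => ⟨h5 p hp, ?_⟩⟩⟩
  · rw [fst_ep_app, h4] at hend
    omega
  · have h7 := hcol _ (mem_vt_right l (List.mem_of_mem_tail hp))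
    rw [Prod.fst_add, h4] at h7
    omega

/-- the loop of the first component has at most `c` crossings of every line -/
theorem loop_le {c b : ℕ} {V W l A : Wd} (hV : V ∈ Gx b) (hW : W ∈ Gx b)
    (hT : ∀ h : ℤ, cr V h + cr W h ≤ if h < 0 then c else c + 2)
    (hVe : V = l ++ A) (hl : (ep 0 l).1 = 0) (hA : A ∈ Bri b) (h : ℤ) : cr l h ≤ c := by
  have h1 := hT h
  have h2 : cr V h = cr l h + cr A h := by rw [hVe, cr_append, hl, sub_zero]
  by_cases h0 : h < 0
  · rw [if_pos h0] at h1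
    omega
  · rw [if_neg h0] at h1
    rcases lt_or_ge h (b : ℤ) with h4 | h4
    · have h5 := cr_Bri_pos hA (not_lt.1 h0) h4
      have h6 : 1 ≤ cr W h := cr_pos_of_lt (not_lt.1 h0) (by rw [hW.2.1]; exact h4)
      omega
    · have h5 : cr V h = 0 := cr_eq_zero_of_le fun p hp => (hV.2.2 p hp).trans h4
      omega

end XGLP

theorem t_XGL : XGL_Stmt := by
  intro c b z
  unfold Y
  rw [pow_two]
  refine gs_split3 (fun (l l' : Wd) (q : Wd × Wd) => (l ++ q.1, l' ++ q.2)) ?_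
  rintro ⟨V, W⟩ ⟨hV, hW, hT⟩
  simp only at hV hW
  have hT : ∀ h : ℤ, cr V h + cr W h ≤ if h < 0 then c else c + 2 := hT
  have hT' : ∀ h : ℤ, cr W h + cr V h ≤ if h < 0 then c else c + 2 := fun h => by
    rw [add_comm]; exact hT h
  obtain ⟨l, A, e1, hlS, hl, hA⟩ := XGLP.split hV
  obtain ⟨l', A', e1', hlS', hl', hA'⟩ := XGLP.split hW
  refine ⟨l, l', (A, A'), ⟨hlS, hl, XGLP.loop_le hV hW hT e1 hl hA⟩,
    ⟨hlS', hl', XGLP.loop_le hW hV hT' e1' hl' hA'⟩, ⟨hA, hA', fun h => ?_⟩, by rw [e1, e1'], ?_⟩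
  · simp only
    have h1 := hT h
    have h2 : cr V h = cr l h + cr A h := by rw [e1, cr_append, hl, sub_zero]
    have h3 : cr W h = cr l' h + cr A' h := by rw [e1', cr_append, hl', sub_zero]
    split_ifs at h1 <;> omega
  · refine le_of_eq ?_
    rw [e1, e1', Wz_eq, Wz_eq]
    simp only [wz_append]
    ring

end Pool.Agent.XMX
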