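import Pool.Agent.XMX.Stmts
import Pool.Agent.XM.LoopX
import Pool.Agent.XM.Arc
import Pool.Agent.XM.Arc1
import Pool.Agent.XM.Run
import Pool.Agent.XM.Zst

/-!
# Column-convex polygons (MP_f6626d_co), explicit window: module XLOOP
-/

set_option autoImplicit false

namespace Pool.Agent.XMX

open Finset Pool.Agent.Lib27 Pool.Agent.OC Pool.Agent.XM
open scoped NNReal ENNReal

namespace LOOPx

/-- the numerical inequality at the end -/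
lemma num (c : ℕ) (B0 C1 : ℝ≥0) (hB0 : 2 ≤ B0) (hC1 : 1 ≤ C1) :
    ∑ j ∈ range (c + 1), C1 * (2 * (4 * (B0 ^ (c + 2)) ^ 2) * C1) ^ j ≤
      (16 * C1 ^ 2 * B0 ^ 2) ^ ((c + 2) ^ 2) := by
  have hB1 : 1 ≤ B0 := le_trans (by norm_num) hB0
  set D : ℝ≥0 := 2 * (4 * (B0 ^ (c + 2)) ^ 2) * C1 with hD
  have hD1 : 1 ≤ D := by
    have h1 : 1 ≤ (B0 ^ (c + 2)) ^ 2 := one_le_pow₀ (one_le_pow₀ hB1)
    calc (1 : ℝ≥0) ≤ 2 * (4 * 1) * 1 := by norm_num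
      _ ≤ D := by rw [hD]; gcongr
  have h2 : ∑ j ∈ range (c + 1), C1 * D ^ j ≤ (c + 1) * (C1 * D ^ c) := by
    calc ∑ j ∈ range (c + 1), C1 * D ^ j ≤ ∑ _j ∈ range (c + 1), C1 * D ^ c := by
          refine Finset.sum_le_sum fun j hj => ?_
          exact mul_le_mul' le_rfl (pow_le_pow_right₀ hD1 (by
            have := Finset.mem_range.1 hj; omega))
      _ = (c + 1) * (C1 * D ^ c) := by
          rw [Finset.sum_const, Finset.card_range, nsmul_eq_mul]; push_cast; ring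
  refine h2.trans ?_
  have e1 : ((c : ℝ≥0) + 1) ≤ 2 ^ ((c + 2) ^ 2) := by
    have : c + 1 ≤ 2 ^ ((c + 2) ^ 2) := by
      calc c + 1 ≤ 2 ^ (c + 1) := (Nat.lt_two_pow_self).le
        _ ≤ 2 ^ ((c + 2) ^ 2) := Nat.pow_le_pow_right (by norm_num) (by nlinarith)
    exact_mod_cast this
  have e2 : C1 ≤ C1 ^ ((c + 2) ^ 2) := by
    calc C1 = C1 ^ 1 := (pow_one _).symm
      _ ≤ _ := pow_le_pow_right₀ hC1 (Nat.one_le_pow _ _ (by omega))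
  have e3 : D ^ c ≤ 8 ^ ((c + 2) ^ 2) * C1 ^ ((c + 2) ^ 2) * (B0 ^ 2) ^ ((c + 2) ^ 2) := by
    have e4 : D ^ c = 8 ^ c * C1 ^ c * (B0 ^ 2) ^ ((c + 2) * c) := by
      rw [hD]; ring
    rw [e4]
    have e5 : (1 : ℝ≥0) ≤ B0 ^ 2 := one_le_pow₀ hB1
    have e6 : c ≤ (c + 2) ^ 2 := by nlinarith
    have e7 : (c + 2) * c ≤ (c + 2) ^ 2 := by nlinarith
    exact mul_le_mul' (mul_le_mul' (pow_le_pow_right₀ (by norm_num) e6)
      (pow_le_pow_right₀ hC1 e6)) (pow_le_pow_right₀ e5 e7)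
  calc ((c : ℝ≥0) + 1) * (C1 * D ^ c)
      ≤ 2 ^ ((c + 2) ^ 2) * (C1 ^ ((c + 2) ^ 2) * (8 ^ ((c + 2) ^ 2) * C1 ^ ((c + 2) ^ 2) *
          (B0 ^ 2) ^ ((c + 2) ^ 2))) := mul_le_mul' e1 (mul_le_mul' e2 e3)
    _ = (16 * C1 ^ 2 * B0 ^ 2) ^ ((c + 2) ^ 2) := by
        rw [mul_pow, mul_pow, ← pow_mul C1 2, mul_comm 2 ((c + 2) ^ 2), pow_mul C1 _ 2]
        have : (16 : ℝ≥0) ^ ((c + 2) ^ 2) = 2 ^ ((c + 2) ^ 2) * 8 ^ ((c + 2) ^ 2) := by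
          rw [← mul_pow]; norm_num
        rw [this]; ring

end LOOPx

open LOOPx in
theorem t_XLOOP (h : XMONO_Stmt) : XLOOP_Stmt := by
  obtain ⟨B0, hB0, hM⟩ := h
  obtain ⟨C1, hC1, hrun⟩ := run_thm
  have hB1 : 1 ≤ B0 := le_trans (by norm_num) hB0
  have hBB : 2 * B0 ≤ 16 * C1 ^ 2 * B0 ^ 2 := by
    calc 2 * B0 ≤ 16 * 1 * (B0 * 1) := by rw [mul_one, mul_one]; gcongr; norm_num
      _ ≤ 16 * C1 ^ 2 * (B0 * B0) := by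
          gcongr
          exact one_le_pow₀ hC1
      _ = 16 * C1 ^ 2 * B0 ^ 2 := by ring
  refine ⟨16 * C1 ^ 2 * B0 ^ 2, le_trans (le_trans hB0 (by
    calc B0 = 1 * B0 := (one_mul _).symm
      _ ≤ 2 * B0 := by gcongr; norm_num)) hBB, ?_⟩
  intro c z hz
  obtain ⟨hz8, hz2, -, -⟩ := zst_thm c
  set B : ℝ≥0 := 16 * C1 ^ 2 * B0 ^ 2 with hB
  set b : ℝ≥0 := Ba B0 c with hb
  have hb4 : 4 ≤ b := by
    calc (4 : ℝ≥0) = 2 ^ 2 := by norm_num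
      _ ≤ 2 ^ (c + 2) := pow_le_pow_right₀ (by norm_num) (by omega)
      _ ≤ B0 ^ (c + 2) := pow_le_pow_left' hB0 _
  have hb0 : 0 < b := lt_of_lt_of_le (by norm_num) hb4
  have hBb : 2 * b ≤ Ba B c := by
    calc 2 * b ≤ 2 ^ (c + 2) * B0 ^ (c + 2) := by
          rw [hb, Ba]
          gcongr
          calc (2 : ℝ≥0) = 2 ^ 1 := (pow_one _).symm
            _ ≤ 2 ^ (c + 2) := pow_le_pow_right₀ (by norm_num) (by omega)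
      _ = (2 * B0) ^ (c + 2) := (mul_pow _ _ _).symm
      _ ≤ B ^ (c + 2) := pow_le_pow_left' hBB _
  set y : ℝ≥0 := (Ba B c)⁻¹ with hy
  have hyx : y ≤ b⁻¹ / 2 := by
    rw [hy]
    calc (Ba B c)⁻¹ ≤ (2 * b)⁻¹ := inv_anti₀ (by positivity) hBb
      _ = b⁻¹ / 2 := by rw [mul_inv, mul_comm, div_eq_mul_inv]
  have hx1 : b⁻¹ ≤ 1 / 4 := by
    rw [one_div]
    exact inv_anti₀ (by norm_num) hb4
  have hyx' : y ≤ b⁻¹ := hyx.trans (by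
    rw [div_eq_mul_inv]
    calc b⁻¹ * 2⁻¹ ≤ b⁻¹ * 1 := by gcongr; norm_num
      _ = b⁻¹ := mul_one _)
  have hz1 : z ≤ (1 + b⁻¹ : ℝ≥0) * zst c := by
    refine hz.trans ?_
    gcongr
  have hz34 : z ≤ 3 / 4 := by
    have e4 : ((1 + b⁻¹ : ℝ≥0) : ℝ≥0∞) * 2⁻¹ ≤ 3 / 4 := by
      have e5 : (1 + b⁻¹) * 2⁻¹ ≤ (3 / 4 : ℝ≥0) := by
        have e7 : ((b⁻¹ : ℝ≥0) : ℝ) ≤ 1 / 4 := by exact_mod_cast hx1
        rw [← NNReal.coe_le_coe]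
        rw [NNReal.coe_mul, NNReal.coe_add, NNReal.coe_inv 2, NNReal.coe_div]
        push_cast at e7 ⊢
        linarith
      have e8 : (((1 + b⁻¹) * 2⁻¹ : ℝ≥0) : ℝ≥0∞) ≤ ((3 / 4 : ℝ≥0) : ℝ≥0∞) := by exact_mod_cast e5
      rw [ENNReal.coe_mul (1 + b⁻¹), ENNReal.coe_inv two_ne_zero,
        ENNReal.coe_div (by norm_num)] at e8
      exact e8
    exact hz1.trans ((mul_le_mul' le_rfl hz2).trans e4)
  have hmono : ∀ {x y : ℝ≥0∞} (S : Set Wd), x ≤ y → gs (wz x) S ≤ gs (wz y) S :=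
    fun S hxy => gs_le _ _ subset_rfl fun _ _ => pow_le_pow_left' hxy _
  -- vertical words
  have hV : gs (wz z) Ve ≤ (C1 : ℝ≥0∞) := by
    have e1 : Ve ⊆ {w : Wd | SAWs w ∧ XM.hz w ≤ 0} := fun w hw => ⟨hw.1, hw.2.le⟩
    refine ((gs_mono _ e1).trans (hmono _ hz34)).trans ((hrun 0).trans (le_of_eq ?_))
    rw [zero_add, pow_one]
  set s : ℝ≥0 := 1 + y with hs
  set r : ℝ≥0 := (1 + b⁻¹)⁻¹ with hr
  have hs1 : 1 ≤ s := le_self_add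
  have hsr : s * r ≤ 1 - b⁻¹ / 4 := by
    have hx1' : ((b : ℝ))⁻¹ ≤ 1 / 4 := by exact_mod_cast hx1
    have hyx2 : (y : ℝ) ≤ (b : ℝ)⁻¹ / 2 := by exact_mod_cast hyx
    have hxp : 0 < (b : ℝ)⁻¹ := by positivity
    have e0 : b⁻¹ / 4 ≤ 1 := by
      rw [← NNReal.coe_le_coe]; push_cast; linarith
    rw [← NNReal.coe_le_coe, NNReal.coe_sub e0, hs, hr]
    push_cast
    rw [← div_eq_mul_inv, div_le_iff₀ (by positivity)]
    nlinarith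
  have hsr1 : s * r < 1 := lt_of_le_of_lt hsr (tsub_lt_self one_pos (by positivity))
  have hinv : (1 - s * r)⁻¹ ≤ 4 * b := by
    have e1 : b⁻¹ / 4 ≤ 1 - s * r := by
      have e0 : b⁻¹ / 4 ≤ 1 := by
        have hx1' : ((b : ℝ))⁻¹ ≤ 1 / 4 := by exact_mod_cast hx1
        rw [← NNReal.coe_le_coe]; push_cast; linarith
      have := tsub_le_tsub_left hsr 1
      rwa [tsub_tsub_cancel_of_le e0] at this
    calc (1 - s * r)⁻¹ ≤ (b⁻¹ / 4)⁻¹ := inv_anti₀ (by positivity) e1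
      _ = 4 * b := by rw [inv_div, div_inv_eq_mul]
  -- arcs
  have hA : ∑' d : ℕ, (s : ℝ≥0∞) ^ (d + 1) * gs (wz z) (Ar c (d + 1)) ≤
      ((4 * b ^ 2 : ℝ≥0) : ℝ≥0∞) := by
    have e1 : ∀ d : ℕ, (s : ℝ≥0∞) ^ (d + 1) * gs (wz z) (Ar c (d + 1)) ≤
        (b : ℝ≥0∞) * ((s * r : ℝ≥0) : ℝ≥0∞) ^ d := by
      intro d
      have e2 : gs (wz z) (Ar c (d + 1)) ≤ (b : ℝ≥0∞) * (r : ℝ≥0∞) ^ (d + 1) :=
        (arc_thm arc1_thm c (d + 1) z (by omega)).trans (hM c z hz1 (d + 1))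
      calc (s : ℝ≥0∞) ^ (d + 1) * gs (wz z) (Ar c (d + 1))
          ≤ (s : ℝ≥0∞) ^ (d + 1) * ((b : ℝ≥0∞) * (r : ℝ≥0∞) ^ (d + 1)) :=
            mul_le_mul' le_rfl e2
        _ = (b : ℝ≥0∞) * ((s * r : ℝ≥0) : ℝ≥0∞) ^ d * ((s * r : ℝ≥0) : ℝ≥0∞) := by
            rw [ENNReal.coe_mul]
            ring
        _ ≤ (b : ℝ≥0∞) * ((s * r : ℝ≥0) : ℝ≥0∞) ^ d * 1 :=
            mul_le_mul' le_rfl (by exact_mod_cast hsr1.le)
        _ = _ := mul_one _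
    refine (ENNReal.tsum_le_tsum e1).trans ?_
    rw [ENNReal.tsum_mul_left, ENNReal.tsum_geometric]
    have hsub : 0 < 1 - s * r := tsub_pos_of_lt hsr1
    have e3 : (1 - ((s * r : ℝ≥0) : ℝ≥0∞))⁻¹ = (((1 - s * r)⁻¹ : ℝ≥0) : ℝ≥0∞) := by
      rw [ENNReal.coe_inv hsub.ne', ENNReal.coe_sub, ENNReal.coe_one]
    rw [e3, ← ENNReal.coe_mul]
    have e4 : b * (1 - s * r)⁻¹ ≤ 4 * b ^ 2 := by
      calc b * (1 - s * r)⁻¹ ≤ b * (4 * b) := by gcongr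
        _ = 4 * b ^ 2 := by ring
    exact_mod_cast e4
  refine (loopx_thm c z s (by exact_mod_cast hs1)).trans ?_
  have hfin : ∑ j ∈ range (c + 1), gs (wz z) Ve *
      (2 * (∑' d : ℕ, (s : ℝ≥0∞) ^ (d + 1) * gs (wz z) (Ar c (d + 1))) * gs (wz z) Ve) ^ j ≤
      ((∑ j ∈ range (c + 1), C1 * (2 * (4 * b ^ 2) * C1) ^ j : ℝ≥0) : ℝ≥0∞) := by
    rw [ENNReal.ofNNReal_finsetSum]
    refine Finset.sum_le_sum fun j _ => ?_
    rw [ENNReal.coe_mul C1, ENNReal.coe_pow, ENNReal.coe_mul (2 * (4 * b ^ 2)),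
      ENNReal.coe_mul 2, ENNReal.coe_ofNat]
    gcongr
  refine hfin.trans ?_
  have := num c B0 C1 hB0 hC1
  rw [Bl]
  exact_mod_cast this

end Pool.Agent.XMX
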