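import Pool.Agent.XMX.Stmts
import Pool.Agent.XM.MonoB
import Pool.Agent.XM.Zst

/-!
# Column-convex polygons (MP_f6626d_co), explicit window: module XMONO

Strict monotonicity beyond the critical point with explicit constants, by Hölder's inequality.
-/

set_option autoImplicit false

namespace Pool.Agent.XMX

open Finset Pool.Agent.Lib27 Pool.Agent.OC Pool.Agent.XM
open scoped NNReal ENNReal

namespace XMONO

theorem exists_t {b0 b1 : ℝ} (h0 : 2 ≤ b0) (h1 : 2 ≤ b1) {k : ℕ} (hk : 2 ≤ k) :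
    ∃ t : ℝ, 0 < t ∧ t < 1 ∧ 1 + ((36 * b0 * b1) ^ k)⁻¹ ≤ (3 / 2 : ℝ) ^ t ∧
      ∀ m : ℕ, (2 * (m + 1) * ((1 + (b0 ^ k)⁻¹)⁻¹) ^ m) ^ (1 - t) * ((b1 ^ k) ^ (m + 1)) ^ t ≤
        (36 * b0 * b1) ^ k * ((1 + ((36 * b0 * b1) ^ k)⁻¹)⁻¹) ^ m := by
  have hb0 : 0 < b0 := by linarith
  have hb1 : 0 < b1 := by linarith
  have hX : 4 ≤ b0 ^ k := by
    calc (4 : ℝ) = 2 ^ 2 := by norm_num
      _ ≤ b0 ^ 2 := by gcongr
      _ ≤ b0 ^ k := pow_le_pow_right₀ (by linarith) hk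
  have hXp : 0 < b0 ^ k := by linarith
  have hYp : 1 ≤ b1 ^ k := one_le_pow₀ (by linarith)
  obtain ⟨x, hx⟩ : ∃ x : ℝ, x = (b0 ^ k)⁻¹ := ⟨_, rfl⟩
  have hx0 : 0 < x := by rw [hx]; positivity
  have hx4 : x ≤ 1 / 4 := by
    rw [hx, show (1 : ℝ) / 4 = 4⁻¹ by norm_num]
    exact inv_anti₀ (by norm_num) hX
  obtain ⟨L, hL⟩ : ∃ L : ℝ, L = Real.log (b1 ^ k) := ⟨_, rfl⟩
  have hL0 : 0 ≤ L := by rw [hL]; exact Real.log_nonneg hYp
  have hLb : 1 + L ≤ b1 ^ k := by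
    have := Real.log_le_sub_one_of_pos (x := b1 ^ k) (by linarith)
    rw [hL]; linarith
  obtain ⟨t, ht⟩ : ∃ t : ℝ, t = x / (4 * (1 + L)) := ⟨_, rfl⟩
  have ht0 : 0 < t := by rw [ht]; positivity
  have htL : t * (1 + L) = x / 4 := by
    rw [ht]; field_simp
  have ht1 : t < 1 := by nlinarith
  have hBk : 36 * b0 ^ k * b1 ^ k ≤ (36 * b0 * b1) ^ k := by
    rw [mul_pow, mul_pow]
    have h36 : (36 : ℝ) ≤ 36 ^ k := by
      calc (36 : ℝ) = 36 ^ 1 := by norm_num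
        _ ≤ 36 ^ k := pow_le_pow_right₀ (by norm_num) (by omega)
    gcongr
  obtain ⟨D, hD⟩ : ∃ D : ℝ, D = (36 * b0 * b1) ^ k := ⟨_, rfl⟩
  rw [← hD] at hBk
  have hxb : x * b0 ^ k = 1 := by rw [hx]; exact inv_mul_cancel₀ hXp.ne'
  -- `D ≥ 36 / x * (1 + L)`
  have hDx : 36 * (1 + L) ≤ D * x := by
    have e : 36 * b0 ^ k * b1 ^ k * x = 36 * b1 ^ k := by
      calc 36 * b0 ^ k * b1 ^ k * x = 36 * b1 ^ k * (x * b0 ^ k) := by ring
        _ = _ := by rw [hxb, mul_one]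
    have := mul_le_mul_of_nonneg_right hBk hx0.le
    nlinarith
  have hDx36 : 36 ≤ D * x := by nlinarith
  have hD0 : 0 < D := by
    by_contra hcon
    push Not at hcon
    nlinarith [mul_nonneg (neg_nonneg.2 hcon) hx0.le]
  have hDinv8 : D⁻¹ ≤ x / 8 := by
    rw [inv_eq_one_div, div_le_iff₀ hD0]
    nlinarith
  have hDinvt : D⁻¹ ≤ t / 3 := by
    rw [inv_eq_one_div, div_le_iff₀ hD0]
    have h12 : 12 * (t * (1 + L)) ≤ 12 * (x / 4) := by rw [htL]
    -- `t D ≥ 3`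
    have h3 : 36 * (1 + L) * t ≤ D * x * t := mul_le_mul_of_nonneg_right hDx ht0.le
    have h4 : 9 * x ≤ D * x * t := by nlinarith
    have h5 : 9 ≤ D * t := by
      by_contra hcon
      push Not at hcon
      have := mul_lt_mul_of_pos_right hcon hx0
      nlinarith
    nlinarith
  refine ⟨t, ht0, ht1, ?_, ?_⟩
  · rw [← hD]
    have hlog : (1 : ℝ) / 3 ≤ Real.log (3 / 2) := by
      have := Real.one_sub_inv_le_log_of_pos (x := (3 / 2 : ℝ)) (by norm_num)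
      norm_num at this ⊢
      linarith
    calc 1 + D⁻¹ ≤ 1 + t / 3 := by linarith
      _ ≤ 1 + Real.log (3 / 2) * t := by nlinarith
      _ ≤ Real.exp (Real.log (3 / 2) * t) := by
        have := Real.add_one_le_exp (Real.log (3 / 2) * t)
        linarith
      _ = (3 / 2 : ℝ) ^ t := (Real.rpow_def_of_pos (by norm_num) t).symm
  · intro m
    rw [← hD, ← hx]
    have hlog1 : x / 2 ≤ Real.log (1 + x) := by
      have h := Real.one_sub_inv_le_log_of_pos (x := 1 + x) (by linarith)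
      have h2 : x / 2 ≤ 1 - (1 + x)⁻¹ := by
        have h3 : (1 + x)⁻¹ ≤ 1 - x / 2 := by
          rw [inv_eq_one_div, div_le_iff₀ (by linarith)]
          nlinarith
        linarith
      linarith
    have hlog2 : Real.log (1 + x) ≤ 1 := by
      have h := Real.log_le_sub_one_of_pos (x := 1 + x) (by linarith)
      linarith
    have hm0 : (0 : ℝ) ≤ m := Nat.cast_nonneg m
    -- first factor
    have e1 : (2 * ((m : ℝ) + 1) * ((1 + x)⁻¹) ^ m) ^ (1 - t) ≤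
        2 * (m + 1) * Real.exp (-(1 - t) * Real.log (1 + x) * m) := by
      rw [Real.mul_rpow (by positivity) (by positivity)]
      have a1 : (2 * ((m : ℝ) + 1)) ^ (1 - t) ≤ 2 * (m + 1) := by
        calc (2 * ((m : ℝ) + 1)) ^ (1 - t) ≤ (2 * ((m : ℝ) + 1)) ^ (1 : ℝ) :=
              Real.rpow_le_rpow_of_exponent_le (by linarith) (by linarith)
          _ = _ := Real.rpow_one _
      have a2 : (((1 + x)⁻¹) ^ m) ^ (1 - t) = Real.exp (-(1 - t) * Real.log (1 + x) * m) := by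
        rw [Real.rpow_def_of_pos (by positivity), Real.log_pow, Real.log_inv]
        congr 1
        ring
      rw [a2]
      gcongr
    have e2 : ((b1 ^ k) ^ (m + 1)) ^ t = Real.exp (t * L) * Real.exp (t * L * m) := by
      rw [Real.rpow_def_of_pos (by positivity), Real.log_pow, ← hL, ← Real.exp_add]
      congr 1
      push_cast
      ring
    have e3 : Real.exp (t * L) ≤ 2 := by
      have h1 : t * L ≤ 1 / 16 := by nlinarith
      have h2 : Real.exp (t * L) ≤ Real.exp (1 / 16) := Real.exp_le_exp.2 h1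
      have h3 : Real.exp (1 / 16 : ℝ) ≤ 2 := by
        have h4 : (1 / 16 : ℝ) ≤ Real.log 2 := by
          have := Real.one_sub_inv_le_log_of_pos (x := (2 : ℝ)) (by norm_num)
          norm_num at this ⊢
          linarith
        calc Real.exp (1 / 16 : ℝ) ≤ Real.exp (Real.log 2) := Real.exp_le_exp.2 h4
          _ = 2 := Real.exp_log (by norm_num)
      linarith
    have e4 : -(1 - t) * Real.log (1 + x) * m + t * L * m ≤ -(x / 4) * m := by
      have h1 : -(1 - t) * Real.log (1 + x) + t * L ≤ -(x / 4) := by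
        have h2 : t * Real.log (1 + x) ≤ t * 1 := by gcongr
        nlinarith
      nlinarith
    have e5 : (((m : ℝ) + 1)) * Real.exp (-(x / 8) * m) ≤ 9 / x := by
      have h1 : 1 + x / 8 * m ≤ Real.exp (x / 8 * m) := by
        have := Real.add_one_le_exp (x / 8 * (m : ℝ))
        linarith
      have h2 : Real.exp (-(x / 8) * m) = (Real.exp (x / 8 * m))⁻¹ := by
        rw [← Real.exp_neg]; congr 1; ring
      rw [h2, ← div_eq_mul_inv, div_le_div_iff₀ (Real.exp_pos _) hx0]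
      have h3 : 0 ≤ x * m := mul_nonneg hx0.le hm0
      linarith
    have e6 : Real.exp (-(x / 8) * m) ≤ ((1 + D⁻¹)⁻¹) ^ m := by
      have h1 : 1 + D⁻¹ ≤ Real.exp (x / 8) := by
        have := Real.add_one_le_exp (x / 8)
        linarith
      have h2 : Real.exp (-(x / 8) * m) = ((Real.exp (x / 8))⁻¹) ^ m := by
        rw [← Real.exp_neg, ← Real.exp_nat_mul]; congr 1; ring
      rw [h2]
      have h3 : 0 < 1 + D⁻¹ := by positivity
      gcongr
    calc (2 * ((m : ℝ) + 1) * ((1 + x)⁻¹) ^ m) ^ (1 - t) * ((b1 ^ k) ^ (m + 1)) ^ t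
        ≤ (2 * (m + 1) * Real.exp (-(1 - t) * Real.log (1 + x) * m)) *
          (Real.exp (t * L) * Real.exp (t * L * m)) := by
          rw [e2]
          exact mul_le_mul_of_nonneg_right e1 (by positivity)
      _ = 2 * (m + 1) * Real.exp (t * L) *
          Real.exp (-(1 - t) * Real.log (1 + x) * m + t * L * m) := by
          rw [Real.exp_add]; ring
      _ ≤ 2 * (m + 1) * 2 * Real.exp (-(x / 4) * m) := by
          gcongr
      _ = 4 * ((m + 1) * Real.exp (-(x / 8) * m)) * Real.exp (-(x / 8) * m) := by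
          rw [show -(x / 4) * (m : ℝ) = -(x / 8) * m + -(x / 8) * m by ring, Real.exp_add]; ring
      _ ≤ 4 * (9 / x) * ((1 + D⁻¹)⁻¹) ^ m := by
          gcongr
      _ ≤ D * ((1 + D⁻¹)⁻¹) ^ m := by
          have h1 : 4 * (9 / x) ≤ D := by
            rw [show 4 * (9 / x) = 36 / x by ring, div_le_iff₀ hx0]
            exact hDx36
          have h3 : 0 < 1 + D⁻¹ := by positivity
          gcongr

end XMONO

open XMONO

theorem t_XMONO (h0 : XMONO0_Stmt) (h1 : XYFIN_Stmt) : XMONO_Stmt := by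
  obtain ⟨B0, hB0, H0⟩ := h0
  obtain ⟨B1, hB1, H1⟩ := h1
  have hB0r : (2 : ℝ) ≤ B0 := by exact_mod_cast hB0
  have hB1r : (2 : ℝ) ≤ B1 := by exact_mod_cast hB1
  refine ⟨36 * B0 * B1, ?_, ?_⟩
  · rw [← NNReal.coe_le_coe]
    push_cast
    nlinarith
  intro c
  obtain ⟨hz8, hz2, -, -⟩ := zst_thm c
  obtain ⟨t, ht0, ht1, hA, hM⟩ := exists_t hB0r hB1r (k := c + 2) (by omega)
  have hz0 : XM.zst c ≠ 0 := by
    intro h
    rw [h] at hz8
    simp at hz8
  have hzt : XM.zst c ≠ ∞ := (hz2.trans_lt (by simp)).ne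
  have h34 : (3 / 4 : ℝ≥0∞) ≠ ∞ := ENNReal.div_ne_top (by simp) (by simp)
  intro z hz m
  have hA' : (1 + (Ba (36 * B0 * B1) c)⁻¹ : ℝ≥0) ≤ (3 / 2 : ℝ≥0) ^ t := by
    rw [← NNReal.coe_le_coe]
    unfold Ba
    push_cast
    exact hA
  have hz' : z ≤ (((3 / 2 : ℝ≥0) ^ t : ℝ≥0) : ℝ≥0∞) * XM.zst c :=
    hz.trans (mul_le_mul' (ENNReal.coe_le_coe.2 hA') le_rfl)
  have k0 : XM.Y c (XM.zst c) m ≤ ((2 * (m + 1) * ((1 + (Ba B0 c)⁻¹)⁻¹) ^ m : ℝ≥0) : ℝ≥0∞) := by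
    refine (H0 c m).trans (le_of_eq ?_)
    push_cast
    rfl
  have k1 : XM.Y c (3 / 4) m ≤ (((Ba B1 c) ^ (m + 1) : ℝ≥0) : ℝ≥0∞) := by
    refine (MONOB.Y_le c _ m).trans (((H1 c).1 m).trans (le_of_eq ?_))
    push_cast
    rfl
  calc XM.Y c z m ≤ XM.Y c (XM.zst c ^ (1 - t) * (3 / 4 : ℝ≥0∞) ^ t) m :=
        YEPS.Y_mono c (hz'.trans (YEPS.le_mid ht0 hz0 hz2)) m
    _ ≤ XM.Y c (XM.zst c) m ^ (1 - t) * XM.Y c (3 / 4) m ^ t :=
        YEPS.Y_hold c ht0 ht1 hzt h34 m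
    _ ≤ ((2 * (m + 1) * ((1 + (Ba B0 c)⁻¹)⁻¹) ^ m : ℝ≥0) : ℝ≥0∞) ^ (1 - t) *
        (((Ba B1 c) ^ (m + 1) : ℝ≥0) : ℝ≥0∞) ^ t :=
        mul_le_mul' (ENNReal.rpow_le_rpow k0 (by linarith)) (ENNReal.rpow_le_rpow k1 ht0.le)
    _ ≤ ((Ba (36 * B0 * B1) c * ((1 + (Ba (36 * B0 * B1) c)⁻¹)⁻¹) ^ m : ℝ≥0) : ℝ≥0∞) := by
        rw [← ENNReal.coe_rpow_of_nonneg _ (by linarith : 0 ≤ 1 - t),
          ← ENNReal.coe_rpow_of_nonneg _ ht0.le, ← ENNReal.coe_mul, ENNReal.coe_le_coe,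
          ← NNReal.coe_le_coe]
        unfold Ba
        push_cast
        exact hM m
    _ = _ := by push_cast; rfl

end Pool.Agent.XMX
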