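import Pool.Agent.XMX.Stmts
import Pool.Agent.XM.Mono0
import Pool.Agent.XM.Zst
import Pool.Agent.XM.InsA
import Pool.Agent.XM.InsB
import Pool.Agent.XM.InsC
import Pool.Agent.XM.InsP

/-!
# Column-convex polygons (MP_f6626d_co): MONO0 with an explicit constant
-/

set_option autoImplicit false

namespace Pool.Agent.XMX

open Finset Pool.Agent.Lib27 Pool.Agent.OC Pool.Agent.XM
open scoped NNReal ENNReal

namespace MONO0

/-- the small number which is allowed in the abstract insertion principle -/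
noncomputable def la (c : ℕ) : ℝ≥0 := (8 * (8 : ℝ≥0) ^ (3 * (c + 2)))⁻¹

theorem cond (c : ℕ) : (2⁻¹ : ℝ≥0) * (1 + la c * (8 : ℝ≥0) ^ (3 * (c + 2)) * ((2⁻¹ : ℝ≥0)⁻¹) ^ 3) ≤ 1 := by
  have h1 : la c * (8 : ℝ≥0) ^ (3 * (c + 2)) * ((2⁻¹ : ℝ≥0)⁻¹) ^ 3 = 1 := by
    rw [inv_inv, show (2 : ℝ≥0) ^ 3 = 8 by norm_num, mul_assoc,
      mul_comm ((8 : ℝ≥0) ^ (3 * (c + 2))) 8]
    exact inv_mul_cancel₀ (by positivity)
  rw [h1, one_add_one_eq_two]
  exact (inv_mul_cancel₀ two_ne_zero).le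

theorem inv_le_la (c : ℕ) : (Ba 4096 c)⁻¹ ≤ la c := by
  unfold la Ba
  refine inv_anti₀ (by positivity) ?_
  rw [show (4096 : ℝ≥0) = 8 * 8 ^ 3 by norm_num, mul_pow, pow_mul]
  gcongr
  exact le_self_pow₀ (by norm_num) (by omega)

theorem la_le (c : ℕ) : la c ≤ 1 := by
  unfold la
  refine inv_le_one_of_one_le₀ ?_
  have h1 : (1 : ℝ≥0) ≤ 8 ^ (3 * (c + 2)) := one_le_pow₀ (by norm_num)
  calc (1 : ℝ≥0) ≤ 8 * 1 := by norm_num
    _ ≤ 8 * 8 ^ (3 * (c + 2)) := by gcongr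

theorem bound (c : ℕ) (y : ℝ≥0) (m : ℕ) (hm : 0 < m) (h : (1 + la c) ^ (m - 1) * y ≤ m) :
    y ≤ 2 * (m + 1) * ((1 + (Ba 4096 c)⁻¹)⁻¹) ^ m := by
  have hx : (1 + (Ba 4096 c)⁻¹) ^ m * y ≤ 2 * (m + 1) := by
    calc (1 + (Ba 4096 c)⁻¹) ^ m * y ≤ (1 + la c) ^ m * y := by
          gcongr
          exact inv_le_la c
      _ = (1 + la c) * ((1 + la c) ^ (m - 1) * y) := by
          obtain ⟨n, rfl⟩ : ∃ n, m = n + 1 := ⟨m - 1, by omega⟩
          rw [Nat.add_sub_cancel, pow_succ]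
          ring
      _ ≤ (1 + 1) * (m + 1) := by
          refine mul_le_mul' (add_le_add le_rfl (la_le c)) (h.trans ?_)
          exact le_self_add
      _ = 2 * (m + 1) := by ring
  rw [inv_pow, ← div_eq_mul_inv, le_div_iff₀ (by positivity), mul_comm]
  exact hx

end MONO0

open MONO0 in
/-- XMONO0: strict monotonicity at the critical point with an explicit rate -/
theorem t_XMONO0 : XMONO0_Stmt := by
  have h1 : XM.INSP_Stmt := XM.insp_thm XM.insa_thm XM.insb_thm XM.insc_thm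
  have h2 : XM.ZST_Stmt := XM.zst_thm
  refine ⟨4096, by norm_num, fun c m => ?_⟩
  obtain ⟨f, hf1, hf2⟩ := h1 c
  obtain ⟨z8, z2, zY, -⟩ := h2 c
  have hY1 : XM.Y c (XM.zst c) m ≤ 1 := (gs_mono _ fun p hp => XM.MONO0.Brp_mono hp).trans (zY m)
  rcases Nat.eq_zero_or_pos m with rfl | hm
  · rw [pow_zero, mul_one]
    refine hY1.trans ?_
    norm_num
  have key := OC.abs_thm' (XM.Wd × XM.Wd) (fun M => XM.Brp (c + 2) M) (XM.MONO0.Hx c) (XM.Wz (XM.zst c)) f 3 1 2⁻¹ (la c)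
    ((8 : ℝ≥0) ^ (3 * (c + 2))) (by norm_num) (by norm_num) (by positivity)
    (inv_le_one_of_one_le₀ one_le_two) (cond c)
    (fun M x hx k hk => ((XM.MONO0.mem_Hx hx k).1 hk).1) (by
      intro M h x hx h0 hM hnot
      have hc : cr x.1 h + cr x.2 h ≤ c := by
        by_contra hcon
        exact hnot ((XM.MONO0.mem_Hx hx h).2 ⟨⟨h0, hM⟩, by omega⟩)
      obtain ⟨g1, g2, g3, g4, g5⟩ := hf1 M h x hx h0 hM hc
      refine ⟨g1, XM.MONO0.Wz_le z8 z2 g2, XM.MONO0.card_le hM hx g1 hc g3 g4, ?_, ?_, ?_⟩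
      · refine (XM.MONO0.mem_Hx g1 _).2 ⟨⟨by omega, by omega⟩, ?_⟩
        exact_mod_cast g5
      · intro k hk
        rw [XM.MONO0.mem_Hx g1, XM.MONO0.mem_Hx hx, g3 k (by exact_mod_cast hk.le)]
        constructor
        · rintro ⟨⟨a1, a2⟩, a3⟩
          exact ⟨⟨a1, by omega⟩, a3⟩
        · rintro ⟨⟨a1, a2⟩, a3⟩
          exact ⟨⟨a1, by omega⟩, a3⟩
      · intro k hk hhk
        obtain ⟨⟨a1, a2⟩, a3⟩ := (XM.MONO0.mem_Hx hx k).1 hk
        refine (XM.MONO0.mem_Hx g1 _).2 ⟨⟨by omega, by omega⟩, ?_⟩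
        have := g4 k (by exact_mod_cast hhk.le)
        push_cast
        rw [this]
        exact a3) (by
      intro M h h0 hM
      refine (hf2 M h h0 hM).mono ?_
      intro x hx
      refine ⟨hx.1, ?_⟩
      by_contra hcon
      exact hx.2 ((XM.MONO0.mem_Hx hx.1 h).2 ⟨⟨h0, hM⟩, by omega⟩)) m hm
  have h3 : ∑ n ∈ range m, gs (XM.Wz (XM.zst c)) (XM.Brp (c + 2) (m + 3 * n)) ≤ m := by
    calc ∑ n ∈ range m, gs (XM.Wz (XM.zst c)) (XM.Brp (c + 2) (m + 3 * n)) ≤ ∑ n ∈ range m, (1 : ℝ≥0∞) :=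
          Finset.sum_le_sum fun n _ => zY _
      _ = m := by rw [Finset.sum_const, Finset.card_range, nsmul_eq_mul, mul_one]
  have h4 : XM.Y c (XM.zst c) m ≤
      gs (fun x => XM.Wz (XM.zst c) x * (((2⁻¹ : ℝ≥0) : ℝ≥0∞) / (1 + la c)) ^ (XM.MONO0.Hx c x).card)
        (XM.Brp (c + 2) m) := by
    refine gs_le _ _ (fun p hp => XM.MONO0.Brp_mono hp) fun p hp => ?_
    rw [XM.MONO0.Hx_empty hp, Finset.card_empty, pow_zero, mul_one]
  have h6 : (1 + (la c : ℝ≥0∞)) ^ (m - 1) * XM.Y c (XM.zst c) m ≤ m :=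
    (mul_le_mul_right h4 _).trans (key.trans h3)
  obtain ⟨y, hy⟩ : ∃ y : ℝ≥0, (y : ℝ≥0∞) = XM.Y c (XM.zst c) m :=
    ⟨_, ENNReal.coe_toNNReal (hY1.trans_lt ENNReal.one_lt_top).ne⟩
  rw [← hy] at h6 ⊢
  have h7 : (1 + la c) ^ (m - 1) * y ≤ m := by exact_mod_cast h6
  have h8 := MONO0.bound c y m hm h7
  calc (y : ℝ≥0∞) ≤ ((2 * (m + 1) * ((1 + (Ba 4096 c)⁻¹)⁻¹) ^ m : ℝ≥0) : ℝ≥0∞) :=
        ENNReal.coe_le_coe.2 h8
    _ = _ := by push_cast; rfl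

end Pool.Agent.XMX
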