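import Pool.Agent.XMX.Stmts
import Pool.Agent.XM.Nbb
import Pool.Agent.XM.Nbd

/-!
# XNBB: pairs without cut of parity `b` between two lines, explicit constants
-/

set_option autoImplicit false

namespace Pool.Agent.XMX

open Finset Pool.Agent.Lib27 Pool.Agent.OC Pool.Agent.XM
open scoped NNReal ENNReal

namespace XNBB

lemma Bl_mono {B B' : ℝ≥0} (h : B ≤ B') (c : ℕ) : Bl B c ≤ Bl B' c := by
  unfold Bl
  exact pow_le_pow_left₀ (zero_le) h _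

lemma two_le_Bl {B : ℝ≥0} (h : 2 ≤ B) (c : ℕ) : 2 ≤ Bl B c := by
  unfold Bl
  have h1 : (1 : ℝ≥0) ≤ B := le_trans (by norm_num) h
  have h2 : 1 ≤ (c + 2) ^ 2 := Nat.one_le_pow _ _ (by omega)
  calc (2 : ℝ≥0) ≤ B := h
    _ = B ^ 1 := (pow_one _).symm
    _ ≤ B ^ ((c + 2) ^ 2) := pow_le_pow_right₀ h1 h2

lemma Bl_pow (B : ℝ≥0) (n c : ℕ) : Bl (B ^ n) c = Bl B c ^ n := by
  unfold Bl
  rw [← pow_mul, ← pow_mul, mul_comm]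

/-- the rate is monotone -/
lemma rate_mono {D D' : ℝ≥0} (hD : 0 < D) (h : D ≤ D') : (1 + D⁻¹)⁻¹ ≤ (1 + D'⁻¹)⁻¹ := by
  have h1 : D'⁻¹ ≤ D⁻¹ := inv_anti₀ hD h
  have h2 : 1 + D'⁻¹ ≤ 1 + D⁻¹ := add_le_add le_rfl h1
  exact inv_anti₀ (by positivity) h2

/-- `n + 1 ≤ 4 D (1 + (4 D)⁻¹)^n` -/
lemma succ_le {D : ℝ≥0} (hD : 1 ≤ D) (n : ℕ) :
    (n : ℝ≥0) + 1 ≤ (4 * D) * (1 + (4 * D)⁻¹) ^ n := by
  have hD0 : (0 : ℝ≥0) < 4 * D := by positivity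
  induction n with
  | zero =>
    simp only [Nat.cast_zero, zero_add, pow_zero, mul_one]
    calc (1 : ℝ≥0) ≤ D := hD
      _ ≤ 4 * D := le_mul_of_one_le_left (zero_le) (by norm_num)
  | succ n ih =>
    have h2 : (1 : ℝ≥0) ≤ (1 + (4 * D)⁻¹) ^ n := one_le_pow₀ (by simp)
    calc ((n + 1 : ℕ) : ℝ≥0) + 1 = ((n : ℝ≥0) + 1) + 1 := by push_cast; ring
      _ ≤ (4 * D) * (1 + (4 * D)⁻¹) ^ n + (1 + (4 * D)⁻¹) ^ n := add_le_add ih h2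
      _ = (4 * D) * (1 + (4 * D)⁻¹) ^ n + ((4 * D) * (4 * D)⁻¹) * (1 + (4 * D)⁻¹) ^ n := by
          rw [mul_inv_cancel₀ hD0.ne', one_mul]
      _ = (4 * D) * (1 + (4 * D)⁻¹) ^ (n + 1) := by ring

/-- `(1 + δ)^2 (1 + D⁻¹)⁻¹ ≤ (1 + δ)⁻¹` for `δ = (4 D)⁻¹` -/
lemma rate3 {D : ℝ≥0} (hD : 2 ≤ D) :
    (1 + (4 * D)⁻¹) * (1 + (4 * D)⁻¹) * (1 + D⁻¹)⁻¹ ≤ (1 + (4 * D)⁻¹)⁻¹ := by
  have hD0 : (0 : ℝ≥0) < D := lt_of_lt_of_le (by norm_num) hD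
  set δ : ℝ≥0 := (4 * D)⁻¹ with hδ
  have h1 : D⁻¹ = 4 * δ := by
    rw [hδ, mul_inv, ← mul_assoc, mul_inv_cancel₀ (by norm_num : (4 : ℝ≥0) ≠ 0), one_mul]
  have h2 : δ ≤ 8⁻¹ := by
    rw [hδ]
    apply inv_anti₀ (by norm_num)
    calc (8 : ℝ≥0) = 4 * 2 := by norm_num
      _ ≤ 4 * D := by gcongr
  have h3 : (1 + δ) * (1 + δ) * (1 + δ) ≤ 1 + D⁻¹ := by
    rw [h1]
    have hr : (δ : ℝ) ≤ 8⁻¹ := by exact_mod_cast h2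
    have h0 : (0 : ℝ) ≤ δ := δ.2
    rw [← NNReal.coe_le_coe]
    push_cast
    nlinarith [mul_nonneg h0 h0, mul_nonneg (mul_nonneg h0 h0) h0,
      mul_nonneg h0 (sub_nonneg.2 hr), mul_nonneg (mul_nonneg h0 h0) (sub_nonneg.2 hr)]
  have hpos : (0 : ℝ≥0) < 1 + D⁻¹ := by positivity
  have hpos' : (0 : ℝ≥0) < 1 + δ := by positivity
  rw [← div_eq_mul_inv, div_le_iff₀ hpos]
  calc (1 + δ) * (1 + δ) = (1 + δ)⁻¹ * ((1 + δ) * (1 + δ) * (1 + δ)) := by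
        field_simp
    _ ≤ (1 + δ)⁻¹ * (1 + D⁻¹) := by gcongr

lemma const_le {D : ℝ≥0} (hD : 2 ≤ D) : D + (4 * D) * (4 * D) * (D * D) ≤ D ^ 9 := by
  have h1 : (1 : ℝ≥0) ≤ D := le_trans (by norm_num) hD
  have h2 : D ≤ D ^ 4 := by
    calc D = D ^ 1 := (pow_one _).symm
      _ ≤ D ^ 4 := pow_le_pow_right₀ h1 (by norm_num)
  calc D + (4 * D) * (4 * D) * (D * D) = D + 16 * D ^ 4 := by ring
    _ ≤ D ^ 4 + 16 * D ^ 4 := by gcongr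
    _ = 17 * D ^ 4 := by ring
    _ ≤ 2 ^ 5 * D ^ 4 := by
        gcongr
        norm_num
    _ ≤ D ^ 5 * D ^ 4 := by gcongr
    _ = D ^ 9 := by ring

lemma four_le {D : ℝ≥0} (hD : 2 ≤ D) : 4 * D ≤ D ^ 9 := by
  have h1 : (1 : ℝ≥0) ≤ D := le_trans (by norm_num) hD
  calc 4 * D = 2 ^ 2 * D := by norm_num
    _ ≤ D ^ 2 * D := by gcongr
    _ = D ^ 3 := by ring
    _ ≤ D ^ 9 := pow_le_pow_right₀ h1 (by norm_num)

end XNBB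

open XNBB in
/-- XNBB -/
theorem t_XNBB (h1 : XNCB_Stmt) (h2 : XEVN_Stmt) : XNBB_Stmt := by
  obtain ⟨B1, hB1, hN⟩ := h1
  obtain ⟨B2, hB2, hE⟩ := h2
  have hB0 : 2 ≤ max B1 B2 := hB1.trans (le_max_left _ _)
  set B0 : ℝ≥0 := max B1 B2 with hB0'
  refine ⟨B0 ^ 9, ?_, ?_⟩
  · calc (2 : ℝ≥0) ≤ B0 := hB0
      _ = B0 ^ 1 := (pow_one _).symm
      _ ≤ B0 ^ 9 := pow_le_pow_right₀ (le_trans (by norm_num) hB0) (by norm_num)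
  intro c a ha0 ha1 z hz b e d H
  have hBp : Bl (B0 ^ 9) c = Bl B0 c ^ 9 := Bl_pow _ _ _
  have hD2 : 2 ≤ Bl B0 c := two_le_Bl hB0 c
  set D : ℝ≥0 := Bl B0 c with hD
  have hD1 : 1 ≤ D := le_trans (by norm_num) hD2
  have hD9 : D ≤ D ^ 9 := by
    calc D = D ^ 1 := (pow_one _).symm
      _ ≤ D ^ 9 := pow_le_pow_right₀ hD1 (by norm_num)
  have hE1 : Bl B1 c ≤ D := Bl_mono (le_max_left _ _) c
  have hE2 : Bl B2 c ≤ D := Bl_mono (le_max_right _ _) c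
  have hp1 : 0 < Bl B1 c := lt_of_lt_of_le (by norm_num) (two_le_Bl hB1 c)
  have hp2 : 0 < Bl B2 c := lt_of_lt_of_le (by norm_num) (two_le_Bl hB2 c)
  rw [hBp] at hz ⊢
  have hz1 : z ≤ (1 + a / Bl B1 c : ℝ≥0) * zst c := by
    refine hz.trans ?_
    refine mul_le_mul' ?_ le_rfl
    refine ENNReal.coe_le_coe.2 (add_le_add le_rfl ?_)
    exact div_le_div_of_nonneg_left (zero_le) hp1 (hE1.trans hD9)
  have hz2 : z ≤ (1 + (Bl B2 c)⁻¹ : ℝ≥0) * zst c := by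
    refine hz.trans ?_
    refine mul_le_mul' ?_ le_rfl
    refine ENNReal.coe_le_coe.2 (add_le_add le_rfl ?_)
    calc a / D ^ 9 ≤ 1 / D ^ 9 := by gcongr
      _ = (D ^ 9)⁻¹ := one_div _
      _ ≤ (Bl B2 c)⁻¹ := inv_anti₀ hp2 (hE2.trans hD9)
  have hN' := hN c a ha0 ha1 z hz1
  have hE' := hE c z hz2
  set r0 : ℝ≥0 := (1 + D⁻¹)⁻¹ with hr0
  set r : ℝ≥0 := (1 + (D ^ 9)⁻¹)⁻¹ with hr
  set A : ℝ≥0 := 1 + a with hAdef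
  have hA1 : (1 : ℝ≥0∞) ≤ A := by
    have : (1 : ℝ≥0) ≤ A := by rw [hAdef]; simp
    exact_mod_cast this
  have hr1 : (1 + (Bl B1 c)⁻¹)⁻¹ ≤ r0 := rate_mono hp1 hE1
  have hr2 : (1 + (Bl B2 c)⁻¹)⁻¹ ≤ r0 := rate_mono hp2 hE2
  have hE1E : (Bl B1 c : ℝ≥0∞) ≤ D := by exact_mod_cast hE1
  have hr1E : (((1 + (Bl B1 c)⁻¹)⁻¹ : ℝ≥0) : ℝ≥0∞) ≤ r0 := by exact_mod_cast hr1
  have hr2E : (((1 + (Bl B2 c)⁻¹)⁻¹ : ℝ≥0) : ℝ≥0∞) ≤ r0 := by exact_mod_cast hr2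
  have hNN : ∀ e d H : ℕ, gs (Wz z) (Nc (c + 2) e (H - d) H) ≤
      (D : ℝ≥0∞) * (A : ℝ≥0∞) ^ (e + d) * (r0 : ℝ≥0∞) ^ (H - (e + d)) := by
    intro e d H
    refine (hN' e d H).trans ?_
    gcongr
  have hEE : ∀ l : ℕ, gs (Wz z) (Evp (c + 2) l) ≤ (r0 : ℝ≥0∞) ^ l := by
    intro l
    refine (hE' l).trans ?_
    gcongr
  -- the intermediate rate
  set δ : ℝ≥0 := (4 * D)⁻¹ with hδ
  have hrr : (1 + δ) * (1 + δ) * r0 ≤ r := by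
    refine (rate3 hD2).trans ?_
    exact rate_mono (by positivity) (four_le hD2)
  have hr0r : r0 ≤ r := rate_mono (by positivity) hD9
  have hrE : ((1 + δ : ℝ≥0) : ℝ≥0∞) * ((1 + δ : ℝ≥0) : ℝ≥0∞) * r0 ≤ r := by
    exact_mod_cast hrr
  have hr0E : (r0 : ℝ≥0∞) ≤ r := by exact_mod_cast hr0r
  have hKE : ∀ n : ℕ, (n : ℝ≥0∞) + 1 ≤ ((4 * D : ℝ≥0) : ℝ≥0∞) * ((1 + δ : ℝ≥0) : ℝ≥0∞) ^ n := by
    intro n
    have := succ_le hD1 n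
    exact_mod_cast this
  set K : ℝ≥0 := 4 * D with hK
  rcases lt_or_ge e (H - d) with h | h
  · set B := H - d with hB
    set n := B - e with hn
    have hn' : H - (e + d) = n := by omega
    set s := (Ioo e B ×ˢ Ioo e B).filter (fun i => i.1 ≤ i.2) with hs
    have hcard : (s.card : ℝ≥0∞) ≤
        (K * ((1 + δ : ℝ≥0) : ℝ≥0∞) ^ n) * (K * ((1 + δ : ℝ≥0) : ℝ≥0∞) ^ n) := by
      calc (s.card : ℝ≥0∞) ≤ (((n + 1) * (n + 1) : ℕ) : ℝ≥0∞) := by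
            exact_mod_cast NBB.card_le e B
        _ = ((n : ℝ≥0∞) + 1) * ((n : ℝ≥0∞) + 1) := by push_cast; rfl
        _ ≤ _ := mul_le_mul' (hKE n) (hKE n)
    have hterm : ∀ i ∈ s,
        gs (Wz z) (Nc (c + 2) e i.1 i.1) * gs (Wz z) (Evp (c + 2) (i.2 - i.1)) *
          gs (Wz z) (Nc (c + 2) 0 (B - i.2) (H - i.2)) ≤
        (D * D) * ((A : ℝ≥0∞) ^ (e + d) * (r0 : ℝ≥0∞) ^ n) := by
      intro i hi
      simp only [hs, mem_filter, mem_product, mem_Ioo] at hi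
      have b1 : gs (Wz z) (Nc (c + 2) e i.1 i.1) ≤
          D * (A : ℝ≥0∞) ^ e * (r0 : ℝ≥0∞) ^ (i.1 - e) := by
        have := hNN e 0 i.1
        simp only [Nat.sub_zero, add_zero] at this
        exact this
      have b2 : gs (Wz z) (Evp (c + 2) (i.2 - i.1)) ≤ (r0 : ℝ≥0∞) ^ (i.2 - i.1) := hEE _
      have b3 : gs (Wz z) (Nc (c + 2) 0 (B - i.2) (H - i.2)) ≤
          D * (A : ℝ≥0∞) ^ d * (r0 : ℝ≥0∞) ^ (B - i.2) := by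
        have := hNN 0 d (H - i.2)
        rw [show H - i.2 - d = B - i.2 by omega, zero_add,
          show H - i.2 - d = B - i.2 by omega] at this
        exact this
      have e3 : (r0 : ℝ≥0∞) ^ (i.1 - e) * (r0 : ℝ≥0∞) ^ (i.2 - i.1) * (r0 : ℝ≥0∞) ^ (B - i.2) =
          (r0 : ℝ≥0∞) ^ n := by
        rw [← pow_add, ← pow_add]
        congr 1
        omega
      calc gs (Wz z) (Nc (c + 2) e i.1 i.1) * gs (Wz z) (Evp (c + 2) (i.2 - i.1)) *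
            gs (Wz z) (Nc (c + 2) 0 (B - i.2) (H - i.2))
          ≤ (D * (A : ℝ≥0∞) ^ e * (r0 : ℝ≥0∞) ^ (i.1 - e)) * ((r0 : ℝ≥0∞) ^ (i.2 - i.1)) *
            (D * (A : ℝ≥0∞) ^ d * (r0 : ℝ≥0∞) ^ (B - i.2)) :=
            mul_le_mul' (mul_le_mul' b1 b2) b3
        _ = (D * D) * ((A : ℝ≥0∞) ^ (e + d) * ((r0 : ℝ≥0∞) ^ (i.1 - e) *
            (r0 : ℝ≥0∞) ^ (i.2 - i.1) * (r0 : ℝ≥0∞) ^ (B - i.2))) := by
            rw [pow_add]; ring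
        _ = _ := by rw [e3]
    have hsum : ∑ i ∈ s, gs (Wz z) (Nc (c + 2) e i.1 i.1) *
          gs (Wz z) (Evp (c + 2) (i.2 - i.1)) *
          gs (Wz z) (Nc (c + 2) 0 (B - i.2) (H - i.2)) ≤
        (K * K * (D * D)) * (A : ℝ≥0∞) ^ (e + d) * (r : ℝ≥0∞) ^ n := by
      calc _ ≤ ∑ _i ∈ s, (D * D) * ((A : ℝ≥0∞) ^ (e + d) * (r0 : ℝ≥0∞) ^ n) :=
            sum_le_sum hterm
        _ = (s.card : ℝ≥0∞) * ((D * D) * ((A : ℝ≥0∞) ^ (e + d) * (r0 : ℝ≥0∞) ^ n)) := by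
            rw [sum_const, nsmul_eq_mul]
        _ ≤ ((K * ((1 + δ : ℝ≥0) : ℝ≥0∞) ^ n) * (K * ((1 + δ : ℝ≥0) : ℝ≥0∞) ^ n)) *
            ((D * D) * ((A : ℝ≥0∞) ^ (e + d) * (r0 : ℝ≥0∞) ^ n)) := by gcongr
        _ = (K * K * (D * D)) * (A : ℝ≥0∞) ^ (e + d) *
            (((1 + δ : ℝ≥0) : ℝ≥0∞) * ((1 + δ : ℝ≥0) : ℝ≥0∞) * r0) ^ n := by
            rw [mul_pow, mul_pow]
            ring
        _ ≤ _ := by gcongr
    have hfin : (D : ℝ≥0∞) + K * K * (D * D) ≤ ((D ^ 9 : ℝ≥0) : ℝ≥0∞) := by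
      have := const_le hD2
      exact_mod_cast this
    calc gs (Wz z) (Nb b (c + 2) e B H)
        ≤ gs (Wz z) (Nc (c + 2) e B H) + ∑ i ∈ s, gs (Wz z) (Nc (c + 2) e i.1 i.1) *
          gs (Wz z) (Evp (c + 2) (i.2 - i.1)) *
          gs (Wz z) (Nc (c + 2) 0 (B - i.2) (H - i.2)) :=
          nbd_thm c z b e B H h (Nat.sub_le _ _)
      _ ≤ D * (A : ℝ≥0∞) ^ (e + d) * (r : ℝ≥0∞) ^ n +
          (K * K * (D * D)) * (A : ℝ≥0∞) ^ (e + d) * (r : ℝ≥0∞) ^ n := by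
          refine add_le_add ?_ hsum
          have := hNN e d H
          rw [hn'] at this
          refine this.trans ?_
          gcongr
      _ = (D + K * K * (D * D)) * (A : ℝ≥0∞) ^ (e + d) * (r : ℝ≥0∞) ^ n := by ring
      _ ≤ ((D ^ 9 : ℝ≥0) : ℝ≥0∞) * (A : ℝ≥0∞) ^ (e + d) * (r : ℝ≥0∞) ^ n := by gcongr
      _ = _ := by rw [hn']
  · have hsub : Nb b (c + 2) e (H - d) H ⊆ Nc (c + 2) e (H - d) H := by
      intro p hp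
      refine ⟨hp.1, fun k hk1 hk2 => ?_⟩
      exfalso
      have : ((H - d : ℕ) : ℤ) ≤ e := by exact_mod_cast h
      omega
    have h0 : H - (e + d) = 0 := by omega
    calc gs (Wz z) (Nb b (c + 2) e (H - d) H) ≤ gs (Wz z) (Nc (c + 2) e (H - d) H) :=
          gs_mono _ hsub
      _ ≤ (D : ℝ≥0∞) * (A : ℝ≥0∞) ^ (e + d) * (r0 : ℝ≥0∞) ^ (H - (e + d)) := hNN e d H
      _ ≤ ((D ^ 9 : ℝ≥0) : ℝ≥0∞) * (A : ℝ≥0∞) ^ (e + d) * (r : ℝ≥0∞) ^ (H - (e + d)) := by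
          gcongr

end Pool.Agent.XMX
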