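import Pool.Agent.XMX.Stmts
import Pool.Agent.XM.Ncb
import Pool.Agent.XM.RenU

/-!
# XNCB: pairs without cut between two lines, explicit constants
-/

set_option autoImplicit false

namespace Pool.Agent.XMX

open Finset Pool.Agent.Lib27 Pool.Agent.OC Pool.Agent.XM
open scoped NNReal ENNReal

namespace NCBX

lemma geo (D r : ℝ≥0) (h : r * (D + 1) = D) (n : ℕ) : ∑ k ∈ range n, r ^ k ≤ D + 1 := by
  induction n with
  | zero => simp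
  | succ n ih =>
    rw [geom_sum_succ]
    calc r * ∑ i ∈ range n, r ^ i + 1 ≤ r * (D + 1) + 1 := by gcongr
      _ = D + 1 := by rw [h]

lemma r_mul (D : ℝ≥0) (h : 0 < D) : (1 + D⁻¹)⁻¹ * (D + 1) = D := by
  have h1 : (1 + D⁻¹) * D = D + 1 := by
    rw [add_mul, one_mul, inv_mul_cancel₀ h.ne']
  rw [← h1, ← mul_assoc, inv_mul_cancel₀ (by positivity), one_mul]

lemma r_le (D : ℝ≥0) : (1 + D⁻¹)⁻¹ ≤ 1 := inv_le_one_of_one_le₀ (by simp)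

lemma r_mono {D E : ℝ≥0} (hD : 0 < D) (h : D ≤ E) : (1 + D⁻¹)⁻¹ ≤ (1 + E⁻¹)⁻¹ := by
  gcongr

lemma double_geo (D r : ℝ≥0) (h : r * (D + 1) = D) (e d H : ℕ) (hdH : d ≤ H) :
    ∑ i ∈ (range (e + 1) ×ˢ range (H + 1)).filter
      (fun i => H - d ≤ i.1 + i.2 ∧ i.1 + i.2 ≤ H),
      r ^ (e - i.1) * r ^ (d - (H - (i.1 + i.2))) ≤ (D + 1) * (D + 1) := by
  calc ∑ i ∈ (range (e + 1) ×ˢ range (H + 1)).filter
          (fun i => H - d ≤ i.1 + i.2 ∧ i.1 + i.2 ≤ H),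
        r ^ (e - i.1) * r ^ (d - (H - (i.1 + i.2)))
      = ∑ i ∈ Finset.image (fun i : ℕ × ℕ => (e - i.1, d - (H - (i.1 + i.2))))
          ((range (e + 1) ×ˢ range (H + 1)).filter
          (fun i => H - d ≤ i.1 + i.2 ∧ i.1 + i.2 ≤ H)), r ^ i.1 * r ^ i.2 := by
        rw [sum_image]
        intro i hi j hj hij
        simp only [coe_filter, mem_product, mem_range, Set.mem_setOf_eq] at hi hj
        simp only [Prod.mk.injEq] at hij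
        ext <;> omega
    _ ≤ ∑ i ∈ range (e + 1) ×ˢ range (d + 1), r ^ i.1 * r ^ i.2 := by
        refine sum_le_sum_of_subset ?_
        intro i hi
        simp only [mem_image, mem_filter, mem_product, mem_range] at hi ⊢
        obtain ⟨j, hj, rfl⟩ := hi
        simp only
        omega
    _ = (∑ i ∈ range (e + 1), r ^ i) * ∑ j ∈ range (d + 1), r ^ j := by
        rw [sum_product, sum_mul_sum]
    _ ≤ (D + 1) * (D + 1) := mul_le_mul' (geo D r h _) (geo D r h _)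

lemma one_le_Bl {B : ℝ≥0} (h : 1 ≤ B) (c : ℕ) : 1 ≤ Bl B c := one_le_pow₀ h

lemma sixteen_le (c : ℕ) : (16 : ℝ≥0) ≤ 2 ^ ((c + 2) ^ 2) := by
  calc (16 : ℝ≥0) = 2 ^ 4 := by norm_num
    _ ≤ 2 ^ ((c + 2) ^ 2) := pow_le_pow_right₀ (by norm_num) (by
        nlinarith [Nat.zero_le c, sq_nonneg c])

lemma lin_le (c : ℕ) : ((c : ℝ≥0) + 2) ≤ 2 ^ ((c + 2) ^ 2) := by
  have h1 : c + 2 ≤ 2 ^ (c + 2) := (Nat.lt_two_pow_self).le
  have h2 : (2 : ℕ) ^ (c + 2) ≤ 2 ^ ((c + 2) ^ 2) :=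
    Nat.pow_le_pow_right (by norm_num) (by nlinarith)
  have h3 : c + 2 ≤ 2 ^ ((c + 2) ^ 2) := h1.trans h2
  exact_mod_cast h3

lemma self_le_Bl {B : ℝ≥0} (h : 1 ≤ B) (c : ℕ) : B ≤ Bl B c := by
  unfold Bl
  exact le_self_pow₀ h (by positivity)

end NCBX

theorem t_XNCB (h1 : XGAP_Stmt) (h2 : XYEPS_Stmt) : XNCB_Stmt := by
  obtain ⟨B0, hB0, hg⟩ := h1
  obtain ⟨B2, hB2, hY⟩ := h2
  have hB01 : (1 : ℝ≥0) ≤ B0 := one_le_two.trans hB0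
  have hB21 : (1 : ℝ≥0) ≤ B2 := one_le_two.trans hB2
  refine ⟨2 * B0 ^ 3 * B2, ?_, ?_⟩
  · calc (2 : ℝ≥0) = 2 * 1 * 1 := by norm_num
      _ ≤ 2 * B0 ^ 3 * B2 := by
        gcongr
        exact one_le_pow₀ hB01
  intro c a ha0 ha1 z hz e d H
  set D : ℝ≥0 := Bl B0 c with hD
  set E : ℝ≥0 := Bl (2 * B0 ^ 3 * B2) c with hE
  have hD1 : (1 : ℝ≥0) ≤ D := NCBX.one_le_Bl hB01 c
  have hD0 : 0 < D := zero_lt_one.trans_le hD1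
  have hF1 : (1 : ℝ≥0) ≤ Bl B2 c := NCBX.one_le_Bl hB21 c
  have hEeq : E = 2 ^ ((c + 2) ^ 2) * D ^ 3 * Bl B2 c := by
    rw [hE, hD]
    unfold Bl
    rw [mul_pow, mul_pow, ← pow_mul, ← pow_mul, mul_comm 3]
  have hE16 : 16 * D ^ 3 ≤ E := by
    rw [hEeq]
    calc 16 * D ^ 3 = 16 * D ^ 3 * 1 := by ring
      _ ≤ _ := by
        gcongr
        exact NCBX.sixteen_le c
  have hElin : B2 * ((c : ℝ≥0) + 2) ≤ E := by
    rw [hEeq]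
    calc B2 * ((c : ℝ≥0) + 2) = ((c : ℝ≥0) + 2) * 1 * B2 := by ring
      _ ≤ _ := by
        gcongr
        · exact NCBX.lin_le c
        · exact one_le_pow₀ hD1
        · exact NCBX.self_le_Bl hB21 c
  have hDE : D ≤ E := by
    refine le_trans ?_ hE16
    calc D = 1 * D := (one_mul _).symm
      _ ≤ 16 * D ^ 3 := by
        gcongr
        · norm_num
        · exact le_self_pow₀ hD1 (by norm_num)
  have hE2 : 2 ≤ E := by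
    refine le_trans ?_ hE16
    calc (2 : ℝ≥0) ≤ 16 * 1 := by norm_num
      _ ≤ 16 * D ^ 3 := by
        gcongr
        exact one_le_pow₀ hD1
  have hE0 : 0 < E := hD0.trans_le hDE
  have hz1 : z ≤ (1 + D⁻¹ : ℝ≥0) * zst c := by
    refine hz.trans ?_
    gcongr
    rw [← one_div]
    gcongr
  have hz2 : z ≤ (1 + a / (B2 * (c + 2)) : ℝ≥0) * zst c := by
    refine hz.trans ?_
    gcongr
  have hY' := hY c a ha0 ha1 z hz2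
  have hg' := hg c z hz1
  rw [← hD] at hg'
  set r : ℝ≥0 := (1 + D⁻¹)⁻¹ with hr
  have hrE : r ≤ (1 + E⁻¹)⁻¹ := NCBX.r_mono hD0 hDE
  have hrm : r * (D + 1) = D := NCBX.r_mul D hD0
  have hA1 : (1 : ℝ≥0∞) ≤ ((1 + a : ℝ≥0) : ℝ≥0∞) := by
    exact_mod_cast (le_self_add : (1 : ℝ≥0) ≤ 1 + a)
  have hA2 : ((1 + a : ℝ≥0) : ℝ≥0∞) ≤ 2 := by
    have : (1 + a : ℝ≥0) ≤ 2 := by
      calc (1 + a : ℝ≥0) ≤ 1 + 1 := by gcongr
        _ = 2 := by norm_num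
    exact_mod_cast this
  rcases lt_or_ge e (H - d) with h | h
  · have hdH : d ≤ H := by omega
    set s := (range (e + 1) ×ˢ range (H + 1)).filter
      (fun i => H - d ≤ i.1 + i.2 ∧ i.1 + i.2 ≤ H) with hs
    have hterm : ∀ i ∈ s,
        Y (c + 2) z i.1 * ww (c + 2) z i.2 * Y (c + 2) z (H - (i.1 + i.2)) ≤
        (4 * (D : ℝ≥0∞) * (((1 + a : ℝ≥0) : ℝ≥0∞) ^ (e + d) * (r : ℝ≥0∞) ^ (H - (e + d)))) *
          ((r ^ (e - i.1) * r ^ (d - (H - (i.1 + i.2))) : ℝ≥0) : ℝ≥0∞) := by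
      intro i hi
      simp only [hs, mem_filter, mem_product, mem_range] at hi
      have a1 : ((1 + a : ℝ≥0) : ℝ≥0∞) ^ (i.1 + 1) *
          ((1 + a : ℝ≥0) : ℝ≥0∞) ^ (H - (i.1 + i.2) + 1) ≤
          4 * ((1 + a : ℝ≥0) : ℝ≥0∞) ^ (e + d) := by
        rw [← pow_add]
        calc ((1 + a : ℝ≥0) : ℝ≥0∞) ^ (i.1 + 1 + (H - (i.1 + i.2) + 1))
            ≤ ((1 + a : ℝ≥0) : ℝ≥0∞) ^ (2 + (e + d)) := pow_le_pow_right₀ hA1 (by omega)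
          _ = ((1 + a : ℝ≥0) : ℝ≥0∞) ^ 2 * ((1 + a : ℝ≥0) : ℝ≥0∞) ^ (e + d) := pow_add _ _ _
          _ ≤ 2 ^ 2 * ((1 + a : ℝ≥0) : ℝ≥0∞) ^ (e + d) := by gcongr
          _ = 4 * ((1 + a : ℝ≥0) : ℝ≥0∞) ^ (e + d) := by norm_num
      have a2 : (r : ℝ≥0∞) ^ i.2 = (r : ℝ≥0∞) ^ (H - (e + d)) *
          ((r ^ (e - i.1) * r ^ (d - (H - (i.1 + i.2))) : ℝ≥0) : ℝ≥0∞) := by
        push_cast
        rw [← pow_add, ← pow_add]
        congr 1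
        omega
      calc Y (c + 2) z i.1 * ww (c + 2) z i.2 * Y (c + 2) z (H - (i.1 + i.2))
          ≤ ((1 + a : ℝ≥0) : ℝ≥0∞) ^ (i.1 + 1) * ((D : ℝ≥0∞) * (r : ℝ≥0∞) ^ i.2) *
            ((1 + a : ℝ≥0) : ℝ≥0∞) ^ (H - (i.1 + i.2) + 1) :=
            mul_le_mul' (mul_le_mul' (hY' _) (hg' _)) (hY' _)
        _ = (((1 + a : ℝ≥0) : ℝ≥0∞) ^ (i.1 + 1) *
              ((1 + a : ℝ≥0) : ℝ≥0∞) ^ (H - (i.1 + i.2) + 1)) *
            ((D : ℝ≥0∞) * (r : ℝ≥0∞) ^ i.2) := by ring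
        _ ≤ (4 * ((1 + a : ℝ≥0) : ℝ≥0∞) ^ (e + d)) * ((D : ℝ≥0∞) * (r : ℝ≥0∞) ^ i.2) := by
            gcongr
        _ = _ := by rw [a2]; ring
    have hsum : ∑ i ∈ s, ((r ^ (e - i.1) * r ^ (d - (H - (i.1 + i.2))) : ℝ≥0) : ℝ≥0∞) ≤
        (((D + 1) * (D + 1) : ℝ≥0) : ℝ≥0∞) := by
      have := NCBX.double_geo D r hrm e d H hdH
      exact_mod_cast this
    have hDD : 4 * D * ((D + 1) * (D + 1)) ≤ E := by
      refine le_trans ?_ hE16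
      calc 4 * D * ((D + 1) * (D + 1)) ≤ 4 * D * ((D + D) * (D + D)) := by gcongr
        _ = 16 * D ^ 3 := by ring
    calc gs (Wz z) (Nc (c + 2) e (H - d) H)
        ≤ ∑ i ∈ s, Y (c + 2) z i.1 * ww (c + 2) z i.2 * Y (c + 2) z (H - (i.1 + i.2)) :=
          renu_thm c z e (H - d) H h (Nat.sub_le _ _)
      _ ≤ ∑ i ∈ s, (4 * (D : ℝ≥0∞) *
            (((1 + a : ℝ≥0) : ℝ≥0∞) ^ (e + d) * (r : ℝ≥0∞) ^ (H - (e + d)))) *
          ((r ^ (e - i.1) * r ^ (d - (H - (i.1 + i.2))) : ℝ≥0) : ℝ≥0∞) :=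
          sum_le_sum hterm
      _ = (4 * (D : ℝ≥0∞) *
            (((1 + a : ℝ≥0) : ℝ≥0∞) ^ (e + d) * (r : ℝ≥0∞) ^ (H - (e + d)))) *
          ∑ i ∈ s, ((r ^ (e - i.1) * r ^ (d - (H - (i.1 + i.2))) : ℝ≥0) : ℝ≥0∞) := by
          rw [mul_sum]
      _ ≤ (4 * (D : ℝ≥0∞) *
            (((1 + a : ℝ≥0) : ℝ≥0∞) ^ (e + d) * (r : ℝ≥0∞) ^ (H - (e + d)))) *
          (((D + 1) * (D + 1) : ℝ≥0) : ℝ≥0∞) := by gcongr
      _ = ((4 * D * ((D + 1) * (D + 1)) : ℝ≥0) : ℝ≥0∞) * ((1 + a : ℝ≥0) : ℝ≥0∞) ^ (e + d) *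
          (r : ℝ≥0∞) ^ (H - (e + d)) := by
          push_cast
          ring
      _ ≤ (E : ℝ≥0∞) * ((1 + a : ℝ≥0) : ℝ≥0∞) ^ (e + d) *
          (((1 + E⁻¹)⁻¹ : ℝ≥0) : ℝ≥0∞) ^ (H - (e + d)) := by
          gcongr
  · have hH : H ≤ e + d := by omega
    have h0 : H - (e + d) = 0 := by omega
    rw [h0, pow_zero, mul_one]
    calc gs (Wz z) (Nc (c + 2) e (H - d) H) ≤ Y (c + 2) z H := gs_mono _ (fun p hp => hp.1)
      _ ≤ ((1 + a : ℝ≥0) : ℝ≥0∞) ^ (H + 1) := hY' H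
      _ ≤ ((1 + a : ℝ≥0) : ℝ≥0∞) ^ (e + d + 1) := pow_le_pow_right₀ hA1 (by omega)
      _ = ((1 + a : ℝ≥0) : ℝ≥0∞) * ((1 + a : ℝ≥0) : ℝ≥0∞) ^ (e + d) := by
          rw [pow_succ, mul_comm]
      _ ≤ (E : ℝ≥0∞) * ((1 + a : ℝ≥0) : ℝ≥0∞) ^ (e + d) := by
          refine mul_le_mul' (hA2.trans ?_) le_rfl
          exact_mod_cast hE2

end Pool.Agent.XMX
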