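import Pool.Agent.XMX.Stmts
import Pool.Agent.XM.Nsm

/-!
# Explicit window (MP_f6626d_co), module SPX: the loop of a bridge at a line
-/

set_option autoImplicit false

namespace Pool.Agent.XMX

open Finset Pool.Agent.Lib27 Pool.Agent.OC Pool.Agent.XM
open scoped NNReal ENNReal

namespace SPXM

theorem exists_sp {m h : ℕ} {A : Wd} (h0 : 0 < h) (hm : h < m) (hA : A ∈ Bri m) :
    ∃ u l v : Wd, Sp m h A u l v := by
  obtain ⟨m', rfl⟩ : ∃ m', m = h + m' := ⟨m - h, by omega⟩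
  have hm' : 0 < m' := by omega
  have hend := hA.2.1
  obtain ⟨u, x, rfl, h1, h2⟩ := first_cross (w := A) (h := h) (by positivity)
    ⟨ep 0 A, ep_mem_vt _ _, by rw [hend]; push_cast; omega⟩
  have hx : (ep 0 (0 :: x : Wd)).1 = m' := by
    rw [fst_ep_app, h1] at hend
    push_cast at hend
    omega
  obtain ⟨l, y, h3, h4, h5⟩ := last_cross (w := 0 :: x) (h := 0)
    ⟨0, mem_vt_self _ _, le_rfl⟩ (by rw [hx]; omega)
  have hs := SAWs_right hA.1
  rw [h3] at hs
  refine ⟨u, l, 0 :: y, by rw [h3], ⟨SAWs_left hA.1, h1, fun p hp =>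
    ⟨?_, h2 p (List.mem_of_mem_tail hp)⟩⟩, h4, ?_, ?_⟩
  · have hune : u ≠ [] := by
      rintro rfl
      simp at hp
    exact (hA.2.2 p ((mem_vt_tail_app hune).2 (Or.inl hp))).1
  · rw [Nat.add_sub_cancel_left]
    refine ⟨SAWs_right hs, ?_, fun p hp => ⟨h5 p hp, ?_⟩⟩
    · rw [h3, fst_ep_app, h4] at hx
      omega
    · have h6 : p + ep 0 (u ++ l) ∈ vt 0 (u ++ 0 :: x) := by
        rw [h3, ← List.append_assoc]
        exact mem_vt_right (u ++ l) (List.mem_of_mem_tail hp)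
      have h7 := (Bri_col hA h6).2
      rw [Prod.fst_add, fst_ep_app, h1, h4] at h7
      push_cast at h7
      omega
  · cases l with
    | nil => exact Or.inl rfl
    | cons a l =>
      rw [List.cons_append, List.cons.injEq] at h3
      exact Or.inr ⟨l, by rw [← h3.1]⟩

/-- a vertex of a bridge after the first step East -/
theorem next_col {h : ℕ} {u a : Wd} (h1 : (ep 0 u).1 = h) (hu : u ++ 0 :: a ∈ Bri h) : False := by
  have h2 : dv 0 ∈ vt 0 (0 :: a : Wd) := by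
    rw [vt_cons, zero_add]
    exact List.mem_cons_of_mem _ (mem_vt_self _ _)
  have h3 := (Bri_col hu (mem_vt_right u h2)).2
  have h4 : (dv 0).1 = 1 := rfl
  rw [Prod.fst_add, h1, h4] at h3
  omega

theorem hd {m h : ℕ} {A u l v : Wd} (hm : h < m) (H : Sp m h A u l v) :
    ∃ x, l ++ v = 0 :: x := by
  obtain ⟨-, -, -, hv, hl⟩ := H
  obtain ⟨t, rfl⟩ := Bri_cons hv (by omega)
  rcases hl with rfl | ⟨l', rfl⟩
  · exact ⟨t, rfl⟩
  · exact ⟨l' ++ 0 :: t, rfl⟩

theorem uniq_u {m h : ℕ} {A u l v u' l' v' : Wd} (hm : h < m) (H : Sp m h A u l v)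
    (H' : Sp m h A u' l' v') {a : Wd} (ha : u' = u ++ a) : a = [] := by
  obtain ⟨x, hx⟩ := hd hm H
  have h1 : u ++ (l ++ v) = u' ++ (l' ++ v') := by rw [← H.1, ← H'.1]
  rw [ha, hx, List.append_assoc, List.append_cancel_left_eq] at h1
  cases a with
  | nil => rfl
  | cons s a =>
    exfalso
    rw [List.cons_append, List.cons.injEq] at h1
    obtain ⟨rfl, -⟩ := h1
    exact next_col H.2.1.2.1 (ha ▸ H'.2.1)

theorem uniq_l {k : ℕ} {l v l' v' a : Wd} (hk : 1 ≤ k) (hl : (ep 0 l).1 = 0)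
    (hl' : (ep 0 l').1 = 0) (hv : v ∈ Bri k) (hv' : v' ∈ Bri k) (ha : l' = l ++ a)
    (hva : v = a ++ v') : a = [] := by
  by_contra hne
  have h1 : (ep 0 a).1 = 0 := by
    rw [ha, fst_ep_app, hl] at hl'
    omega
  have h2 : v' ≠ [] := Bri_ne_nil hv' hk
  have h3 : ep 0 a ∈ (vt 0 v).tail := by
    rw [hva, mem_vt_tail_app hne]
    cases a with
    | nil => exact absurd rfl hne
    | cons s a =>
      left
      rw [vt_cons, List.tail_cons, ep_cons]
      exact ep_mem_vt _ _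
  have h4 := (hv.2.2 _ h3).1
  omega

theorem uniq {m h : ℕ} {A u l v u' l' v' : Wd} (hm : h < m) (H : Sp m h A u l v)
    (H' : Sp m h A u' l' v') : u' = u ∧ l' = l ∧ v' = v := by
  have h1 : u ++ (l ++ v) = u' ++ (l' ++ v') := by rw [← H.1, ← H'.1]
  have huu : u' = u := by
    rcases List.append_eq_append_iff.1 h1 with ⟨a, ha, -⟩ | ⟨a, ha, -⟩
    · rw [ha, uniq_u hm H H' ha, List.append_nil]
    · rw [ha, uniq_u hm H' H ha, List.append_nil]
  subst huu
  rw [List.append_cancel_left_eq] at h1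
  have hk : 1 ≤ m - h := by omega
  rcases List.append_eq_append_iff.1 h1 with ⟨a, ha, hb⟩ | ⟨a, ha, hb⟩
  · have h2 := uniq_l hk H.2.2.1 H'.2.2.1 H.2.2.2.1 H'.2.2.2.1 ha hb
    subst h2
    exact ⟨rfl, by rw [ha, List.append_nil], by rw [hb, List.nil_append]⟩
  · have h2 := uniq_l hk H'.2.2.1 H.2.2.1 H'.2.2.2.1 H.2.2.2.1 ha hb
    subst h2
    exact ⟨rfl, by rw [ha, List.append_nil], by rw [hb, List.nil_append]⟩

end SPXM

theorem t_SPX : SPX_Stmt := by
  intro m h A h0 hm hA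
  obtain ⟨u, l, v, H⟩ := SPXM.exists_sp h0 hm hA
  refine ⟨u, l, v, H, ?_, fun u' l' v' H' => SPXM.uniq hm H H'⟩
  have hex : ∃ t : Wd × Wd × Wd, Sp m h A t.1 t.2.1 t.2.2 := ⟨(u, l, v), H⟩
  have h1 := (SPXM.uniq hm H hex.choose_spec).2.1
  unfold ex
  rw [dif_pos hex, h1]

end Pool.Agent.XMX
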