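import Pool.Agent.XMX.Stmts
import Pool.Agent.XM.Yeps
import Pool.Agent.XM.Zst

/-!
# Column-convex polygons (MP_f6626d_co), explicit window: pairs beyond the critical point
-/

set_option autoImplicit false

namespace Pool.Agent.XMX

open Finset Pool.Agent.Lib27 Pool.Agent.OC Pool.Agent.XM
open scoped NNReal ENNReal

namespace YEPSX

theorem log_three_halves : (1 : ℝ) / 3 ≤ Real.log (3 / 2) := by
  have h := Real.one_sub_inv_le_log_of_pos (show (0 : ℝ) < 3 / 2 by norm_num)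
  calc (1 : ℝ) / 3 = 1 - (3 / 2)⁻¹ := by norm_num
    _ ≤ _ := h

theorem rpow_ge {t : ℝ} (ht : 0 ≤ t) : 1 + t / 3 ≤ (3 / 2 : ℝ) ^ t := by
  have h1 : (3 / 2 : ℝ) ^ t = Real.exp (Real.log (3 / 2) * t) :=
    Real.rpow_def_of_pos (by norm_num) t
  rw [h1]
  have h2 := Real.add_one_le_exp (Real.log (3 / 2) * t)
  have h3 := mul_le_mul_of_nonneg_right log_three_halves ht
  linarith

/-- The exponent. -/
theorem exists_t {B1 a : ℝ≥0} (hB : 2 ≤ B1) (ha0 : 0 < a) (ha1 : a ≤ 1) (c : ℕ) :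
    ∃ t : ℝ, 0 < t ∧ t < 1 ∧ (Ba B1 c) ^ t ≤ 1 + a ∧
      (1 + a / (6 * B1 * (c + 2)) : ℝ≥0) ≤ (3 / 2 : ℝ≥0) ^ t := by
  have hB' : (2 : ℝ) ≤ B1 := by exact_mod_cast hB
  have ha0' : (0 : ℝ) < a := by exact_mod_cast ha0
  have ha1' : (a : ℝ) ≤ 1 := by exact_mod_cast ha1
  have hc : (2 : ℝ) ≤ (c : ℝ) + 2 := by
    have : (0 : ℝ) ≤ c := Nat.cast_nonneg c
    linarith
  have hlB : 0 < Real.log B1 := Real.log_pos (by linarith)
  have hlB1 : Real.log B1 ≤ B1 := by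
    have := Real.log_le_sub_one_of_pos (show (0 : ℝ) < B1 by linarith)
    linarith
  have hC : ((Ba B1 c : ℝ≥0) : ℝ) = (B1 : ℝ) ^ (c + 2) := by
    unfold Ba
    push_cast
    rfl
  have hCpos : (0 : ℝ) < (Ba B1 c : ℝ≥0) := by rw [hC]; positivity
  have hC1 : (1 : ℝ) ≤ (Ba B1 c : ℝ≥0) := by rw [hC]; exact one_le_pow₀ (by linarith)
  have hlC : Real.log (Ba B1 c : ℝ≥0) = ((c : ℝ) + 2) * Real.log B1 := by
    rw [hC, Real.log_pow]
    push_cast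
    ring
  have hlCpos : 0 < Real.log (Ba B1 c : ℝ≥0) := by rw [hlC]; positivity
  have hlA : (a : ℝ) / 2 ≤ Real.log (1 + a) := by
    have h := Real.one_sub_inv_le_log_of_pos (show (0 : ℝ) < 1 + a by linarith)
    have h2 : (a : ℝ) / 2 ≤ 1 - (1 + (a : ℝ))⁻¹ := by
      rw [le_sub_iff_add_le, ← le_sub_iff_add_le', inv_le_comm₀ (by linarith) (by linarith),
        inv_le_comm₀ (by linarith) (by linarith)]
      have h3 : (1 - (a : ℝ) / 2) * (1 + a) ≥ 1 := by nlinarith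
      have h4 : 0 < 1 - (a : ℝ) / 2 := by linarith
      rw [inv_eq_one_div, div_le_iff₀ (by linarith)]
      linarith
    linarith
  have hlApos : 0 < Real.log (1 + a) := by linarith [hlA]
  refine ⟨min (Real.log (1 + a) / Real.log (Ba B1 c : ℝ≥0)) (1 / 2), by positivity,
    (min_le_right _ _).trans_lt (by norm_num), ?_, ?_⟩
  · rw [← NNReal.coe_le_coe]
    push_cast
    calc ((Ba B1 c : ℝ≥0) : ℝ) ^ min (Real.log (1 + a) / Real.log (Ba B1 c : ℝ≥0)) (1 / 2)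
        ≤ ((Ba B1 c : ℝ≥0) : ℝ) ^ (Real.log (1 + a) / Real.log (Ba B1 c : ℝ≥0)) :=
          Real.rpow_le_rpow_of_exponent_le hC1 (min_le_left _ _)
      _ = 1 + a := by
          rw [Real.rpow_def_of_pos hCpos, mul_div_cancel₀ _ hlCpos.ne',
            Real.exp_log (by linarith)]
  · rw [← NNReal.coe_le_coe]
    push_cast
    refine le_trans ?_ (rpow_ge (by positivity))
    have hden : (0 : ℝ) < 6 * B1 * ((c : ℝ) + 2) := by positivity
    have h1 : (a : ℝ) / (6 * B1 * ((c : ℝ) + 2)) ≤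
        Real.log (1 + a) / Real.log (Ba B1 c : ℝ≥0) / 3 := by
      rw [hlC, div_div, div_le_div_iff₀ hden (by positivity)]
      have h2 : ((c : ℝ) + 2) * Real.log B1 ≤ ((c : ℝ) + 2) * B1 :=
        mul_le_mul_of_nonneg_left hlB1 (by linarith)
      calc (a : ℝ) * (((c : ℝ) + 2) * Real.log B1 * 3) ≤ a * (((c : ℝ) + 2) * B1 * 3) := by
            gcongr
        _ = a / 2 * (6 * B1 * ((c : ℝ) + 2)) := by ring
        _ ≤ _ := by gcongr
    have h2 : (a : ℝ) / (6 * B1 * ((c : ℝ) + 2)) ≤ 1 / 2 / 3 := by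
      rw [div_div, div_le_div_iff₀ hden (by norm_num)]
      nlinarith
    rcases min_choice (Real.log (1 + a) / Real.log (Ba B1 c : ℝ≥0)) (1 / 2) with h | h
    · rw [h]
      linarith
    · rw [h]
      linarith

end YEPSX

theorem t_XYEPS (h : XYFIN_Stmt) : XYEPS_Stmt := by
  obtain ⟨B1, hB1, hY⟩ := h
  refine ⟨6 * B1, ?_, ?_⟩
  · calc (2 : ℝ≥0) ≤ B1 := hB1
      _ = 1 * B1 := (one_mul _).symm
      _ ≤ 6 * B1 := mul_le_mul_left (by norm_num) _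
  intro c a ha0 ha1 z hz m
  obtain ⟨t, ht0, ht1, ht, hb⟩ := YEPSX.exists_t hB1 ha0 ha1 c
  obtain ⟨hz8, hz2, hY1, -⟩ := XM.zst_thm c
  have hz0 : XM.zst c ≠ 0 := by
    intro h0
    rw [h0] at hz8
    simp at hz8
  have hzt : XM.zst c ≠ ∞ := (hz2.trans_lt (by simp)).ne
  have h34 : (3 / 4 : ℝ≥0∞) ≠ ∞ := ENNReal.div_ne_top (by simp) (by simp)
  have hz' : z ≤ (((3 / 2 : ℝ≥0) ^ t : ℝ≥0) : ℝ≥0∞) * XM.zst c :=
    hz.trans (mul_le_mul' (by exact_mod_cast hb) le_rfl)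
  calc XM.Y (c + 2) z m ≤ XM.Y (c + 2) (XM.zst c ^ (1 - t) * (3 / 4 : ℝ≥0∞) ^ t) m :=
        XM.YEPS.Y_mono (c + 2) (hz'.trans (XM.YEPS.le_mid ht0 hz0 hz2)) m
    _ ≤ XM.Y (c + 2) (XM.zst c) m ^ (1 - t) * XM.Y (c + 2) (3 / 4) m ^ t :=
        XM.YEPS.Y_hold (c + 2) ht0 ht1 hzt h34 m
    _ ≤ 1 ^ (1 - t) * ((Ba B1 c : ℝ≥0∞) ^ (m + 1)) ^ t :=
        mul_le_mul' (ENNReal.rpow_le_rpow (hY1 m) (by linarith))
          (ENNReal.rpow_le_rpow ((hY c).1 m) ht0.le)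
    _ = (((Ba B1 c) ^ t : ℝ≥0) : ℝ≥0∞) ^ (m + 1) := by
        rw [ENNReal.one_rpow, one_mul, ← ENNReal.coe_pow, ← ENNReal.coe_pow,
          ← ENNReal.coe_rpow_of_nonneg _ ht0.le, ENNReal.coe_inj,
          ← NNReal.rpow_natCast, ← NNReal.rpow_natCast, ← NNReal.rpow_mul,
          ← NNReal.rpow_mul, mul_comm]
    _ ≤ (((1 + a : ℝ≥0)) : ℝ≥0∞) ^ (m + 1) :=
        pow_le_pow_left' (by exact_mod_cast ht) (m + 1)

end Pool.Agent.XMX
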