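import Pool.Agent.XMX.YFIN
import Pool.Agent.XMX.MONO0
import Pool.Agent.XMX.MONO
import Pool.Agent.XMX.LOOP
import Pool.Agent.XMX.YEPS
import Pool.Agent.XMX.SPX
import Pool.Agent.XMX.CTX
import Pool.Agent.XMX.GAA
import Pool.Agent.XMX.GAB
import Pool.Agent.XMX.GBA
import Pool.Agent.XMX.GAP
import Pool.Agent.XMX.NCB
import Pool.Agent.XMX.EVN
import Pool.Agent.XMX.NBB
import Pool.Agent.XMX.BEY
import Pool.Agent.XMX.GL

/-!
# Column-convex polygons (MP_f6626d_co), explicit window: mass gap with explicit constants, assembly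
-/

set_option autoImplicit false

namespace Pool.Agent.XMX

theorem m_YFIN : XYFIN_Stmt := t_XYFIN

theorem m_MONO : XMONO_Stmt := t_XMONO t_XMONO0 m_YFIN

theorem m_LOOP : XLOOP_Stmt := t_XLOOP m_MONO

theorem m_YEPS : XYEPS_Stmt := t_XYEPS m_YFIN

theorem m_CTX : CTX_Stmt := t_CTX t_SPX

theorem m_GAB : GAB_Stmt := t_GAB (t_GAA t_SPX m_CTX)

theorem m_GBA : GBA_Stmt := t_GBA t_SPX m_CTX

theorem m_GAP : XGAP_Stmt := t_XGAP m_LOOP m_YEPS m_GAB m_GBA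

theorem m_NCB : XNCB_Stmt := t_XNCB m_GAP m_YEPS

theorem m_NBB : XNBB_Stmt := t_XNBB m_NCB (t_XEVN m_GAP)

theorem m_BEY : XBEY_Stmt := t_XBEY m_NBB m_LOOP

theorem m_GL : XGL_Stmt := t_XGL

end Pool.Agent.XMX
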