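import Pool.Agent.XM.Stmts

/-!
# Column-convex polygons (MP_f6626d_co), explicit window: mass gap with explicit constants

Definitions, conventions and most proofs are those of `Pool/Agent/XM` (files `Defs`, `Stmts`, `Lib`).
`c` is the number of crossings allowed for arcs and loops, `c + 2` the number allowed for pairs
(`c + 2 = 2 k` for `k`-column-convex polygons). There is one absolute constant `B ≥ 2` in every
statement: constants which come from arcs are powers `B ^ (c + 2)`, constants which come from loops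
are powers `B ^ ((c + 2) ^ 2)`. Every doc string contains the proof.

New (it replaces SCALE, THETA, BLK, IRR, FPS, FPL, THFIN, GAP): the direct proof of the mass gap, part C.
-/

set_option autoImplicit false

namespace Pool.Agent.XMX

open Finset Pool.Agent.Lib27 Pool.Agent.OC Pool.Agent.XM
open scoped NNReal ENNReal

/-- constant of arcs -/
noncomputable def Ba (B : ℝ≥0) (c : ℕ) : ℝ≥0 := B ^ (c + 2)

/-- constant of loops -/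
noncomputable def Bl (B : ℝ≥0) (c : ℕ) : ℝ≥0 := B ^ ((c + 2) ^ 2)

/-! ### A. explicit constants for pairs and arcs -/

/-- XYFIN (from `XM.RUN_Stmt`, theorem in XM/Run.lean; text of XM/Yfin.lean). PROOF. `C` of RUN does not
depend on `c`. For `p ∈ Brp (c+2) m`: `hz p.1 + hz p.2 ≤ (c+2) m`, so `Y ≤ (C^((c+2) m + 1))^2 ≤
(C^(2 (c+2)))^(m+1)`. For `l ∈ Lp c` with `ext l ≤ d`: `hz l ≤ c (2 d + 1)` and
`c (2 d + 1) + 1 ≤ 2 (c+2) (d+1)`. Take `B = max 2 (C^2)`. -/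
def XYFIN_Stmt : Prop := ∃ B : ℝ≥0, 2 ≤ B ∧ ∀ c : ℕ,
  (∀ m, Y (c + 2) (3 / 4) m ≤ (Ba B c : ℝ≥0∞) ^ (m + 1)) ∧
  ∀ d, gs (wz (3 / 4)) {l | l ∈ Lp c ∧ ext l ≤ d} ≤ (Ba B c : ℝ≥0∞) ^ (d + 1)

/-- XMONO0 (from `XM.INSP_Stmt`, `XM.ZST_Stmt`, `OC.abs_thm`; text of XM/Mono0.lean). PROOF. In the old
proof `w = 3`, `a = 1`, `q = 1/2`, `Θ = (zst c)^(-3(c+2)) ≤ 512^(c+2)`, and the condition of `abs_thm` is
`q (1 + lam Θ q^(-3)) ≤ 1`, so `lam = (8 * 512^(c+2))⁻¹` is allowed; it gives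
`Y c (zst c) m ≤ m (1 + lam)^(-(m-1))` for `m ≥ 1`, and `Y c (zst c) 0 ≤ 1`. With `B = 4096`
`(Ba B c)⁻¹ ≤ lam ≤ 1`, and `(1 + lam)^(-(m-1)) ≤ 2 (1 + lam)^(-m) ≤ 2 (1 + (Ba B c)⁻¹)^(-m)`. -/
def XMONO0_Stmt : Prop := ∃ B : ℝ≥0, 2 ≤ B ∧ ∀ c m : ℕ,
  Y c (zst c) m ≤ 2 * (m + 1) * (((1 + (Ba B c)⁻¹)⁻¹ : ℝ≥0) : ℝ≥0∞) ^ m

/-- XMONO (from XMONO0, XYFIN, `XM.ZST_Stmt` and `OC.hold_thm`; text of XM/MonoB.lean). PROOF.
`x = (Ba B0 c)⁻¹ ≤ 1/4` (`B0` of XMONO0), `C1 = Ba B1 c` (XYFIN; `Y c ≤ Y (c+2)`). Hoelder between `zst c`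
and `3/4`: for `0 < t < 1`, `z' = (zst c)^(1-t) (3/4)^t`:
`Y c z' m ≤ (2 (m+1) (1+x)^(-m))^(1-t) (C1^(m+1))^t ≤ 2 (m+1) C1^t ((1+x)^(-(1-t)) C1^t)^m`. Take
`t = x / (4 (1 + log C1))`: since `log (1+x) ≥ x/2` and `log (1 + x/8) ≤ x/8`,
`-(1-t) log (1+x) + t log C1 ≤ -x/2 + t (log 2 + log C1) ≤ -x/2 + x/4 ≤ - log (1 + x/8)`, so
`Y c z' m ≤ 4 (m+1) (1 + x/8)^(-m)`, and `(m+1) (1 + x/8)^(-m) ≤ (16/x + 1) (1 + x/16)^(-m)` (or any similar bound: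
`(1 + x/8) ≥ (1 + x/32)^2`, `(1 + x/32)^m ≥ 1 + m x/32`). `z' ≥ zst c (3/2)^t ≥ zst c (1 + t/3)` because
`zst c ≤ 1/2`, and `Y` is monotone in `z`. `log C1 = (c+2) log B1 ≤ (4 B1)^(c+2)`, so all constants are powers `Ba B c`
of a larger `B`. -/
def XMONO_Stmt : Prop := ∃ B : ℝ≥0, 2 ≤ B ∧ ∀ c : ℕ, ∀ z : ℝ≥0∞, z ≤ (1 + (Ba B c)⁻¹ : ℝ≥0) * zst c →
  ∀ m, Y c z m ≤ (Ba B c : ℝ≥0∞) * (((1 + (Ba B c)⁻¹)⁻¹ : ℝ≥0) : ℝ≥0∞) ^ m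

/-- XLOOP : loops (from XMONO, XYFIN or `XM.RUN_Stmt`, `XM.LOOPX_Stmt`, `XM.ARC_Stmt`, `XM.ZST_Stmt`; text of
XM/LoopB.lean). PROOF. `x = (Ba B0 c)⁻¹` with `B0` of XMONO, `s = 1 + x/2`, `r = (1+x)⁻¹`: `s r ≤ (1 + x/4)⁻¹`
(`(1 + x/2)(1 + x/4) ≤ 1 + x` for `x ≤ 1`). LOOPX with `V = gs (wz z) Ve ≤ C` (RUN for `N = 0`, `z ≤ 3/4` since
`zst c ≤ 1/2` and `x ≤ 1/4`) and `S = ∑_d s^(d+1) gs (Ar c (d+1)) ≤ ∑_d s^(d+1) Ba B0 c r^(d+1) ≤ Ba B0 c * 8/x`: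
the sum is at most `(c+1) C (1 + 2 S C)^c ≤ Bl B c` for a larger `B`, since `2 S C ≤ 16 C (Ba B0 c)^2`. -/
def XLOOP_Stmt : Prop := ∃ B : ℝ≥0, 2 ≤ B ∧ ∀ c : ℕ, ∀ z : ℝ≥0∞,
  z ≤ (1 + (Ba B c)⁻¹ : ℝ≥0) * zst c →
    gs (fun l => wz z l * ((1 + (Ba B c)⁻¹ : ℝ≥0) : ℝ≥0∞) ^ ext l) (Lp c) ≤ Bl B c

/-- XYEPS : pairs beyond the critical point (from XYFIN, `XM.ZST_Stmt`, `OC.hold_thm`; text of
XM/Yeps.lean). PROOF. `C1 = Ba B1 c`. Hoelder between `zst c` (where `Y (c+2) ≤ 1`) and `3/4`: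
`Y (c+2) z' m ≤ (C1^(m+1))^t = A^(m+1)` for `t = log A / log C1`; use `t' = min t (1/2)` (then `C1^t' ≤ A`).
`z' ≥ zst c (3/2)^t' ≥ zst c (1 + t'/3)`. `A ≤ 2`: `log A ≥ (A-1)/2`, `log C1 = (c+2) log B1`. Take `B` with
`B (c+2) ≥ 6 (c+2) log B1` and `B (c+2) ≥ 6`. -/
def XYEPS_Stmt : Prop := ∃ B : ℝ≥0, 2 ≤ B ∧ ∀ (c : ℕ) (a : ℝ≥0), 0 < a → a ≤ 1 →
  ∀ z : ℝ≥0∞, z ≤ (1 + a / (B * (c + 2)) : ℝ≥0) * zst c → ∀ m,
    Y (c + 2) z m ≤ (((1 + a : ℝ≥0)) : ℝ≥0∞) ^ (m + 1)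

/-! ### B. the loop of a bridge at a line -/

/-- `A` is a bridge of width `m`, `h` a line, `0 < h < m`. `u` ends at the first crossing of the line `h`, `v`
starts with the last crossing, `l` is the loop between them: it is empty, or it starts with the first
crossing (step East) and ends before the last crossing. -/
def Sp (m h : ℕ) (A u l v : Wd) : Prop :=
  A = u ++ (l ++ v) ∧ u ∈ Bri h ∧ (ep 0 l).1 = 0 ∧ v ∈ Bri (m - h) ∧ (l = [] ∨ ∃ l', l = 0 :: l')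

open Classical in
/-- extension of the loop of `A` at the line `h` -/
noncomputable def ex (m h : ℕ) (A : Wd) : ℕ :=
  if H : ∃ t : Wd × Wd × Wd, Sp m h A t.1 t.2.1 t.2.2 then ext H.choose.2.1 else 0

/-- SPX : existence and uniqueness of the decomposition. PROOF. Existence: `XM.NSM.split` with
`m = h`, `m' = m - h` (the first step of `l` is the first crossing: in that proof `u ++ x`, `x` starts with the
step `0`, see `first_cross`; if `l = []` nothing is to show, otherwise `l ++ 0 :: y = 0 :: x`). Uniqueness: `v ≠ []`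
(`m - h ≥ 1`) and its first step is `0` (the second vertex is in a column `> 0`), so the word `l ++ v` starts with a step `0`
from the column `h`, a crossing of the line `h`, and `u` does not cross the line `h` (`cr_Bri_out` or
`cr_eq_zero_of_le`). So `u` is the part of `A` before its first crossing of `h`: if `A = u ++ x = u' ++ x'`, say `u` is a
proper initial part of `u'`, then the first step of `x` is a step of `u'` which crosses `h`, impossible. `v` starts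
with a crossing and has no other (its other vertices are in columns `> h`), the same argument from the end gives
`v = v'`. Last part: `ex` is the extension of the loop. -/
def SPX_Stmt : Prop := ∀ (m h : ℕ) (A : Wd), 0 < h → h < m → A ∈ Bri m →
  ∃ u l v : Wd, Sp m h A u l v ∧ ex m h A = ext l ∧
    ∀ u' l' v' : Wd, Sp m h A u' l' v' → u' = u ∧ l' = l ∧ v' = v

/-- CTX : cutting a loop (from SPX). PROOF. `A = u ++ (l ++ v)`. `u ++ v` is self-avoiding, since `u` is in columns `≤ h`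
and `v` after its first vertex in columns `> h` (relative to the start of the word), and it is a bridge.
Crossings: `XM.NSM.cr3`, `XM.cr_append`; `cr l (k - h)` is dropped. `Sp m h (u ++ v) u [] v`, so `ex = ext [] = 0`; `cr u h = 0`,
`cr v 0 = 1`. Let `h' ≠ h` be the other line.
(1) `h + ext l ≤ h'` (if `h' = h` then `ext l = 0`, so `l = []` because a first step East gives `ext l ≥ 1`; nothing to
show). `h' > h`: let `Sp (m-h) (h'-h) v u2 l2 v2` (SPX for `v`). Then `Sp m h' A (u ++ l ++ u2) l2 v2` (all vertices of `l` are in columns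
`≤ h + ext l ≤ h'`, and `> 0` because `A` is a bridge) and `Sp m h' (u ++ v) (u ++ u2) l2 v2`; uniqueness in SPX gives
`ex m h' A = ext l2 = ex m h' (u ++ v)`. `cr l (h' - h) = 0` by `cr_eq_zero_of_le`.
(2) `h' + ext l < h`: let `Sp h h' u u1 l1 v1`. Then `Sp m h' A u1 l1 (v1 ++ (l ++ v))` (the vertices of `l` are in columns `≥ h - ext l > h'`, and
`≤ m`) and `Sp m h' (u ++ v) u1 l1 (v1 ++ v)`. `cr l (h' - h) = 0` by `cr_eq_zero_of_gt`. -/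
def CTX_Stmt : Prop := ∀ (m h : ℕ) (A u l v : Wd), 0 < h → h < m → A ∈ Bri m → Sp m h A u l v →
  u ++ v ∈ Bri m ∧ SAWs l ∧ cr (u ++ v) h = 1 ∧ Sp m h (u ++ v) u [] v ∧
  (∀ k : ℤ, cr A k = cr (u ++ v) k + cr l (k - h)) ∧
  ∀ h' : ℕ, 0 < h' → h' < m → (h + ext l ≤ h' ∨ h' + ext l < h) →
    cr (u ++ v) h' = cr A h' ∧ ex m h' (u ++ v) = ex m h' A

/-! ### C. the mass gap -/

/-- the good lines of the grid `3 K j`, `1 ≤ j ≤ J`: both loops have extension `< K` -/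
noncomputable def gset (K J m : ℕ) (p : Wd × Wd) : Finset ℕ :=
  (Icc 1 J).filter (fun j => ex m (3 * K * j) p.1 < K ∧ ex m (3 * K * j) p.2 < K)

open Classical in
/-- the lines of the grid which are cuts -/
noncomputable def cset (K J : ℕ) (p : Wd × Wd) : Finset ℕ :=
  (Icc 1 J).filter (fun j => CC p ((3 * K * j : ℕ) : ℤ))

/-- the bad lines `3 K j`, `i < j ≤ J`, of one word -/
noncomputable def bset (K J m : ℕ) (A : Wd) (i : ℕ) : Finset ℕ :=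
  (Ioc i J).filter (fun j => K ≤ ex m (3 * K * j) A)

/-- GAA : cutting the loops at one good line (from SPX, CTX). PROOF. Let `p` be in the left set, `h = 3 K j`,
`0 < h < m`, `Sp m h p.1 u l v`, `Sp m h p.2 u' l' v'` with `ext l < K`, `ext l' < K`, `q = (u ++ v, u' ++ v')`. `l, l' ∈ Lp c` by
`XM.NSM.loop` (both orders). `q ∈ Brp (c+2) m` and `h` is a cut of `q` (CTX). Other lines `h' = 3 K j'` of the grid
have distance `≥ 3 K`, so `h + ext l ≤ h'` or `h' + ext l < h`: `cr` and `ex` at `h'` do not change; at `h` itself `ex = 0 < K`. So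
`gset q = gset p` and `cset q = cset p ∪ {j}`: `q` is in the right set. `p = f q l l'` with
`f q l l' = (ip h q.1 l, ip h q.2 l')`, `ip h w l` = insert `l` before the first crossing of the line `h` of `w` (define it with
SPX by choice, or with `List.takeWhile`); `Wz z p = Wz z q * wz z l * wz z l'`. `OC.gs_split3`. -/
def GAA_Stmt : Prop := ∀ (c : ℕ) (z : ℝ≥0∞) (m K J : ℕ), 1 ≤ K → 3 * K * J < m →
  ∀ (g T : Finset ℕ) (j : ℕ), g ⊆ Icc 1 J → j ∈ g → j ∉ T →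
    gs (Wz z) {p | p ∈ Brp (c + 2) m ∧ gset K J m p = g ∧ (∀ i ∈ T, i ∉ cset K J p) ∧
        j ∉ cset K J p} ≤
      gs (wz z) (Lp c) ^ 2 *
        gs (Wz z) {p | p ∈ Brp (c + 2) m ∧ gset K J m p = g ∧ (∀ i ∈ T, i ∉ cset K J p) ∧
          j ∈ cset K J p}

/-- GAB : the lines without cut (from GAA). PROOF. `Λ = gs (wz z) (Lp c)`, `1 ≤ Λ < ⊤`, `κ = 1 + (Λ⁻¹)^2`. For `T ⊆ g` put `W_T` = weight of
`{p ∈ Brp, gset p = g, no i ∈ T is a cut}`. `W_T = W_{T ∪ {j}} + (weight with j a cut) ≥ (1 + Λ^-2) W_{T ∪ {j}}` by GAA (`gs` of a disjoint union;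
`≤`-direction: `gs_union` reversed, see `OC.sum_gs_le`). Induction on `T`: `κ^|g| W_g ≤ W_∅`. Sum over all `g` with `J ≤ 2 |g|`
(`OC.gs_le_sum` on the left, `OC.sum_gs_le` on the right; `κ^(J/2) ≤ κ^|g|`); a pair without any cut of the grid is in `W_g` for
`g = gset p`. -/
def GAB_Stmt : Prop := ∀ (c : ℕ) (z : ℝ≥0∞) (m K J : ℕ), 1 ≤ K → 3 * K * J < m →
  gs (wz z) (Lp c) ≠ ⊤ →
    (1 + ((gs (wz z) (Lp c))⁻¹) ^ 2) ^ (J / 2) *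
      gs (Wz z) {p | p ∈ Brp (c + 2) m ∧ J ≤ 2 * (gset K J m p).card ∧ cset K J p = ∅} ≤
    Y (c + 2) z m

/-- GBA : bad lines cost loops (from SPX, CTX). PROOF. Put `T_i` = the left side. Claim `T_i ≤ (1 + E) T_{i+1}` for
`i < J`. Let `h = 3 K (i+1)`, `0 < h < m`. Pairs with `ex m h p.1 < K`: `bset p.1 i = bset p.1 (i+1)`, together at most
`T_{i+1}`. Other pairs: `Sp m h p.1 u l v`, `d = ext l ≥ K`, `q = (u ++ v, p.2) ∈ Brp (c+2) m` and `l ∈ Lp c` (`XM.NSM.loop`). The lines `3 K j` with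
`j > i + 1` and `h + d ≤ 3 K j` have the same `ex` for `p.1` and `u ++ v` (CTX), and there are at most `d/(3K) + 1` numbers `j ≥ i + 1` with
`3 K j < h + d`. So `3 K |bset p.1 i| ≤ 3 K |bset (u ++ v) (i+1)| + d + 3 K ≤ 3 K |bset (u ++ v) (i+1)| + 4 d`. `p = (insert l into q.1, q.2)` as in GAA,
`OC.gs_split2`: together at most `T_{i+1} * E`. Start: `T_J = Y` (`Ioc J J = ∅`). Induction on `J - i`. -/
def GBA_Stmt : Prop := ∀ (c : ℕ) (z τ : ℝ≥0∞) (m K J : ℕ), 1 ≤ K → 3 * K * J < m → 1 ≤ τ → τ ≠ ⊤ →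
  ∀ i : ℕ, i ≤ J → gs (fun p => Wz z p * τ ^ (3 * K * (bset K J m p.1 i).card)) (Brp (c + 2) m) ≤
    (1 + gs (fun l => wz z l * τ ^ (4 * ext l)) {l | l ∈ Lp c ∧ K ≤ ext l}) ^ (J - i) *
      Y (c + 2) z m

/-- XGAP (from XLOOP, XYEPS, GAB, GBA, `XM.ZST_Stmt`). PROOF. `x = (Ba B0 c)⁻¹`, `D0 = Bl B0 c`, `B0` of XLOOP,
`σ = 1 + x/64`, so `σ^32 ≤ 1 + x` (`(1 + x/64)^32 ≤ exp(x/2) ≤ 1 + x`), `τ = σ^4`. Let `K ≥ 1` be such that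
`D0 ≤ σ^(16 K)` and `8 ≤ σ^(3 K)`: since `log σ ≥ x/128` it is enough that `K ≥ 8 log D0 / x` and `K ≥ 128/x`; so there is
such a `K ≤ Ba B1 c`. Let `z ≤ (1 + x) zst c`, `Λ = gs (wz z) (Lp c) ≤ D0`, `J = (m - 1)/(3 K)` (`3 K J < m` for `m ≥ 1`).
(a) `E = gs (wz z l * τ^(4 ext l)) {ext ≥ K} ≤ σ^(-16 K) gs (wz z l * σ^(32 ext l)) (Lp c) ≤ σ^(-16 K) D0 ≤ 1`.
(b) GBA for `i = 0`, and `τ^(3 K b) = σ^(12 K b) ≥ σ^(3 K J) ≥ 8^J` if `J ≤ 4 b`: the weight of the pairs with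
`J ≤ 4 |bset p.1 0|` is at most `8^-J 2^J Y = 4^-J Y`. The same for `p.2` (`Brp` is invariant under `Prod.swap`, `gs_le_of_inj`).
(c) `Icc 1 J = gset p ∪ bset p.1 0 ∪ bset p.2 0`, so otherwise `J ≤ 2 |gset p|`; for `p ∈ Irr (c+2) m` `cset p = ∅`. By GAB
with `κ = 1 + Λ^-2 ≥ 1 + D0^-2 =: 1 + y`, `y ≤ 1/4`: `ww (c+2) z m ≤ ((1 + y)^(-(J/2)) + 2 * 4^-J) Y (c+2) z m ≤ 3 (1 + y)^(-(J/2)) Y (c+2) z m`.
(d) `J/2 ≥ (m - 1)/(6 K) - 2` (real numbers), `(1 + y)^(1/(6K)) ≥ 1 + y/(12 K)` (Bernoulli in the form `(1 + y/(12K))^(6K) ≤ exp(y/2) ≤ 1 + y`).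
With `a = y/(48 K)`: `(1 + a)^2 ≤ 1 + y/(12 K)`; XYEPS with this `a` (`z ≤ (1 + a/(B2 (c+2))) zst c`): `Y (c+2) z m ≤ (1 + a)^(m+1)`. Together
`ww (c+2) z m ≤ 3 (1+y)^3 (1+a)^2 (1 + a)^(-m) ≤ 100 (1 + a)^(-m)`; `a⁻¹ = 48 K D0^2 ≤ Bl B c` for a larger `B` (`Ba B c ≤ Bl B c`). `m = 0`: `ww ≤ 1`. -/
def XGAP_Stmt : Prop := ∃ B : ℝ≥0, 2 ≤ B ∧ ∀ c : ℕ, ∀ z : ℝ≥0∞, z ≤ (1 + (Bl B c)⁻¹ : ℝ≥0) * zst c →
  ∀ l : ℕ, ww (c + 2) z l ≤ (Bl B c : ℝ≥0∞) * (((1 + (Bl B c)⁻¹)⁻¹ : ℝ≥0) : ℝ≥0∞) ^ l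

/-! ### D. pairs without even cut -/

/-- XNCB (from `XM.RENU_Stmt`, XGAP, XYEPS; text of XM/Ncb.lean). PROOF. `D = Bl B0 c`, `r = (1 + D⁻¹)⁻¹` of XGAP. For
`e + d < H` RENU with `A = e`, `B = H - d`, `L = H`: `Y_i ≤ (1+a)^(i+1)`, `ww_j ≤ D r^j`, `i ≤ e`, `L - i - j ≤ d`:
`≤ (1+a)^(e+d+2) D r^(H-(e+d)) ∑_{i ≤ e} ∑_{i3 ≤ d} r^(e-i) r^(d-i3) ≤ (1+a)^(e+d) 4 D (1-r)^-2 r^(H-(e+d))`, `(1-r)⁻¹ = D + 1`. For `H ≤ e + d` the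
exponent is `0` and `gs ≤ Y (c+2) z H ≤ (1+a)^(e+d+1)`. -/
def XNCB_Stmt : Prop := ∃ B : ℝ≥0, 2 ≤ B ∧ ∀ (c : ℕ) (a : ℝ≥0), 0 < a → a ≤ 1 →
  ∀ z : ℝ≥0∞, z ≤ (1 + a / Bl B c : ℝ≥0) * zst c → ∀ e d H : ℕ,
    gs (Wz z) (Nc (c + 2) e (H - d) H) ≤ (Bl B c : ℝ≥0∞) * ((1 + a : ℝ≥0) : ℝ≥0∞) ^ (e + d) *
      (((1 + (Bl B c)⁻¹)⁻¹ : ℝ≥0) : ℝ≥0∞) ^ (H - (e + d))

/-- XEVN (from `XM.EVR_Stmt`, XGAP, `XM.MEAN_Stmt`, `XM.ZST_Stmt`, `OC.hold_thm` or the Hoelder step of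
XM/Evn.lean). PROOF. `u_j(z) = gs (Wz z) (Irv (c+2) j)`. At `zst c`: `∑_{j ≥ 1} u_j ≤ 1 - 1/512` (MEAN: `∑ ww = 1`; the pair
`([0], [0,1])` has odd length `3` and `zst c ≥ 1/8`). `D = Bl B0 c` of XGAP, `R = 1 + (2D)⁻¹`:
`∑_j R^j u_j((1 + D⁻¹) zst c) ≤ ∑_j D (R r)^j ≤ D * 4 D =: X` (crudely, `r = (1 + D⁻¹)⁻¹`). Hoelder with exponents `1 - t`, `t`: for
`z = zst (1 + D⁻¹)^t`, `∑_j R^(t j) u_j(z) ≤ (1 - 1/512)^(1-t) X^t ≤ 1` for `t = 1 / (2000 (1 + log X))` (`log (1 - 1/512) ≤ -1/512`). So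
`u_j(z) s^j` sums to at most `1` for `s = R^t`, and by EVR and induction on `l`: `s^l gs (Evp l) ≤ 1`. `R^t ≥ 1 + t/(4D)`,
`(1 + D⁻¹)^t ≥ 1 + t/(2D)`, `log X` is at most `(c+2)^2 log` of a constant. -/
def XEVN_Stmt : Prop := ∃ B : ℝ≥0, 2 ≤ B ∧ ∀ c : ℕ, ∀ z : ℝ≥0∞, z ≤ (1 + (Bl B c)⁻¹ : ℝ≥0) * zst c →
  ∀ l : ℕ, gs (Wz z) (Evp (c + 2) l) ≤ (((1 + (Bl B c)⁻¹)⁻¹ : ℝ≥0) : ℝ≥0∞) ^ l

/-- XNBB (from `XM.NBD_Stmt`, XNCB, XEVN; text of XM/Nbb.lean). PROOF. `D = Bl B0 c` common to XNCB and XEVN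
(both statements are monotone in `B`), `r = (1 + D⁻¹)⁻¹`. `e + d < H`: NBD with `A = e`, `B = H - d`, `L = H`: the first term is XNCB; a term of the sum is at
most `D (1+a)^e r^(i1 - e) * r^(i2 - i1) * D (1+a)^d r^((H - i2) - d)`
`= D^2 (1+a)^(e+d) r^(H-(e+d))`, and there are at most `(H - (e+d))^2` terms; `n^2 r^n ≤ 16 (D+1)^2 (r')^n` with `r' = (1 + (4D)⁻¹)⁻¹` or
similar (`(1 + D⁻¹) ≥ (1 + (4D)⁻¹)^3`, `(1 + (4D)⁻¹)^n ≥ n/(4D)`). `H ≤ e + d`: `gs ≤ gs (Nc ..)` is wrong here, use `Nb ⊆ Brp` and XYEPS, or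
XNCB for `Nc (c+2) e (H - d) H = Brp` when `H - d ≤ e + 1`. -/
def XNBB_Stmt : Prop := ∃ B : ℝ≥0, 2 ≤ B ∧ ∀ (c : ℕ) (a : ℝ≥0), 0 < a → a ≤ 1 →
  ∀ z : ℝ≥0∞, z ≤ (1 + a / Bl B c : ℝ≥0) * zst c → ∀ (b : ℤ) (e d H : ℕ),
    gs (Wz z) (Nb b (c + 2) e (H - d) H) ≤ (Bl B c : ℝ≥0∞) * ((1 + a : ℝ≥0) : ℝ≥0∞) ^ (e + d) *
      (((1 + (Bl B c)⁻¹)⁻¹ : ℝ≥0) : ℝ≥0∞) ^ (H - (e + d))

/-- XBEY : the result of this part (from XNBB, `XM.EONE_Stmt`, `XM.CAPC_Stmt`, `XM.POLYC_Stmt`, XLOOP,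
`XM.ZST_Stmt`; text of XM/Bey.lean, BeyB.lean). PROOF. `D0 = Bl B0 c` of XNBB, `x = (Ba B1 c)⁻¹` of XLOOP, `r = (1 + D0⁻¹)⁻¹`.
Pieces: `we (c+2) z l ≤ gs (Nb 0 (c+2) 0 l l)`, XNBB with `e = d = 0`, `a = 1`: `∑_l ≤ D0 (D0 + 1)`. Caps: CAPC, the same.
Polygons (`n ≥ 2`): POLYC; XNBB with `e = ext q.1`, `d = ext q.2`: `∑_H ≤ D0 (1+a)^(e+d) (e + d + D0 + 1)`, and
`e + d ≤ a⁻¹ (1+a)^(e+d)` (Bernoulli), so `≤ D0 (D0 + 2) a⁻¹ ((1+a)^2)^(e+d)`; take `a = x/3`, `(1+a)^2 ≤ 1 + x`; by XLOOP the sum over the two loops is at most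
`(Bl B1 c)^2`. `n = 1`: `card (W 1) ≤ 16`. `z = (1 + (Bl B c)⁻¹) zst c` with `B` large is below all bounds
(`a / D0`, `x`). -/
def XBEY_Stmt : Prop := ∃ B : ℝ≥0, 2 ≤ B ∧ ∀ c : ℕ,
  ∑' l : ℕ, we (c + 2) ((1 + (Bl B c)⁻¹ : ℝ≥0) * zst c) l ≤ Bl B c ∧
  gs (wz ((1 + (Bl B c)⁻¹ : ℝ≥0) * zst c)) (Cap (c + 2)) ≤ Bl B c ∧
  ∀ n : ℕ, 1 ≤ n → ((NoE (c + 2) n).card : ℝ≥0∞) * ((1 + (Bl B c)⁻¹ : ℝ≥0) * zst c) ^ (2 * n) ≤
    Bl B c * n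

end Pool.Agent.XMX
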