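import Pool.Agent.XMX.Stmts
import Pool.Agent.XM.Run
import Pool.Agent.XM.Yfin

/-!
# Column-convex polygons (MP_f6626d_co): YFIN with an explicit constant
-/

set_option autoImplicit false

namespace Pool.Agent.XMX

open Finset Pool.Agent.Lib27 Pool.Agent.OC Pool.Agent.XM
open scoped NNReal ENNReal

/-- XYFIN -/
theorem t_XYFIN : XYFIN_Stmt := by
  obtain ⟨C0, hC0, hrun⟩ := run_thm
  have hC0' : (1 : ℝ≥0∞) ≤ (C0 : ℝ≥0∞) := by exact_mod_cast hC0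
  refine ⟨max 2 (C0 ^ 2), le_max_left _ _, fun c => ?_⟩
  have hB : (C0 : ℝ≥0∞) ^ (2 * (c + 2)) ≤ ((Ba (max 2 (C0 ^ 2)) c : ℝ≥0) : ℝ≥0∞) := by
    have h1 : C0 ^ (2 * (c + 2)) ≤ Ba (max 2 (C0 ^ 2)) c := by
      unfold Ba
      rw [pow_mul]
      exact pow_le_pow_left₀ (zero_le) (le_max_right _ _) _
    exact_mod_cast h1
  have hpow : ∀ m : ℕ, (C0 : ℝ≥0∞) ^ (2 * (c + 2) * (m + 1)) ≤
      ((Ba (max 2 (C0 ^ 2)) c : ℝ≥0) : ℝ≥0∞) ^ (m + 1) := by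
    intro m
    rw [pow_mul]
    exact pow_le_pow_left' hB _
  refine ⟨fun m => ?_, fun d => ?_⟩
  · have h2 : Y (c + 2) (3 / 4) m ≤
        gs (fun p : Wd × Wd => wz (3 / 4) p.1 * wz (3 / 4) p.2)
          ({w : Wd | SAWs w ∧ hz w ≤ (c + 2) * m} ×ˢ {w : Wd | SAWs w ∧ hz w ≤ (c + 2) * m}) := by
      unfold Y
      refine gs_le _ _ (fun p hp => ?_) fun p _ => ?_
      · have h3 := XM.YFIN.hz_Brp hp
        exact ⟨⟨hp.1.1, by omega⟩, ⟨hp.2.1.1, by omega⟩⟩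
      · unfold Wz wz lg
        rw [pow_add]
    rw [gs_prod] at h2
    refine le_trans ?_ (hpow m)
    calc Y (c + 2) (3 / 4) m ≤ _ := h2
      _ ≤ (C0 : ℝ≥0∞) ^ ((c + 2) * m + 1) * (C0 : ℝ≥0∞) ^ ((c + 2) * m + 1) :=
          mul_le_mul' (hrun _) (hrun _)
      _ = (C0 : ℝ≥0∞) ^ (((c + 2) * m + 1) + ((c + 2) * m + 1)) := (pow_add _ _ _).symm
      _ ≤ (C0 : ℝ≥0∞) ^ (2 * (c + 2) * (m + 1)) := by
          refine pow_le_pow_right₀ hC0' ?_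
          nlinarith
  · have h2 : gs (wz (3 / 4)) {l | l ∈ Lp c ∧ ext l ≤ d} ≤
        gs (wz (3 / 4)) {w : Wd | SAWs w ∧ hz w ≤ c * (2 * d)} :=
      gs_mono _ fun l hl => ⟨hl.1.1, XM.YFIN.hz_Lp hl.1 hl.2⟩
    refine le_trans ?_ (hpow d)
    refine h2.trans ((hrun _).trans (pow_le_pow_right₀ hC0' ?_))
    nlinarith

end Pool.Agent.XMX
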